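import Pool.Agent.Lib.MP_7c0edd_co.H26.Spec

/-!
# EDGE: copies of `Q_d` in `Q_n` are subcubes, so `ex(Q_n, Q_d) = e(Q_n) - f n d 1`
-/

namespace MP7c0edd

open Finset Pool.Agent.Lib.MP_7c0edd_co.H21

namespace EdgeM

/-- flip a coordinate -/
def flip {n : ℕ} (x : Fin n → Bool) (i : Fin n) : Fin n → Bool := Function.update x i (!x i)

lemma flip_same {n : ℕ} (x : Fin n → Bool) (i : Fin n) : flip x i i = !x i := by
  simp [flip]

lemma flip_ne {n : ℕ} (x : Fin n → Bool) {i j : Fin n} (h : j ≠ i) : flip x i j = x j := by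
  simp [flip, h]

lemma flip_flip {n : ℕ} (x : Fin n → Bool) (i : Fin n) : flip (flip x i) i = x := by
  funext j
  by_cases h : j = i
  · subst h; rw [flip_same, flip_same, Bool.not_not]
  · rw [flip_ne _ h, flip_ne _ h]

lemma flip_comm {n : ℕ} (x : Fin n → Bool) (i j : Fin n) :
    flip (flip x i) j = flip (flip x j) i := by
  by_cases hij : i = j
  · subst hij; rfl
  funext k
  by_cases h : k = i
  · subst h
    rw [flip_ne _ hij, flip_same, flip_same, flip_ne _ hij]
  · by_cases h' : k = j
    · subst h'
      rw [flip_same, flip_ne _ h, flip_ne _ h, flip_same]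
    · rw [flip_ne _ h', flip_ne _ h, flip_ne _ h, flip_ne _ h']

lemma flip_inj {n : ℕ} {x : Fin n → Bool} {i j : Fin n} (h : flip x i = flip x j) : i = j := by
  by_contra hij
  have := congrFun h i
  rw [flip_same, flip_ne _ hij] at this
  cases hx : x i <;> simp [hx] at this

lemma flip_ne_self {n : ℕ} (x : Fin n → Bool) (i : Fin n) : flip x i ≠ x := by
  intro h
  have := congrFun h i
  rw [flip_same] at this
  cases hx : x i <;> simp [hx] at this

/-- two flips in different positions -/
lemma two_flips {n : ℕ} {x : Fin n → Bool} {a b c e : Fin n} (h : flip (flip x a) b = flip (flip x c) e)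
    (hab : a ≠ b) (hac : a ≠ c) : a = e := by
  by_contra hae
  have := congrFun h a
  rw [flip_ne _ hab, flip_same, flip_ne _ hae, flip_ne _ hac] at this
  cases hx : x a <;> simp [hx] at this

lemma adj_iff {n : ℕ} {x y : Fin n → Bool} : (cubeG n).Adj x y ↔ ∃ i, y = flip x i := by
  change (univ.filter fun i => x i ≠ y i).card = 1 ↔ _
  rw [card_eq_one]
  constructor
  · rintro ⟨i, hi⟩
    refine ⟨i, ?_⟩
    funext j
    by_cases h : j = i
    · subst h
      rw [flip_same]
      have : j ∈ (univ.filter fun i => x i ≠ y i) := by rw [hi]; exact mem_singleton_self j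
      rw [mem_filter] at this
      cases hx : x j <;> cases hy : y j <;> simp_all
    · rw [flip_ne _ h]
      by_contra hne
      have : j ∈ (univ.filter fun i => x i ≠ y i) := by
        rw [mem_filter]; exact ⟨mem_univ _, fun h => hne h.symm⟩
      rw [hi, mem_singleton] at this
      exact h this
  · rintro ⟨i, rfl⟩
    refine ⟨i, ?_⟩
    ext j
    rw [mem_filter, mem_singleton]
    constructor
    · rintro ⟨_, h⟩
      by_contra hne
      rw [flip_ne _ hne] at h
      exact h rfl
    · rintro rfl
      refine ⟨mem_univ _, ?_⟩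
      rw [flip_same]
      cases x j <;> simp

/-- the direction of a move -/
lemma exists_dir {d n : ℕ} {G : SimpleGraph (Fin n → Bool)} (hG : G ≤ cubeG n)
    (f : (Fin d → Bool) → (Fin n → Bool)) (hf : ∀ x y, (cubeG d).Adj x y → G.Adj (f x) (f y))
    (u : Fin d → Bool) (i : Fin d) : ∃ k, f (flip u i) = flip (f u) k :=
  adj_iff.mp (hG (hf _ _ (adj_iff.mpr ⟨i, rfl⟩)))

/-- reachability of all words by flips -/
lemma flip_induction {d : ℕ} {P : (Fin d → Bool) → Prop} (h0 : P (fun _ => false))
    (hs : ∀ u i, P u → P (flip u i)) (u : Fin d → Bool) : P u := by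
  classical
  have key : ∀ s : Finset (Fin d), P (fun i => decide (i ∈ s)) := by
    intro s
    induction s using Finset.induction_on with
    | empty => simpa using h0
    | insert a s ha ih =>
      have := hs _ a ih
      convert this using 1
      funext i
      by_cases h : i = a
      · subst h
        rw [flip_same]
        simp [ha]
      · rw [flip_ne _ h]
        simp [h]
  have := key (univ.filter fun i => u i = true)
  convert this using 1
  funext i
  by_cases h : u i = true
  · simp [h]
  · simp only [Bool.not_eq_true] at h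
    simp [h]

/-- An injective homomorphism from `Q_d` to a subgraph of `Q_n` has constant directions. -/
lemma exists_tau {d n : ℕ} {G : SimpleGraph (Fin n → Bool)} (hG : G ≤ cubeG n)
    (f : (Fin d → Bool) → (Fin n → Bool)) (hinj : Function.Injective f)
    (hf : ∀ x y, (cubeG d).Adj x y → G.Adj (f x) (f y)) :
    ∃ τ : Fin d → Fin n, Function.Injective τ ∧ ∀ u i, f (flip u i) = flip (f u) (τ i) := by
  choose τ hτ using exists_dir hG f hf
  have h1 : ∀ u i j, i ≠ j → τ u i ≠ τ u j := by
    intro u i j hij h
    have : f (flip u i) = f (flip u j) := by rw [hτ, hτ, h]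
    exact hij (flip_inj (hinj this))
  have h2 : ∀ u i j, i ≠ j → τ u i ≠ τ (flip u i) j := by
    intro u i j hij h
    have h3 : f (flip (flip u i) j) = f u := by
      rw [hτ, hτ, ← h, flip_flip]
    have h4 := hinj h3
    have := congrFun h4 i
    rw [flip_ne _ hij, flip_same] at this
    cases hx : u i <;> simp [hx] at this
  have h3 : ∀ u i j, τ (flip u j) i = τ u i := by
    intro u i j
    by_cases hij : i = j
    · subst hij
      have h5 : f (flip (flip u i) i) = f u := by rw [flip_flip]
      rw [hτ] at h5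
      have h6 := hτ u i
      -- f u = flip (f (flip u i)) (τ (flip u i) i), f (flip u i) = flip (f u) (τ u i)
      have h7 : flip (f (flip u i)) (τ (flip u i) i) = flip (f (flip u i)) (τ u i) := by
        rw [h5]
        conv_rhs => rw [h6, flip_flip]
      exact flip_inj h7
    · have h5 : f (flip (flip u i) j) = f (flip (flip u j) i) := by rw [flip_comm]
      rw [hτ, hτ, hτ, hτ] at h5
      exact (two_flips h5 (h2 u i j hij) (h1 u i j hij)).symm
  refine ⟨τ (fun _ => false), ?_, ?_⟩
  · intro i j hij
    by_contra hne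
    exact h1 _ i j hne hij
  · intro u i
    rw [hτ]
    congr 1
    revert i
    refine flip_induction (P := fun u => ∀ i, τ u i = τ (fun _ => false) i) (fun _ => rfl) ?_ u
    intro u j hu i
    rw [h3, hu]

/-- the edge of a word with one star -/
def ed {n : ℕ} (w : W n) : Sym2 (Fin n → Bool) :=
  s(fill w (fun _ => false), fill w (fun _ => true))

lemma fill_flip {n : ℕ} {w : W n} {i : Fin n} (h : stars w = {i}) :
    fill w (fun _ => true) = flip (fill w (fun _ => false)) i := by
  have h1 : ∀ j, w j = none ↔ j = i := by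
    intro j
    rw [← mem_stars, h, mem_singleton]
  funext j
  by_cases hj : j = i
  · subst hj
    rw [flip_same]
    unfold fill
    rw [(h1 j).mpr rfl]
    rfl
  · rw [flip_ne _ hj]
    unfold fill
    have h2 : w j ≠ none := fun h => hj ((h1 j).mp h)
    obtain ⟨b, hb⟩ := Option.ne_none_iff_exists'.mp h2
    rw [hb]
    rfl

/-- the word of the edge `{x, flip x i}` -/
def wd {n : ℕ} (x : Fin n → Bool) (i : Fin n) : W n := fun j => if j = i then none else some (x j)

lemma stars_wd {n : ℕ} (x : Fin n → Bool) (i : Fin n) : stars (wd x i) = {i} := by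
  ext j
  rw [mem_stars, mem_singleton]
  unfold wd
  by_cases h : j = i <;> simp [h]

lemma ed_wd {n : ℕ} (x : Fin n → Bool) (i : Fin n) : ed (wd x i) = s(x, flip x i) := by
  have h1 : ∀ b : Bool, fill (wd x i) (fun _ => b) = if x i = b then x else flip x i := by
    intro b
    funext j
    unfold fill wd
    by_cases hj : j = i
    · subst hj
      simp only [if_true, Option.getD_none]
      by_cases hb : x j = b
      · simp [hb]
      · rw [if_neg hb, flip_same]
        cases hx : x j <;> cases b <;> simp_all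
    · simp only [hj, if_false, Option.getD_some]
      by_cases hb : x i = b
      · simp [hb]
      · rw [if_neg hb, flip_ne _ hj]
  unfold ed
  rw [h1, h1]
  cases hx : x i
  · simp
  · simp [Sym2.eq_swap]

lemma wd_fill {n : ℕ} {w : W n} {i : Fin n} (h : stars w = {i}) (v : Fin n → Bool) :
    wd (fill w v) i = w := by
  have h1 : ∀ j, w j = none ↔ j = i := by
    intro j
    rw [← mem_stars, h, mem_singleton]
  funext j
  unfold wd fill
  by_cases hj : j = i
  · subst hj
    simp [(h1 j).mpr rfl]
  · have h2 : w j ≠ none := fun h => hj ((h1 j).mp h)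
    obtain ⟨b, hb⟩ := Option.ne_none_iff_exists'.mp h2
    simp [hj, hb]

lemma wd_flip {n : ℕ} (x : Fin n → Bool) (i : Fin n) : wd (flip x i) i = wd x i := by
  funext j
  unfold wd
  by_cases hj : j = i
  · simp [hj]
  · simp [hj, flip_ne _ hj]

lemma one_star {n : ℕ} {w : W n} (h : w ∈ words n 1) : ∃ i, stars w = {i} :=
  card_eq_one.mp (mem_words.mp h)

lemma ed_injOn {n : ℕ} : Set.InjOn (ed : W n → _) (words n 1 : Set (W n)) := by
  intro w hw w' hw' h
  obtain ⟨i, hi⟩ := one_star hw
  obtain ⟨i', hi'⟩ := one_star hw'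
  unfold ed at h
  rw [fill_flip hi, fill_flip hi'] at h
  rw [Sym2.eq_iff] at h
  rcases h with ⟨h1, h2⟩ | ⟨h1, h2⟩
  · rw [← wd_fill hi (fun _ => false), ← wd_fill hi' (fun _ => false), h1]
    rw [h1] at h2
    rw [flip_inj h2]
  · -- fill w false = flip (fill w' false) i', flip (fill w false) i = fill w' false
    have h3 : i = i' := by
      rw [h1] at h2
      by_contra hne
      have := congrFun h2 i
      rw [flip_same, flip_ne _ hne] at this
      cases hx : fill w' (fun _ => false) i <;> simp [hx] at this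
    subst h3
    rw [← wd_fill hi (fun _ => false), ← wd_fill hi' (fun _ => false), h1, wd_flip]

lemma ed_mem {n : ℕ} {w : W n} (h : w ∈ words n 1) : ed w ∈ (cubeG n).edgeSet := by
  obtain ⟨i, hi⟩ := one_star h
  unfold ed
  rw [SimpleGraph.mem_edgeSet, fill_flip hi, adj_iff]
  exact ⟨i, rfl⟩

lemma exists_word {n : ℕ} {e : Sym2 (Fin n → Bool)} (h : e ∈ (cubeG n).edgeSet) :
    ∃ w ∈ words n 1, ed w = e := by
  induction e using Sym2.inductionOn with
  | hf x y =>
    rw [SimpleGraph.mem_edgeSet, adj_iff] at h
    obtain ⟨i, rfl⟩ := h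
    refine ⟨wd x i, ?_, ed_wd x i⟩
    rw [mem_words, stars_wd, card_singleton]

/-- the missing edges of a subgraph, as words -/
noncomputable def miss {n : ℕ} (G : SimpleGraph (Fin n → Bool)) : Finset (W n) := by
  classical
  exact (words n 1).filter fun w => ed w ∉ G.edgeSet

lemma mem_miss {n : ℕ} {G : SimpleGraph (Fin n → Bool)} {w : W n} :
    w ∈ miss G ↔ w ∈ words n 1 ∧ ed w ∉ G.edgeSet := by
  classical
  unfold miss
  rw [mem_filter]

lemma card_miss {n : ℕ} {G : SimpleGraph (Fin n → Bool)} (hG : G ≤ cubeG n) :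
    G.edgeSet.ncard + (miss G).card = (words n 1).card := by
  classical
  have h1 : G.edgeSet = ed '' (((words n 1).filter fun w => ed w ∈ G.edgeSet : Finset (W n)) : Set (W n)) := by
    ext e
    constructor
    · intro he
      obtain ⟨w, hw, rfl⟩ := exists_word (SimpleGraph.edgeSet_mono hG he)
      exact ⟨w, by simp [hw, he], rfl⟩
    · rintro ⟨w, hw, rfl⟩
      rw [mem_coe, mem_filter] at hw
      exact hw.2
  have h2 : G.edgeSet.ncard = ((words n 1).filter fun w => ed w ∈ G.edgeSet).card := by
    have h3 := congrArg Set.ncard h1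
    rw [h3, Set.InjOn.ncard_image, Set.ncard_coe_finset]
    refine ed_injOn.mono ?_
    intro w hw
    rw [mem_coe, mem_filter] at hw
    exact hw.1
  rw [h2]
  unfold miss
  exact card_filter_add_card_filter_not _

lemma card_cube (n : ℕ) : (cubeG n).edgeSet.ncard = (words n 1).card := by
  have h := card_miss (le_refl (cubeG n))
  have h1 : miss (cubeG n) = ∅ := by
    rw [eq_empty_iff_forall_notMem]
    intro w hw
    rw [mem_miss] at hw
    exact hw.2 (ed_mem hw.1)
  rw [h1, card_empty, add_zero] at h
  exact h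

/-- If the missing edges cover, there is no copy of `Q_d`. -/
lemma free_of_wcov {n d : ℕ} {G : SimpleGraph (Fin n → Bool)} (hG : G ≤ cubeG n)
    (h : WCov d 1 (miss G)) : (cubeG d).Free G := by
  rintro ⟨φ⟩
  obtain ⟨τ, hτi, hτ⟩ := exists_tau hG φ φ.injective (fun x y hxy => φ.toHom.map_rel hxy)
  classical
  set f0 : Fin n → Bool := φ (fun _ => false) with hf0
  set x : W n := fun k => if k ∈ univ.image τ then none else some (f0 k) with hx
  have hxs : (stars x).card = d := by
    have : stars x = univ.image τ := by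
      ext k
      rw [mem_stars, hx]
      by_cases h : k ∈ univ.image τ
      · simp only [h, if_true]
      · simp only [h, if_false]
        simp
    rw [this, card_image_of_injective _ hτi, card_univ, Fintype.card_fin]
  obtain ⟨w, hw, hwx⟩ := h.2 x hxs
  rw [mem_miss] at hw
  obtain ⟨k, hk⟩ := one_star hw.1
  -- k = τ i
  have hkx : k ∈ stars x := stars_subset hwx (by rw [hk]; exact mem_singleton_self k)
  have hkτ : ∃ i, τ i = k := by
    rw [mem_stars, hx] at hkx
    by_contra hcon
    have : k ∉ univ.image τ := by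
      intro h'
      obtain ⟨i, _, hi⟩ := mem_image.mp h'
      exact hcon ⟨i, hi⟩
    simp [this] at hkx
  obtain ⟨i, rfl⟩ := hkτ
  -- values of φ
  have hval : ∀ u : Fin d → Bool, (∀ j, φ u (τ j) = xor (f0 (τ j)) (u j)) ∧
      ∀ k, k ∉ univ.image τ → φ u k = f0 k := by
    refine flip_induction (P := fun u => (∀ j, φ u (τ j) = xor (f0 (τ j)) (u j)) ∧
      ∀ k, k ∉ univ.image τ → φ u k = f0 k) ⟨fun j => by simp [hf0], fun k _ => rfl⟩ ?_
    rintro u a ⟨hu1, hu2⟩
    have hτu : φ (flip u a) = flip (φ u) (τ a) := hτ u a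
    constructor
    · intro j
      rw [hτu]
      by_cases hj : j = a
      · subst hj
        rw [flip_same, flip_same, hu1 j]
        cases f0 (τ j) <;> cases u j <;> rfl
      · rw [flip_ne _ (fun h => hj (hτi h)), flip_ne _ hj, hu1 j]
    · intro k hk
      rw [hτu, flip_ne, hu2 k hk]
      rintro rfl
      exact hk (mem_image_of_mem _ (mem_univ _))
  -- the end point p of the edge of w
  set p : Fin n → Bool := fill w (fun _ => false) with hp
  set u : Fin d → Bool := fun j => xor (f0 (τ j)) (p (τ j)) with hu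
  have hφu : φ u = p := by
    funext k
    by_cases hk' : k ∈ univ.image τ
    · obtain ⟨j, _, rfl⟩ := mem_image.mp hk'
      have huj : u j = xor (f0 (τ j)) (p (τ j)) := rfl
      rw [(hval u).1 j, huj]
      cases f0 (τ j) <;> cases p (τ j) <;> rfl
    · rw [(hval u).2 k hk']
      have h1 := hwx k
      have h2 : x k = some (f0 k) := by rw [hx]; simp only [hk', if_false]
      rw [h2] at h1
      rcases h1 with h1 | h1
      · exact absurd h1 (by simp)
      · rw [hp]
        unfold fill
        rw [h1]
        rfl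
  apply hw.2
  unfold ed
  rw [fill_flip hk, ← hp, SimpleGraph.mem_edgeSet]
  have h3 : flip p (τ i) = φ (flip u i) := by
    have : φ (flip u i) = flip (φ u) (τ i) := hτ u i
    rw [this, hφu]
  rw [h3, ← hφu]
  exact φ.toHom.map_rel (adj_iff.mpr ⟨i, rfl⟩)

/-- If there is no copy of `Q_d`, the missing edges cover. -/
lemma wcov_of_free {n d : ℕ} {G : SimpleGraph (Fin n → Bool)}
    (h : (cubeG d).Free G) : WCov d 1 (miss G) := by
  classical
  refine ⟨fun w hw => mem_words.mp (mem_miss.mp hw).1, fun x hx => ?_⟩
  by_contra hcon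
  push Not at hcon
  apply h
  have hall : ∀ w ∈ words n 1, Below w x → ed w ∈ G.edgeSet := by
    intro w hw hwx
    by_contra hne
    exact hcon w (mem_miss.mpr ⟨hw, hne⟩) hwx
  set e : Fin d ≃ {i // i ∈ stars x} := ((stars x).equivFinOfCardEq hx).symm with he
  set F : (Fin d → Bool) → (Fin n → Bool) := fun u k =>
    if hk : k ∈ stars x then u (e.symm ⟨k, hk⟩) else (x k).getD false with hF
  have hFe : ∀ u j, F u (e j) = u j := by
    intro u j
    have : ((e j : {i // i ∈ stars x}) : Fin n) ∈ stars x := (e j).2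
    rw [hF]
    simp only [this, dif_pos]
    congr 1
    rw [Equiv.symm_apply_eq]
  have hFo : ∀ u k, k ∉ stars x → F u k = (x k).getD false := by
    intro u k hk
    rw [hF]
    simp only [hk, dif_neg, not_false_eq_true]
  have hinj : Function.Injective F := by
    intro u u' huu
    funext j
    rw [← hFe u j, ← hFe u' j, huu]
  have hflip : ∀ u i, F (flip u i) = flip (F u) (e i) := by
    intro u i
    funext k
    by_cases hk : k = (e i : Fin n)
    · subst hk
      rw [hFe, flip_same, flip_same, hFe]
    · rw [flip_ne _ hk]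
      by_cases hks : k ∈ stars x
      · obtain ⟨j, hj⟩ : ∃ j, e j = ⟨k, hks⟩ := ⟨e.symm ⟨k, hks⟩, by simp⟩
        have hkj : k = (e j : Fin n) := by rw [hj]
        rw [hkj, hFe, hFe, flip_ne]
        rintro rfl
        exact hk hkj
      · rw [hFo _ _ hks, hFo _ _ hks]
  refine ⟨⟨⟨F, ?_⟩, hinj⟩⟩
  intro u v huv
  obtain ⟨i, rfl⟩ := adj_iff.mp huv
  rw [hflip]
  have h1 := hall (wd (F u) (e i)) (by rw [mem_words, stars_wd, card_singleton]) (by
    intro k
    by_cases hks : k ∈ stars x
    · left; exact mem_stars.mp hks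
    · right
      have hne : k ≠ (e i : Fin n) := by
        rintro rfl
        exact hks (e i).2
      unfold wd
      rw [if_neg hne, hFo _ _ hks]
      rcases hxk : x k with _ | b
      · exact absurd (mem_stars.mpr hxk) hks
      · rfl)
  rw [ed_wd, SimpleGraph.mem_edgeSet] at h1
  exact h1

/-- deleting the edges of a family of words -/
def del {n : ℕ} (S : Finset (W n)) : SimpleGraph (Fin n → Bool) :=
  (cubeG n).deleteEdges (ed '' (S : Set (W n)))

lemma miss_del {n : ℕ} {S : Finset (W n)} (hS : S ⊆ words n 1) : miss (del S) = S := by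
  ext w
  rw [mem_miss]
  unfold del
  rw [SimpleGraph.edgeSet_deleteEdges]
  constructor
  · rintro ⟨hw, h⟩
    by_contra hne
    apply h
    refine ⟨ed_mem hw, ?_⟩
    rintro ⟨w', hw', he⟩
    have := ed_injOn (hS hw') hw he
    subst this
    exact hne hw'
  · intro hw
    refine ⟨hS hw, ?_⟩
    rintro ⟨_, h⟩
    exact h ⟨w, hw, rfl⟩

lemma exCube_eq {n d : ℕ} (hd : 1 ≤ d) : exCube n d + f n d 1 = (words n 1).card := by
  obtain ⟨S, hS, hSc⟩ := exists_wcov_card_f (n := n) hd
  have hSw : S ⊆ words n 1 := fun w hw => mem_words.mpr (hS.1 w hw)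
  set A : Set ℕ := {m : ℕ | ∃ G : SimpleGraph (Fin n → Bool),
    G ≤ cubeG n ∧ (cubeG d).Free G ∧ G.edgeSet.ncard = m} with hA
  have hdel : del S ≤ cubeG n := SimpleGraph.deleteEdges_le _
  have hmem : (del S).edgeSet.ncard ∈ A := by
    refine ⟨del S, hdel, free_of_wcov hdel ?_, rfl⟩
    rw [miss_del hSw]
    exact hS
  have hcd := card_miss hdel
  rw [miss_del hSw, hSc] at hcd
  have hub : ∀ m ∈ A, m + f n d 1 ≤ (words n 1).card := by
    rintro m ⟨G, hG, hfree, rfl⟩
    have h1 := card_miss hG
    have h2 := f_le_card (wcov_of_free hfree)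
    omega
  have hbdd : BddAbove A := ⟨(words n 1).card, fun m hm => by have := hub m hm; omega⟩
  have h1 : (del S).edgeSet.ncard ≤ exCube n d := le_csSup hbdd hmem
  have h2 : exCube n d ∈ A := Nat.sSup_mem ⟨_, hmem⟩ hbdd
  have h3 := hub _ h2
  omega

end EdgeM

open EdgeM in
theorem specEdge : SpecEdge := by
  intro n d hd hdn
  have h1 := exCube_eq (n := n) (d := d) (by omega)
  have hw := card_words n 1
  have hpos : 0 < (words n 1).card := by
    rw [hw]
    have : 0 < n.choose 1 := by rw [Nat.choose_one_right]; omega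
    positivity
  have h2 : (exCube n d : ℝ) = ((words n 1).card : ℝ) - (f n d 1 : ℝ) := by
    have : ((exCube n d + f n d 1 : ℕ) : ℝ) = ((words n 1).card : ℝ) := by rw [h1]
    push_cast at this
    linarith
  have h3 : ((words n 1).card : ℝ) = 2 ^ (n - 1) * (n.choose 1 : ℝ) := by
    rw [hw]; push_cast; rfl
  unfold gam c
  rw [card_cube, h2, ← h3]
  have hne : ((words n 1).card : ℝ) ≠ 0 := by exact_mod_cast hpos.ne'
  field_simp

end MP7c0edd
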