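import Pool.Agent.Lib.MP_7c0edd_co.H26.Spec

/-!
# Version 2: one residue class of layers

The window of admissible `K` has `s` elements; only the layers in one residue class modulo `s` are
used, which saves the factor `s`.
-/

namespace MP7c0edd

open Finset Module Pool.Agent.Lib.MP_7c0edd_co.H21

/-- an error term -/
def qs (d s : ℕ) : ℕ := 2 ^ (s + 1) * (d + 1) ^ (4 * (Nat.log 2 (d + 1) + s) + 2)

def SpecPlotkin2 : Prop := ∀ (d s : ℕ) (C : Submodule (ZMod 2) (Fin d → ZMod 2)),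
  (∀ c ∈ C, c ≠ 0 → d + 1 ≤ 2 * (supp c).card + s) → 2 ^ finrank (ZMod 2) C ≤ 2 ^ s * (d + 1)

def SpecCore2 : Prop := ∀ (d K j s : ℕ) (C Y : Submodule (ZMod 2) (Fin d → ZMod 2)),
  K ≤ j → j ≤ d → 2 * K ≤ d + 1 + s →
  (∀ c ∈ C, c ≠ 0 → j + 1 ≤ (supp c).card) → (∀ c ∈ C, c ≠ 0 → d + 1 ≤ 2 * (supp c).card + s) →
  (∀ P : Finset (Fin d), P.card = K → Y ⊔ WP P = ⊤) →
  {P : Finset (Fin d) | P.card = j ∧ ∃ P' : Finset (Fin d), P'.card = j ∧ P' ≠ P ∧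
    Y ⊓ WP P ≤ (Y ⊓ WP P') ⊔ C}.ncard ≤ qs d s

def SpecDistinct2 : Prop := ∀ (d K l N Q s : ℕ)
  (φ : (Fin N → ZMod 2) →ₗ[ZMod 2] (Fin Q → ZMod 2))
  (u : Fin d → (Fin Q → ZMod 2)), K + l ≤ d → d ≤ 2 * K + 2 * l + 1 + s → 2 * K ≤ d + 1 + s →
  Cfg d K l N Q φ u →
  d.choose K * (d - K).choose l ≤ (state φ u '' (pairs d K l : Set _)).ncard
    + qs d s * ((d - K).choose l + (K + l).choose l)

/-- the density obtained in the layers used -/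
noncomputable def dens2 (d K₀ s l N b k M : ℕ) : ℝ :=
  (2 : ℝ) ^ l / 2 ^ b + 2 ^ b / 2 ^ N + 1 / (k : ℝ)
    + s * 2 ^ ((K₀ + s + b) * (d + N)) * (1 - 1 / (k : ℝ)) ^ M

def SpecLayer2 : Prop := ∀ (n d K₀ s l N b r k M : ℕ), K₀ + s + l ≤ d + 1 → N ≤ r + b → 1 ≤ k →
  (∀ K, K₀ ≤ K → K < K₀ + s → ∀ φ u, Cfg d K l N (K + b) φ u →
    M ≤ (state φ u '' (pairs d K l : Set _)).ncard) →
  dens2 d K₀ s l N b k M < 1 →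
  ∃ S ⊆ layer n l r, (∀ K, K₀ ≤ K → K < K₀ + s → ∀ x : W n, (stars x).card = d →
      (ones x).card + K = r → ∃ w ∈ S, Below w x) ∧
    (S.card : ℝ) ≤ dens2 d K₀ s l N b k M * (layer n l r).card

def SpecLimit2 : Prop := ∀ (d K₀ s l r₀ : ℕ) (δ : ℝ), l < d → 1 ≤ s → K₀ + s + l ≤ d + 1 →
  0 ≤ δ →
  (∀ n r, r₀ ≤ r → ∃ S ⊆ layer n l r, (∀ K, K₀ ≤ K → K < K₀ + s → ∀ x : W n,
      (stars x).card = d → (ones x).card + K = r → ∃ w ∈ S, Below w x) ∧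
    (S.card : ℝ) ≤ δ * (layer n l r).card) →
  cLim d l ≤ δ / s

def SpecUpper2 : Prop := ∀ (d K₀ s l N b k M : ℕ), l < d → 1 ≤ s → K₀ + s + l ≤ d + 1 →
  d ≤ 2 * K₀ + 2 * l + 1 + s → 2 * K₀ + s ≤ d + 3 → 1 ≤ k →
  (∀ K, K₀ ≤ K → K < K₀ + s →
    M + qs d s * ((d - K).choose l + (K + l).choose l) ≤ d.choose K * (d - K).choose l) →
  dens2 d K₀ s l N b k M < 1 →
  cLim d l ≤ dens2 d K₀ s l N b k M / s

def SpecBase2 : Prop := ∃ (C : ℝ) (t₀ : ℕ), ∀ t l : ℕ, t₀ ≤ t → l ≤ t ^ 2 →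
  cLim (l + t) l ≤ C * ((l : ℝ) + t) ^ 2 / KK t l

def SpecFinal2 : Prop :=
  (∃ C : ℝ, ∀ d l : ℕ, l < d →
    cLim d l ≤ C * (d : ℝ) ^ 2 / (2 ^ (d - l) * (d.choose l : ℝ))) ∧
  (∃ C : ℝ, ∀ d l : ℕ, l < d → (d - l) ^ 2 ≤ l →
    cLim d l ≤ C * (((d : ℝ) - l) * Real.log ((d : ℝ) - l + 1)) / (2 ^ (d - l) * (d.choose l : ℝ))) ∧
  (∃ C : ℝ, ∀ d l : ℕ, l < d →
    cLim d l ≤ C * ((d : ℝ) - l) ^ 4 / (2 ^ (d - l) * (d.choose l : ℝ)))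

end MP7c0edd
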