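import Pool.Agent.Lib.MP_7c0edd_co.H26.Defs

/-!
# Specifications of the modules

Each module `X` proves `theorem specX : SpecX` (it may take other Specs as hypotheses).
-/

namespace MP7c0edd

open Finset Module Pool.Agent.Lib.MP_7c0edd_co.H21

/-- PLOTKIN. Linear codes of relative distance more than `1/2` are small:
`(|C| - 1) (d + 1) ≤ 2 ∑ weights ≤ d |C|`. -/
def SpecPlotkin : Prop := ∀ (d : ℕ) (C : Submodule (ZMod 2) (Fin d → ZMod 2)),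
  (∀ c ∈ C, c ≠ 0 → d + 1 ≤ 2 * (supp c).card) → 2 ^ finrank (ZMod 2) C ≤ d + 1

/-- CORE. Few sets `P` of size `j` collide with another one. -/
def SpecCore : Prop := ∀ (d K j : ℕ) (C Y : Submodule (ZMod 2) (Fin d → ZMod 2)),
  K ≤ j → j ≤ d → 2 * K ≤ d + 1 →
  (∀ c ∈ C, c ≠ 0 → j + 1 ≤ (supp c).card) → (∀ c ∈ C, c ≠ 0 → d + 1 ≤ 2 * (supp c).card) →
  (∀ P : Finset (Fin d), P.card = K → Y ⊔ WP P = ⊤) →
  {P : Finset (Fin d) | P.card = j ∧ ∃ P' : Finset (Fin d), P'.card = j ∧ P' ≠ P ∧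
    Y ⊓ WP P ≤ (Y ⊓ WP P') ⊔ C}.ncard ≤ qq d

/-- DISTINCT. Each configuration has many states. -/
def SpecDistinct : Prop := ∀ (d K l N Q : ℕ) (φ : (Fin N → ZMod 2) →ₗ[ZMod 2] (Fin Q → ZMod 2))
  (u : Fin d → (Fin Q → ZMod 2)), 2 * K + l ≤ d → d ≤ 2 * K + l + 1 → Cfg d K l N Q φ u →
  d.choose K * (d - K).choose l ≤ (state φ u '' (pairs d K l : Set _)).ncard
    + qq d * ((d - K).choose l + (K + l).choose l)

/-- COVER. If `T` hits all configurations then the words which are exceptional or have state in `T`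
cover. -/
def SpecCover : Prop := ∀ (n d K l N m b : ℕ) (v : Fin n → EE N m) (T : Set (St N)) (x : W n),
  K + l ≤ d → (stars x).card = d → N + m = (ones x).card + K + b → Hits d K l N (K + b) T →
  ∃ w ∈ layer n l ((ones x).card + K), Below w x ∧ (Exc v w ∨ wstate v w ∈ T)

/-- EXC. The probability that a word is exceptional. -/
def SpecExc : Prop := ∀ (n l N m b r : ℕ) (w : W n), w ∈ layer n l r → N + m = r + b →
  (({v : Fin n → EE N m | Exc v w}.ncard : ℕ) : ℝ)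
    ≤ ((2 : ℝ) ^ l / 2 ^ b + 2 ^ b / 2 ^ N) * Fintype.card (Fin n → EE N m)

/-- SELECT. Choice of a labelling and of a set of states by averaging over
`Λ × (S → Fin k)`, `T = g⁻¹(0)`. -/
def SpecSelect : Prop := ∀ (Λ Ω S Γ : Type) [Fintype Λ] [Nonempty Λ] [Fintype Ω] [Nonempty Ω]
  [Finite S] [Fintype Γ] (ex : Λ → Ω → Prop) (st : Λ → Ω → S) (X : Γ → Set S) (ε : ℝ) (M k : ℕ),
  1 ≤ k → (∀ x, (({v | ex v x}.ncard : ℕ) : ℝ) ≤ ε * Fintype.card Λ) → (∀ γ, M ≤ (X γ).ncard) →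
  ε + 1 / (k : ℝ) + Fintype.card Γ * (1 - 1 / (k : ℝ)) ^ M < 1 →
  ∃ (v : Λ) (T : Set S), (∀ γ, (X γ ∩ T).Nonempty) ∧
    (({x | ex v x ∨ st v x ∈ T}.ncard : ℕ) : ℝ)
      ≤ (ε + 1 / (k : ℝ) + Fintype.card Γ * (1 - 1 / (k : ℝ)) ^ M) * Fintype.card Ω

/-- the density obtained -/
noncomputable def dens (d K l N b k M : ℕ) : ℝ :=
  (2 : ℝ) ^ l / 2 ^ b + 2 ^ b / 2 ^ N + 1 / (k : ℝ)
    + 2 ^ ((K + b) * (d + N)) * (1 - 1 / (k : ℝ)) ^ M

/-- LAYER. A covering family in one layer. -/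
def SpecLayer : Prop := ∀ (n d K l N b r k M : ℕ), K + l ≤ d → N ≤ r + b → 1 ≤ k →
  (∀ φ u, Cfg d K l N (K + b) φ u → M ≤ (state φ u '' (pairs d K l : Set _)).ncard) →
  dens d K l N b k M < 1 →
  ∃ S ⊆ layer n l r, (∀ x : W n, (stars x).card = d → (ones x).card + K = r →
      ∃ w ∈ S, Below w x) ∧
    (S.card : ℝ) ≤ dens d K l N b k M * (layer n l r).card

/-- LIMIT. From layers to the limiting density. -/
def SpecLimit : Prop := ∀ (d K l r₀ : ℕ) (δ : ℝ), l < d → K + l ≤ d → 0 ≤ δ →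
  (∀ n r, r₀ ≤ r → ∃ S ⊆ layer n l r, (∀ x : W n, (stars x).card = d → (ones x).card + K = r →
      ∃ w ∈ S, Below w x) ∧ (S.card : ℝ) ≤ δ * (layer n l r).card) →
  cLim d l ≤ δ

/-- UPPER. -/
def SpecUpper : Prop := ∀ (d K l N b k M : ℕ), l < d → 2 * K + l ≤ d → d ≤ 2 * K + l + 1 → 1 ≤ k →
  M + qq d * ((d - K).choose l + (K + l).choose l) ≤ d.choose K * (d - K).choose l →
  cLim d l ≤ dens d K l N b k M

/-- NUM (from UPPER). -/
def SpecBase : Prop := ∃ (C : ℝ) (t₀ : ℕ), ∀ t l : ℕ, t₀ ≤ t → l ≤ t ^ 2 →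
  cLim (l + t) l ≤ C * (((l : ℝ) + t) ^ 2 * Real.sqrt t) / KK t l

/-- GADGET. The gadget with labels in a large cyclic group and a random set of targets. -/
def SpecGadget : Prop := ∀ (k t M : ℕ) (P : ℝ), t ≤ k → 1 ≤ M →
  Real.exp (-(2 ^ t * (k.choose t : ℝ) / M)) < P → Gadget k t M P

/-- REC (from GADGET and helper21's `Good.step`). -/
def SpecRec : Prop := ∃ C : ℝ, ∀ t l : ℕ, 4 ≤ t → t ^ 2 ≤ l →
  cLim (l + t) l ≤ C * (t * Real.log (t + 1)) / KK t l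

/-- FINAL. -/
def SpecFinal : Prop :=
  (∃ C : ℝ, ∀ d l : ℕ, l < d →
    cLim d l ≤ C * ((d : ℝ) ^ 2 * Real.sqrt (d - l)) / (2 ^ (d - l) * (d.choose l : ℝ))) ∧
  (∃ C : ℝ, ∀ d l : ℕ, l < d → (d - l) ^ 2 ≤ l →
    cLim d l ≤ C * (((d : ℝ) - l) * Real.log ((d : ℝ) - l + 1)) / (2 ^ (d - l) * (d.choose l : ℝ))) ∧
  (∃ C : ℝ, ∀ d l : ℕ, l < d →
    cLim d l ≤ C * (((d : ℝ) - l) ^ 4 * Real.sqrt (d - l)) / (2 ^ (d - l) * (d.choose l : ℝ)))

/-! ### the edge version (MP_53850c_co) -/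

/-- The `n`-dimensional hypercube `Q_n`. -/
def cubeG (n : ℕ) : SimpleGraph (Fin n → Bool) where
  Adj x y := (Finset.univ.filter fun i => x i ≠ y i).card = 1
  symm := ⟨by
    intro x y h
    simpa only [ne_comm] using h⟩
  loopless := ⟨by
    intro x h
    simp at h⟩

/-- `ex(Q_n, Q_d)`. -/
noncomputable def exCube (n d : ℕ) : ℕ :=
  sSup {m : ℕ | ∃ G : SimpleGraph (Fin n → Bool),
    G ≤ cubeG n ∧ (cubeG d).Free G ∧ G.edgeSet.ncard = m}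

/-- `γ(n, d) = ex(Q_n, Q_d) / e(Q_n)`. -/
noncomputable def gam (n d : ℕ) : ℝ := (exCube n d : ℝ) / ((cubeG n).edgeSet.ncard : ℝ)

/-- EDGE. -/
def SpecEdge : Prop := ∀ n d : ℕ, 2 ≤ d → d ≤ n → gam n d = 1 - c n d 1

end MP7c0edd
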