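import Pool.Agent.Lib.MP_7c0edd_co.H26.Spec
import Pool.Agent.Lib.MP_7c0edd_co.H26.Edge
import Pool.Agent.Lib.MP_7c0edd_co.Poly.Rec
import Pool.Agent.Lib.MP_7c0edd_co.H26.Spec2

section
/-!
# LIMIT: from layers to the limiting density
-/
namespace MP7c0edd

open Finset Module Pool.Agent.Lib.MP_7c0edd_co.H21

namespace LimitM

theorem mem_layer {n l r : ℕ} {w : W n} :
    w ∈ layer n l r ↔ (stars w).card = l ∧ (ones w).card = r := by
  unfold layer
  rw [mem_filter, mem_words]

theorem disj {n : ℕ} (w : W n) : Disjoint (stars w) (ones w) := by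
  rw [disjoint_left]
  intro i hi hi'
  rw [mem_stars] at hi
  rw [mem_ones, hi] at hi'
  exact absurd hi' (by simp)

theorem card_add_le {n : ℕ} (w : W n) : (stars w).card + (ones w).card ≤ n := by
  rw [← card_union_of_disjoint (disj w)]
  exact (card_le_univ _).trans (by rw [Fintype.card_fin])

/-- below each word there is one with `l` stars and not more ones -/
theorem exists_below {n l : ℕ} (x : W n) (hl : l ≤ (stars x).card) :
    ∃ w, (stars w).card = l ∧ (ones w).card ≤ (ones x).card ∧ Below w x := by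
  obtain ⟨T, hT, hTl⟩ := exists_subset_card_eq hl
  refine ⟨fun i => if i ∈ T then none else some ((x i).getD false), ?_, ?_, ?_⟩
  · rw [← hTl]
    congr 1
    ext i
    rw [mem_stars]
    by_cases h : i ∈ T <;> simp [h]
  · refine card_le_card fun i hi => ?_
    rw [mem_ones] at hi ⊢
    by_cases h : i ∈ T
    · simp [h] at hi
    · simp only [h, if_false, Option.some.injEq] at hi
      rcases hx : x i with _ | b
      · rw [hx] at hi
        simp at hi
      · rw [hx] at hi
        simp only [Option.getD_some] at hi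
        rw [hi]
  · intro i
    rcases hx' : x i with _ | b
    · exact Or.inl rfl
    · right
      have : i ∉ T := fun hi => by
        have := hT hi
        rw [mem_stars, hx'] at this
        exact absurd this (by simp)
      simp [this, hx']

theorem sum_layers (n l r₀ : ℕ) :
    ∑ r ∈ (range (n + 1)).filter (fun r => r₀ ≤ r), (layer n l r).card ≤ (words n l).card := by
  classical
  have h1 : (words n l).card = ∑ r ∈ range (n + 1), ((words n l).filter
      fun w => (ones w).card = r).card := by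
    refine card_eq_sum_card_fiberwise (f := fun w => (ones w).card) fun w _ => ?_
    rw [mem_coe, mem_range]
    have := card_add_le w
    change (ones w).card < n + 1
    omega
  rw [h1]
  exact sum_le_sum_of_subset (filter_subset _ _)

end LimitM

theorem specLimit : SpecLimit := by
  classical
  intro d K l r₀ δ hl hK hδ h
  have h1 := tendsto_c (d := d) (l := l) hl.le
  have h2 : Filter.Tendsto (fun n : ℕ => δ + r₀ * 2 ^ l * ((n : ℝ) ^ r₀ / 2 ^ n))
      Filter.atTop (nhds δ) := by
    have h3 : Filter.Tendsto (fun n : ℕ => (n : ℝ) ^ r₀ / 2 ^ n) Filter.atTop (nhds 0) :=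
      tendsto_pow_const_div_const_pow_of_one_lt r₀ (by norm_num)
    have h4 := (h3.const_mul ((r₀ : ℝ) * 2 ^ l)).const_add δ
    simpa using h4
  refine le_of_tendsto_of_tendsto h1 h2 ?_
  filter_upwards [Filter.eventually_ge_atTop (l + 1)] with n hn
  choose! S hSs hSc hSn using fun r (hr : r₀ ≤ r) => h n r hr
  set T : Finset (W n) := ((range (n + 1)).filter fun r => r₀ ≤ r).biUnion S ∪
    (words n l).filter fun w => (ones w).card < r₀ with hT
  have hcov : WCov d l T := by
    constructor
    · intro w hw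
      rw [hT, mem_union, mem_biUnion] at hw
      rcases hw with ⟨r, hr, hw⟩ | hw
      · exact (LimitM.mem_layer.1 (hSs r (mem_filter.1 hr).2 hw)).1
      · exact mem_words.1 (mem_filter.1 hw).1
    · intro x hx
      by_cases hr : r₀ ≤ (ones x).card + K
      · obtain ⟨w, hw, hwx⟩ := hSc _ hr x hx rfl
        refine ⟨w, ?_, hwx⟩
        rw [hT, mem_union, mem_biUnion]
        left
        refine ⟨_, ?_, hw⟩
        rw [mem_filter, mem_range]
        have := LimitM.card_add_le x
        exact ⟨by omega, hr⟩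
      · obtain ⟨w, hw, hw2, hwx⟩ := LimitM.exists_below x (l := l) (by omega)
        refine ⟨w, ?_, hwx⟩
        rw [hT, mem_union, mem_filter, mem_words]
        right
        exact ⟨hw, by omega⟩
  have h5 := f_le_card hcov
  have h6 := card_small_ones n l r₀ (by omega)
  have h7 : (T.card : ℝ) ≤ δ * (words n l).card + n.choose l * (r₀ * (n : ℝ) ^ r₀) := by
    have h8 : T.card ≤ (∑ r ∈ (range (n + 1)).filter (fun r => r₀ ≤ r), (S r).card) +
        n.choose l * (r₀ * n ^ r₀) :=
      (card_union_le _ _).trans (Nat.add_le_add card_biUnion_le h6)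
    have h9 : ∑ r ∈ (range (n + 1)).filter (fun r => r₀ ≤ r), ((S r).card : ℝ)
        ≤ δ * (words n l).card := by
      calc ∑ r ∈ (range (n + 1)).filter (fun r => r₀ ≤ r), ((S r).card : ℝ)
          ≤ ∑ r ∈ (range (n + 1)).filter (fun r => r₀ ≤ r), δ * (layer n l r).card :=
            sum_le_sum fun r hr => hSn r (mem_filter.1 hr).2
        _ = δ * ((∑ r ∈ (range (n + 1)).filter (fun r => r₀ ≤ r), (layer n l r).card : ℕ) : ℝ) := by
            push_cast
            rw [mul_sum]
        _ ≤ _ := by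
            gcongr
            exact LimitM.sum_layers n l r₀
    calc (T.card : ℝ) ≤ ((∑ r ∈ (range (n + 1)).filter (fun r => r₀ ≤ r), (S r).card) +
          n.choose l * (r₀ * n ^ r₀) : ℕ) := by exact_mod_cast h8
      _ = (∑ r ∈ (range (n + 1)).filter (fun r => r₀ ≤ r), ((S r).card : ℝ)) +
          n.choose l * (r₀ * (n : ℝ) ^ r₀) := by push_cast; rfl
      _ ≤ _ := by gcongr
  rw [card_words] at h7
  push_cast at h7
  have hp : (0 : ℝ) < n.choose l := by exact_mod_cast Nat.choose_pos (by omega)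
  have hpow : (2 : ℝ) ^ n = 2 ^ l * 2 ^ (n - l) := by rw [← pow_add]; congr 1; omega
  have h5' : (f n d l : ℝ) ≤ T.card := by exact_mod_cast h5
  unfold c
  rw [div_le_iff₀ (by positivity)]
  refine (h5'.trans h7).trans (le_of_eq ?_)
  rw [hpow]
  field_simp

end MP7c0edd
end

section
/-!
# COVER: exceptional words and words with state in `T` cover
-/
namespace MP7c0edd

open Finset Module Pool.Agent.Lib.MP_7c0edd_co.H21

namespace CoverM

variable {n : ℕ}

/-- the word of a pair of sets of stars of `x` -/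
def wd (x : W n) (P F : Finset (Fin n)) : W n := fun i =>
  if i ∈ P then some true else if i ∈ F then none else some ((x i).getD false)

theorem stars_wd {x : W n} {P F : Finset (Fin n)} (h : Disjoint P F) : stars (wd x P F) = F := by
  ext i
  rw [mem_stars]
  unfold wd
  by_cases hP : i ∈ P
  · have hF : i ∉ F := disjoint_left.1 h hP
    simp [hP, hF]
  · by_cases hF : i ∈ F <;> simp [hP, hF]

theorem ones_wd {x : W n} {P F : Finset (Fin n)} (hF : F ⊆ stars x) :
    ones (wd x P F) = ones x ∪ P := by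
  ext i
  rw [mem_union, mem_ones, mem_ones]
  unfold wd
  by_cases hP : i ∈ P
  · simp [hP]
  · by_cases hF' : i ∈ F
    · have := mem_stars.1 (hF hF')
      simp [hP, hF', this]
    · rcases hx : x i with _ | b
      · simp [hP, hF']
      · simp [hP, hF']

theorem below_wd {x : W n} {P F : Finset (Fin n)} (hP : P ⊆ stars x) (hF : F ⊆ stars x) :
    Below (wd x P F) x := by
  intro i
  rcases hx : x i with _ | b
  · exact Or.inl rfl
  · right
    have h1 : i ∉ P := fun h => by
      have := mem_stars.1 (hP h)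
      rw [hx] at this
      exact absurd this (by simp)
    have h2 : i ∉ F := fun h => by
      have := mem_stars.1 (hF h)
      rw [hx] at this
      exact absurd this (by simp)
    simp [wd, h1, h2, hx]

theorem layer_wd {x : W n} {P F : Finset (Fin n)} {K l : ℕ} (hP : P ⊆ stars x)
    (hF : F ⊆ stars x) (h : Disjoint P F) (hPc : P.card = K) (hFc : F.card = l) :
    wd x P F ∈ layer n l ((ones x).card + K) := by
  rw [LimitM.mem_layer, stars_wd h, ones_wd hF]
  refine ⟨hFc, ?_⟩
  rw [card_union_of_disjoint, hPc]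
  exact disjoint_of_subset_right hP (LimitM.disj x).symm

end CoverM

open CoverM in
theorem specCover : SpecCover := by
  classical
  intro n d K l N m b v T x hK hx hN hT
  by_contra hcon
  push Not at hcon
  set A := ones x with hA
  set e : Fin d ↪ Fin n := ((stars x).orderEmbOfFin hx).toEmbedding with hedef
  have he : ∀ i, e i ∈ stars x := (stars x).orderEmbOfFin_mem hx
  have hsub : ∀ P : Finset (Fin d), P.map e ⊆ stars x := by
    intro P i hi
    rw [mem_map] at hi
    obtain ⟨j, _, rfl⟩ := hi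
    exact he j
  have hw : ∀ P F : Finset (Fin d), Disjoint P F → P.card = K → F.card = l →
      LinearIndepOn (ZMod 2) v ((A ∪ (P ∪ F).map e : Finset (Fin n)) : Set (Fin n)) ∧
      sp (fun i => (v i).2) (A ∪ P.map e) = ⊤ ∧ wstate v (wd x (P.map e) (F.map e)) ∉ T := by
    intro P F hPF hP hF
    have hd : Disjoint (P.map e) (F.map e) := (disjoint_map e).2 hPF
    have h1 := hcon _ (layer_wd (hsub P) (hsub F) hd (by rw [card_map, hP]) (by rw [card_map, hF]))
      (below_wd (hsub P) (hsub F))
    obtain ⟨h2, h3⟩ := h1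
    unfold Exc at h2
    push Not at h2
    rw [ones_wd (hsub F), stars_wd hd, union_assoc, ← map_union] at h2
    exact ⟨h2.1, h2.2, h3⟩
  have hexF : ∀ P : Finset (Fin d), P.card = K → ∃ F : Finset (Fin d), Disjoint P F ∧
      F.card = l := by
    intro P hP
    obtain ⟨F, hF, hFc⟩ := exists_subset_card_eq (show l ≤ (univ \ P : Finset (Fin d)).card by
      rw [card_sdiff_of_subset (subset_univ _), card_univ, Fintype.card_fin, hP]
      omega)
    refine ⟨F, ?_, hFc⟩
    rw [disjoint_left]
    intro i hi hi'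
    exact (mem_sdiff.1 (hF hi')).2 hi
  obtain ⟨P₀, -, hP₀⟩ := exists_subset_card_eq (show K ≤ (univ : Finset (Fin d)).card by
    rw [card_univ, Fintype.card_fin]
    omega)
  obtain ⟨F₀, hPF₀, hF₀⟩ := hexF P₀ hP₀
  have hindA : LinearIndepOn (ZMod 2) v (A : Set (Fin n)) :=
    (hw P₀ F₀ hPF₀ hP₀ hF₀).1.mono (by
      rw [coe_union]
      exact Set.subset_union_left)
  set VA := sp v A with hVA
  have hfin : finrank (ZMod 2) VA = A.card := by
    have h1 := finrank_span_eq_card (R := ZMod 2) (b := fun i : (A : Set (Fin n)) => v i) hindA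
    rw [hVA]
    unfold sp
    rw [Set.image_eq_range]
    rw [h1]
    simp
  have hquot : finrank (ZMod 2) (EE N m ⧸ VA) = finrank (ZMod 2) (Fin (K + b) → ZMod 2) := by
    have h1 := Submodule.finrank_quotient_add_finrank VA
    rw [hfin, Module.finrank_prod, finrank_fin_fun, finrank_fin_fun] at h1
    rw [finrank_fin_fun]
    omega
  set E := LinearEquiv.ofFinrankEq _ _ hquot with hE
  set π : EE N m →ₗ[ZMod 2] (Fin (K + b) → ZMod 2) := E.toLinearMap ∘ₗ VA.mkQ with hπ
  have hker : LinearMap.ker π = VA := by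
    rw [hπ, LinearEquiv.ker_comp, Submodule.ker_mkQ]
  have hsurj : Function.Surjective π := E.surjective.comp (Submodule.mkQ_surjective VA)
  set u : Fin d → (Fin (K + b) → ZMod 2) := fun i => π (v (e i)) with hu
  set φ : (Fin N → ZMod 2) →ₗ[ZMod 2] (Fin (K + b) → ZMod 2) := π ∘ₗ LinearMap.inl _ _ _ with hφ
  -- the span upstairs
  have hmap : ∀ P : Finset (Fin d), Submodule.map π (sp v (A ∪ P.map e)) = sp u P := by
    intro P
    unfold sp
    rw [Submodule.map_span, coe_union, Set.image_union, Set.image_union, Submodule.span_union]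
    have h1 : Submodule.span (ZMod 2) (π '' (v '' (A : Set (Fin n)))) = ⊥ := by
      rw [← Submodule.map_span]
      change Submodule.map π VA = ⊥
      rw [← hker, Submodule.eq_bot_iff]
      rintro _ ⟨y, hy, rfl⟩
      exact hy
    rw [h1, bot_sup_eq]
    congr 1
    rw [coe_map, ← Set.image_comp, ← Set.image_comp]
    rfl
  have hle : ∀ P : Finset (Fin d), VA ≤ sp v (A ∪ P.map e) := by
    intro P
    refine Submodule.span_mono (Set.image_mono ?_)
    rw [coe_union]
    exact Set.subset_union_left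
  have hcomap : ∀ P : Finset (Fin d), Submodule.comap π (sp u P) = sp v (A ∪ P.map e) := by
    intro P
    rw [← hmap, Submodule.comap_map_eq, hker, sup_eq_left]
    exact hle P
  have hcfg : Cfg d K l N (K + b) φ u := by
    constructor
    · intro P hP
      obtain ⟨P₁, hP₁, hP₁c⟩ := exists_subset_card_eq (show K ≤ P.card by omega)
      have h1 := (hw P₁ (P \ P₁) disjoint_sdiff hP₁c (by
        rw [card_sdiff_of_subset hP₁]
        omega)).1
      rw [union_sdiff_of_subset hP₁] at h1
      have hd : Disjoint (A : Set (Fin n)) ((P.map e : Finset (Fin n)) : Set (Fin n)) := by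
        rw [disjoint_coe]
        exact disjoint_of_subset_right (hsub P) (LimitM.disj x).symm
      rw [coe_union, linearIndepOn_union_iff hd] at h1
      have h2 : LinearIndepOn (ZMod 2) (fun i => v (e i)) (P : Set (Fin d)) := by
        have h3 := h1.2.1
        rw [coe_map] at h3
        exact h3.comp_of_image (e.injective.injOn)
      have h4 : Disjoint (Submodule.span (ZMod 2) ((fun i => v (e i)) '' (P : Set (Fin d))))
          (LinearMap.ker π) := by
        rw [hker]
        have h5 := h1.2.2.symm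
        rw [coe_map, ← Set.image_comp] at h5
        exact h5
      exact LinearIndepOn.map_injOn h2 π (LinearMap.injOn_of_disjoint_ker le_rfl h4)
    · intro P hP
      obtain ⟨F, hF, hFc⟩ := hexF P hP
      have h1 := (hw P F hF hP hFc).2.1
      have h2 : LinearMap.range (LinearMap.inl (ZMod 2) (Fin N → ZMod 2) (Fin m → ZMod 2)) ⊔
          sp v (A ∪ P.map e) = ⊤ := by
        rw [eq_top_iff]
        rintro ⟨y, z⟩ -
        have h3 : z ∈ Submodule.map (LinearMap.snd (ZMod 2) (Fin N → ZMod 2) (Fin m → ZMod 2))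
            (sp v (A ∪ P.map e)) := by
          have h4 : Submodule.map (LinearMap.snd (ZMod 2) (Fin N → ZMod 2) (Fin m → ZMod 2))
            (sp v (A ∪ P.map e)) = sp (fun i => (v i).2) (A ∪ P.map e) := by
            unfold sp
            rw [Submodule.map_span, ← Set.image_comp]
            rfl
          rw [h4, h1]
          exact Submodule.mem_top
        obtain ⟨s, hs, hsz⟩ := h3
        have h5 : ((y, z) : EE N m) = LinearMap.inl (ZMod 2) (Fin N → ZMod 2) (Fin m → ZMod 2)
            (y - s.1) + s := by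
          have : s.2 = z := hsz
          refine Prod.ext ?_ ?_
          · simp
          · simp [this]
        rw [h5]
        exact Submodule.add_mem_sup (LinearMap.mem_range_self _ _) hs
      have h3 := congrArg (Submodule.map π) h2
      rw [Submodule.map_sup, hmap, Submodule.map_top, LinearMap.range_eq_top.2 hsurj,
        ← LinearMap.range_comp] at h3
      exact h3
  obtain ⟨p, hp, hpT⟩ := hT φ u hcfg
  unfold pairs at hp
  rw [mem_filter, mem_product, mem_powersetCard, mem_powersetCard] at hp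
  obtain ⟨⟨⟨-, hp1⟩, -, hp2⟩, hpd⟩ := hp
  apply (hw p.1 p.2 hpd hp1 hp2).2.2
  have hd : Disjoint (p.1.map e) (p.2.map e) := (disjoint_map e).2 hpd
  have h1 : wstate v (wd x (p.1.map e) (p.2.map e)) = state φ u p := by
    unfold wstate state
    rw [ones_wd (hsub _), stars_wd hd, union_assoc, ← map_union, ← hcomap, ← hcomap]
    rfl
  rw [h1]
  exact hpT

end MP7c0edd
end

section
/-!
# CORE: few sets collide
-/
namespace MP7c0edd

open Finset Module Pool.Agent.Lib.MP_7c0edd_co.H21

lemma mem_WP {d : ℕ} {P : Finset (Fin d)} {c : Fin d → ZMod 2} :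
    c ∈ WP P ↔ ∀ i, i ∉ P → c i = 0 := Iff.rfl

lemma mem_supp {d : ℕ} {c : Fin d → ZMod 2} {i : Fin d} : i ∈ supp c ↔ c i ≠ 0 := by
  simp [supp]

lemma finrank_WP {d : ℕ} (P : Finset (Fin d)) : finrank (ZMod 2) (WP P) = P.card := by
  classical
  let e : WP P ≃ₗ[ZMod 2] ({i // i ∈ P} → ZMod 2) :=
    { toFun := fun c i => c.1 i.1
      map_add' := fun a b => rfl
      map_smul' := fun a b => rfl
      invFun := fun g => ⟨fun i => if h : i ∈ P then g ⟨i, h⟩ else 0, fun i hi => by simp [hi]⟩
      left_inv := by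
        intro c
        ext i
        by_cases hi : i ∈ P
        · simp [hi]
        · simp [hi, mem_WP.mp c.2 i hi]
      right_inv := by
        intro g
        ext i
        simp [i.2] }
  rw [e.finrank_eq, finrank_fintype_fun_eq_card, Fintype.card_coe]

lemma single_mem_WP {d : ℕ} {P : Finset (Fin d)} {i : Fin d} (hi : i ∈ P) :
    (Pi.single i 1 : Fin d → ZMod 2) ∈ WP P := by
  intro m hm
  rw [Pi.single_eq_of_ne]
  rintro rfl
  exact hm hi

lemma WP_eq_span {d : ℕ} (P : Finset (Fin d)) (p : Submodule (ZMod 2) (Fin d → ZMod 2))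
    (h : ∀ i ∈ P, (Pi.single i 1 : Fin d → ZMod 2) ∈ p) : WP P ≤ p := by
  intro c hc
  have : c = ∑ i, Pi.single i (c i) := (Finset.univ_sum_single c).symm
  rw [this]
  refine Submodule.sum_mem _ fun i _ => ?_
  by_cases hi : i ∈ P
  · have : (Pi.single i (c i) : Fin d → ZMod 2) = c i • Pi.single i 1 := by
      rw [← Pi.single_smul, smul_eq_mul, mul_one]
    rw [this]
    exact p.smul_mem _ (h i hi)
  · rw [mem_WP.mp hc i hi, Pi.single_zero]
    exact p.zero_mem

lemma card_small {d s : ℕ} :
    ((univ : Finset (Finset (Fin d))).filter fun E => E.card ≤ s).card ≤ (d + 1) ^ s := by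
  classical
  have h : (univ : Finset (Fin s → Option (Fin d))).card = (d + 1) ^ s := by
    rw [card_univ, Fintype.card_fun, Fintype.card_option, Fintype.card_fin, Fintype.card_fin]
  rw [← h]
  refine card_le_card_of_surjOn (fun f => univ.filter fun i => ∃ j, f j = some i) ?_
  intro E hE
  rw [mem_coe, mem_filter] at hE
  refine ⟨fun j => E.toList[(j : ℕ)]?, mem_coe.mpr (mem_univ _), ?_⟩
  ext i
  simp only [mem_filter, mem_univ, true_and]
  rw [← mem_toList, List.mem_iff_getElem?]
  constructor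
  · rintro ⟨j, hj⟩
    exact ⟨j, hj⟩
  · rintro ⟨j, hj⟩
    have hj' : j < E.toList.length := by
      by_contra hcon
      rw [List.getElem?_eq_none (by omega)] at hj
      simp at hj
    rw [length_toList] at hj'
    exact ⟨⟨j, by omega⟩, hj⟩

theorem specCore (hPl : SpecPlotkin) : SpecCore := by
  classical
  intro d K j C Y hKj hjd hK hCj hC2 hgen
  set lam := Nat.log 2 (d + 1) with hlam
  let Dl := Module.Dual (ZMod 2) (Fin d → ZMod 2)
  let Ann : Submodule (ZMod 2) Dl := Y.dualAnnihilator
  let ev : Dl →ₗ[ZMod 2] (Fin d → ZMod 2) :=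
    { toFun := fun k i => k (Pi.single i 1)
      map_add' := fun a b => rfl
      map_smul' := fun a b => rfl }
  have hev_apply : ∀ (k : Dl) i, ev k i = k (Pi.single i 1) := fun k i => rfl
  have hev : Function.Injective ev := by
    intro k k' h
    refine LinearMap.pi_ext' fun i => ?_
    ext
    have := congrFun h i
    simpa [hev_apply] using this
  let Z : Dl → Finset (Fin d) := fun k => univ.filter fun i => k (Pi.single i 1) = 0
  have hmemZ : ∀ k i, i ∈ Z k ↔ k (Pi.single i 1) = 0 := fun k i => by simp [Z]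
  have hZ : ∀ k ∈ Ann, k ≠ 0 → (Z k).card < K := by
    intro k hk hk0
    by_contra hcon
    push Not at hcon
    obtain ⟨P, hP, hPc⟩ := exists_subset_card_eq hcon
    apply hk0
    have h1 : Y ⊔ WP P ≤ LinearMap.ker k := by
      refine sup_le ?_ ?_
      · intro y hy
        rw [LinearMap.mem_ker]
        exact (Submodule.mem_dualAnnihilator k).mp hk y hy
      · refine WP_eq_span P _ fun i hi => ?_
        rw [LinearMap.mem_ker]
        exact (hmemZ k i).mp (hP hi)
    rw [hgen P hPc, top_le_iff] at h1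
    exact LinearMap.ker_eq_top.mp h1
  have hsuppev : ∀ k, (supp (ev k)).card + (Z k).card = d := by
    intro k
    have : supp (ev k) = (Z k)ᶜ := by
      ext i
      rw [mem_supp, mem_compl, hmemZ, hev_apply]
    rw [this, card_compl, Fintype.card_fin]
    have := card_le_univ (Z k)
    rw [Fintype.card_fin] at this
    omega
  have hAnn : 2 ^ finrank (ZMod 2) Ann ≤ d + 1 := by
    have h1 := hPl d (Ann.map ev) (by
      intro c hc hc0
      obtain ⟨k, hk, rfl⟩ := Submodule.mem_map.mp hc
      have hk0 : k ≠ 0 := by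
        rintro rfl
        exact hc0 (map_zero _)
      have := hZ k hk hk0
      have := hsuppev k
      omega)
    rwa [← (Submodule.equivMapOfInjective ev hev Ann).finrank_eq] at h1
  have hCard : 2 ^ finrank (ZMod 2) C ≤ d + 1 := hPl d C hC2
  have hfin : finrank (ZMod 2) Y + finrank (ZMod 2) Ann = d := by
    have := Subspace.finrank_add_finrank_dualAnnihilator_eq (K := ZMod 2) Y
    rw [finrank_fintype_fun_eq_card, Fintype.card_fin] at this
    exact this
  have hlog : ∀ x : ℕ, 2 ^ x ≤ d + 1 → x ≤ lam := fun x hx =>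
    Nat.le_log_of_pow_le (by norm_num) hx
  have hh := hlog _ hAnn
  have hk' := hlog _ hCard
  have : Finite Dl := Finite.of_injective (fun k => ev k) hev
  have : Fintype Ann := Fintype.ofFinite _
  -- the two covering families
  let S1 : Finset (Finset (Fin d)) :=
    ((univ : Finset Ann) ×ˢ (univ : Finset (Fin d))).image fun q => insert q.2 (Z q.1)
  let S2 : Finset (Finset (Fin d)) :=
    ((univ : Finset C) ×ˢ ((univ : Finset (Finset (Fin d))).filter fun E => E.card ≤ 4 * lam)).image
      fun q => symmDiff q.2 (supp q.1.1)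
  have hS1 : S1.card ≤ (d + 1) * (d + 1) := by
    refine card_image_le.trans ?_
    rw [card_product, card_univ, card_univ, Fintype.card_fin, Module.card_eq_pow_finrank (K := ZMod 2),
      ZMod.card]
    exact Nat.mul_le_mul hAnn (by omega)
  have hS2 : S2.card ≤ (d + 1) * (d + 1) ^ (4 * lam) := by
    refine card_image_le.trans ?_
    rw [card_product, card_univ, Module.card_eq_pow_finrank (K := ZMod 2), ZMod.card]
    exact Nat.mul_le_mul hCard card_small
  have hsub : {P : Finset (Fin d) | P.card = j ∧ ∃ P' : Finset (Fin d), P'.card = j ∧ P' ≠ P ∧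
    Y ⊓ WP P ≤ (Y ⊓ WP P') ⊔ C} ⊆ ((S1 ∪ S2 : Finset (Finset (Fin d))) : Set (Finset (Fin d))) := by
    rintro P ⟨hPj, P', hP'j, hne, hle⟩
    rw [mem_coe, mem_union]
    by_cases hcase : Y ⊓ WP P ≤ WP P'
    · -- Case 1
      left
      obtain ⟨i, hi, hi'⟩ : ∃ i ∈ P, i ∉ P' := by
        by_contra hcon
        push Not at hcon
        exact hne (eq_of_subset_of_card_le hcon (by omega)).symm
      have hnot : (Pi.single i 1 : Fin d → ZMod 2) ∉ Y ⊔ WP (P.erase i) := by
        intro hmem
        obtain ⟨y, hy, z, hz, hyz⟩ := Submodule.mem_sup.mp hmem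
        have hyP : y ∈ WP P := by
          have : y = Pi.single i 1 - z := by rw [← hyz]; abel
          rw [this]
          refine (WP P).sub_mem (single_mem_WP hi) ?_
          intro m hm
          exact hz m fun h => hm (mem_of_mem_erase h)
        have h1 : y i = 0 := hcase ⟨hy, hyP⟩ i hi'
        have h2 : z i = 0 := hz i (by simp)
        have h3 := congrFun hyz i
        rw [Pi.add_apply, h1, h2, Pi.single_eq_same, add_zero] at h3
        exact zero_ne_one h3
      obtain ⟨k, hk0, hkle⟩ := Submodule.exists_le_ker_of_notMem hnot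
      have hkAnn : k ∈ Ann := by
        refine (Submodule.mem_dualAnnihilator k).mpr fun y hy => ?_
        exact LinearMap.mem_ker.mp (hkle (Submodule.mem_sup_left hy))
      have hkne : k ≠ 0 := by
        rintro rfl
        exact hk0 rfl
      have hsubZ : P.erase i ⊆ Z k := by
        intro m hm
        rw [hmemZ]
        exact LinearMap.mem_ker.mp (hkle (Submodule.mem_sup_right (single_mem_WP hm)))
      have hcard := hZ k hkAnn hkne
      have heq : P.erase i = Z k := by
        refine eq_of_subset_of_card_le hsubZ ?_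
        rw [card_erase_of_mem hi]
        omega
      refine mem_image.mpr ⟨(⟨k, hkAnn⟩, i), mem_product.mpr ⟨mem_univ _, mem_univ _⟩, ?_⟩
      change insert i (Z k) = P
      rw [← heq, insert_erase hi]
    · -- Case 2
      right
      rw [SetLike.not_le_iff_exists] at hcase
      obtain ⟨y, hy, hyP'⟩ := hcase
      obtain ⟨y', hy', c, hc, hyc⟩ := Submodule.mem_sup.mp (hle hy)
      have hc0 : c ≠ 0 := by
        rintro rfl
        apply hyP'
        rw [← hyc, add_zero]
        exact hy'.2
      have hcs : supp c ⊆ P ∪ P' := by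
        intro i hi
        rw [mem_supp] at hi
        by_contra hcon
        rw [mem_union, not_or] at hcon
        apply hi
        have h1 := mem_WP.mp hy.2 i hcon.1
        have h2 := mem_WP.mp hy'.2 i hcon.2
        have h3 := congrFun hyc i
        rw [Pi.add_apply, h1, h2, zero_add] at h3
        exact h3
      have hcj := hCj c hc hc0
      -- dimension count
      set A := Y ⊓ WP P with hA
      set B := Y ⊓ WP P' with hB
      have e1 := Submodule.finrank_sup_add_finrank_inf_eq A B
      have e2 : finrank (ZMod 2) (A ⊔ B : Submodule _ _) ≤ finrank (ZMod 2) (B ⊔ C : Submodule _ _) :=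
        Submodule.finrank_mono (sup_le hle le_sup_left)
      have e3 := Submodule.finrank_sup_add_finrank_inf_eq B C
      have e4 := Submodule.finrank_sup_add_finrank_inf_eq Y (WP P)
      rw [← hA, finrank_WP, hPj] at e4
      have e5 : finrank (ZMod 2) (Y ⊔ WP P : Submodule _ _) ≤ d := by
        have := Submodule.finrank_le (Y ⊔ WP P)
        rwa [finrank_fintype_fun_eq_card, Fintype.card_fin] at this
      have e6 : finrank (ZMod 2) (A ⊓ B : Submodule _ _) ≤ (P ∩ P').card := by
        rw [← finrank_WP]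
        refine Submodule.finrank_mono ?_
        intro z hz i hi
        rw [mem_inter, not_and_or] at hi
        rcases hi with hi | hi
        · exact hz.1.2 i hi
        · exact hz.2.2 i hi
      have e7 : (P \ P').card + (P ∩ P').card = j := by
        rw [card_sdiff_add_card_inter, hPj]
      have e8 : (P' \ P).card + (P ∩ P').card = j := by
        rw [inter_comm, card_sdiff_add_card_inter, hP'j]
      have e9 : (P ∪ P').card = j + (P' \ P).card := by
        rw [← hPj, ← card_union_of_disjoint disjoint_sdiff, union_sdiff_self_eq_union]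
      have f1 : (supp c \ P).card ≤ (P' \ P).card := by
        refine card_le_card fun i hi => ?_
        rw [mem_sdiff] at hi ⊢
        rcases mem_union.mp (hcs hi.1) with h | h
        · exact absurd h hi.2
        · exact ⟨h, hi.2⟩
      have f2 : (P \ supp c).card + (supp c).card ≤ (P ∪ P').card := by
        rw [← card_union_of_disjoint sdiff_disjoint]
        refine card_le_card (union_subset (sdiff_subset.trans subset_union_left) hcs)
      have f3 : (symmDiff P (supp c)).card ≤ 4 * lam := by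
        rw [symmDiff_def, sup_eq_union, card_union_of_disjoint disjoint_sdiff_sdiff]
        omega
      refine mem_image.mpr ⟨(⟨c, hc⟩, symmDiff P (supp c)), mem_product.mpr ⟨mem_univ _, ?_⟩, ?_⟩
      · exact mem_filter.mpr ⟨mem_univ _, f3⟩
      · change symmDiff (symmDiff P (supp c)) (supp c) = P
        rw [symmDiff_symmDiff_cancel_right]
  refine (Set.ncard_le_ncard hsub (Finset.finite_toSet _)).trans ?_
  rw [Set.ncard_coe_finset]
  refine (card_union_le _ _).trans ((Nat.add_le_add hS1 hS2).trans ?_)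
  unfold qq
  rw [← hlam, two_mul]
  refine Nat.add_le_add ?_ ?_
  · rw [← pow_two]
    exact Nat.pow_le_pow_right (by omega) (by omega)
  · rw [mul_comm, ← pow_succ]
    exact Nat.pow_le_pow_right (by omega) (by omega)

end MP7c0edd
end

section
/-!
# DISTINCT: each configuration has many states
-/
namespace MP7c0edd

open Finset Module Pool.Agent.Lib.MP_7c0edd_co.H21

lemma mem_pairs {d K l : ℕ} {p : Finset (Fin d) × Finset (Fin d)} :
    p ∈ pairs d K l ↔ p.1.card = K ∧ p.2.card = l ∧ Disjoint p.1 p.2 := by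
  simp [pairs, mem_powersetCard, and_assoc]

/-- the number of pairs with given first component -/
lemma card_pairs_fst {d K l : ℕ} {P : Finset (Fin d)} (hP : P.card = K) :
    ((pairs d K l).filter fun p => p.1 = P).card = (d - K).choose l := by
  classical
  have h : ((pairs d K l).filter fun p => p.1 = P).card = (powersetCard l Pᶜ).card := by
    refine card_bij (fun p _ => p.2) ?_ ?_ ?_
    · intro p hp
      rw [mem_filter, mem_pairs] at hp
      rw [mem_powersetCard]
      refine ⟨?_, hp.1.2.1⟩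
      rw [subset_compl_iff_disjoint_left, ← hp.2]
      exact hp.1.2.2
    · rintro ⟨p1, p2⟩ hp ⟨q1, q2⟩ hq h
      rw [mem_filter] at hp hq
      simp only at hp hq h
      rw [h, hp.2, hq.2]
    · intro F hF
      rw [mem_powersetCard, subset_compl_iff_disjoint_left] at hF
      exact ⟨(P, F), by rw [mem_filter, mem_pairs]; exact ⟨⟨hP, hF.2, hF.1⟩, rfl⟩, rfl⟩
  rw [h, card_powersetCard, card_compl, Fintype.card_fin, hP]

/-- the number of pairs with given union -/
lemma card_pairs_union {d K l : ℕ} {R : Finset (Fin d)} (hR : R.card = K + l) :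
    ((pairs d K l).filter fun p => p.1 ∪ p.2 = R).card ≤ (K + l).choose l := by
  classical
  have h : ((pairs d K l).filter fun p => p.1 ∪ p.2 = R).card ≤ (powersetCard l R).card := by
    refine card_le_card_of_injOn (fun p => p.2) ?_ ?_
    · intro p hp
      rw [mem_coe, mem_filter, mem_pairs] at hp
      rw [mem_coe, mem_powersetCard]
      exact ⟨by rw [← hp.2]; exact subset_union_right, hp.1.2.1⟩
    · rintro ⟨p1, p2⟩ hp ⟨q1, q2⟩ hq h
      rw [mem_coe, mem_filter, mem_pairs] at hp hq
      simp only at hp hq h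
      subst h
      have e1 : p1 = R \ p2 := by
        rw [← hp.2, union_sdiff_right, sdiff_eq_self_of_disjoint hp.1.2.2]
      have e2 : q1 = R \ p2 := by
        rw [← hq.2, union_sdiff_right, sdiff_eq_self_of_disjoint hq.1.2.2]
      rw [e1, e2]
  rwa [card_powersetCard, hR] at h

lemma card_pairs {d K l : ℕ} : (pairs d K l).card = d.choose K * (d - K).choose l := by
  classical
  have h1 : (pairs d K l).card
      = ∑ P ∈ powersetCard K (univ : Finset (Fin d)), ((pairs d K l).filter fun p => p.1 = P).card := by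
    refine card_eq_sum_card_fiberwise fun p hp => ?_
    rw [mem_coe, mem_pairs] at hp
    rw [mem_coe, mem_powersetCard]
    exact ⟨subset_univ _, hp.1⟩
  rw [h1, sum_congr rfl fun P hP => card_pairs_fst (mem_powersetCard.mp hP).2, sum_const,
    card_powersetCard, card_univ, Fintype.card_fin, smul_eq_mul]

/-- the linear combination map -/
noncomputable def PhiMap {d Q : ℕ} (u : Fin d → (Fin Q → ZMod 2)) :
    (Fin d → ZMod 2) →ₗ[ZMod 2] (Fin Q → ZMod 2) := Fintype.linearCombination (ZMod 2) u

lemma PhiMap_apply {d Q : ℕ} (u : Fin d → (Fin Q → ZMod 2)) (c : Fin d → ZMod 2) :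
    PhiMap u c = ∑ i, c i • u i := rfl

lemma PhiMap_single {d Q : ℕ} (u : Fin d → (Fin Q → ZMod 2)) (i : Fin d) :
    PhiMap u (Pi.single i 1) = u i := by
  rw [PhiMap, Fintype.linearCombination_apply_single, one_smul]

lemma map_WP {d Q : ℕ} (u : Fin d → (Fin Q → ZMod 2)) (P : Finset (Fin d)) :
    (WP P).map (PhiMap u) = sp u P := by
  apply le_antisymm
  · rw [Submodule.map_le_iff_le_comap]
    refine WP_eq_span P _ fun i hi => ?_
    rw [Submodule.mem_comap, PhiMap_single]
    exact Submodule.subset_span ⟨i, hi, rfl⟩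
  · rw [sp, Submodule.span_le]
    rintro _ ⟨i, hi, rfl⟩
    exact ⟨Pi.single i 1, single_mem_WP hi, PhiMap_single u i⟩

lemma ind_zero {d Q : ℕ} {u : Fin d → (Fin Q → ZMod 2)} {P : Finset (Fin d)}
    (h : LinearIndepOn (ZMod 2) u (P : Set (Fin d))) {c : Fin d → ZMod 2} (hc : PhiMap u c = 0)
    (hs : supp c ⊆ P) : c = 0 := by
  classical
  have h1 : ∑ i ∈ P, c i • u i = 0 := by
    rw [← hc, PhiMap_apply]
    refine sum_subset (subset_univ _) fun i _ hi => ?_
    have : c i = 0 := by
      by_contra hcon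
      exact hi (hs (mem_supp.mpr hcon))
    rw [this, zero_smul]
  have h2 := linearIndepOn_finset_iff.mp h c h1
  funext i
  by_cases hi : i ∈ P
  · exact h2 i hi
  · by_contra hcon
    exact hi (hs (mem_supp.mpr hcon))

theorem specDistinct (hCore : SpecCore) : SpecDistinct := by
  classical
  intro d K l N Q φ u h1 h2 hcfg
  set C : Submodule (ZMod 2) (Fin d → ZMod 2) := LinearMap.ker (PhiMap u) with hC
  set Y : Submodule (ZMod 2) (Fin d → ZMod 2) := (LinearMap.range φ).comap (PhiMap u) with hY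
  have hCw : ∀ c ∈ C, c ≠ 0 → K + l + 1 ≤ (supp c).card := by
    intro c hc hc0
    by_contra hcon
    obtain ⟨P, hP, hPc⟩ := exists_superset_card_eq (s := supp c) (n := K + l) (by omega)
      (by rw [Fintype.card_fin]; omega)
    exact hc0 (ind_zero (hcfg.ind P hPc) (LinearMap.mem_ker.mp hc) hP)
  have hgen : ∀ P : Finset (Fin d), P.card = K → Y ⊔ WP P = ⊤ := by
    intro P hP
    rw [eq_top_iff]
    intro c _
    have hmem : PhiMap u c ∈ LinearMap.range φ ⊔ sp u P := by
      rw [hcfg.gen P hP]; trivial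
    obtain ⟨a, ha, b, hb, hab⟩ := Submodule.mem_sup.mp hmem
    rw [← map_WP] at hb
    obtain ⟨w, hw, rfl⟩ := Submodule.mem_map.mp hb
    refine Submodule.mem_sup.mpr ⟨c - w, ?_, w, hw, by abel⟩
    rw [hY, Submodule.mem_comap, map_sub, ← hab, add_sub_cancel_right]
    exact ha
  have hcoll : ∀ P P' : Finset (Fin d), Submodule.comap φ (sp u P) = Submodule.comap φ (sp u P') →
      Y ⊓ WP P ≤ (Y ⊓ WP P') ⊔ C := by
    intro P P' h y hy
    obtain ⟨z, hz⟩ : PhiMap u y ∈ LinearMap.range φ := hy.1
    have e1 : z ∈ Submodule.comap φ (sp u P) := by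
      rw [Submodule.mem_comap, hz, ← map_WP]
      exact Submodule.mem_map_of_mem hy.2
    rw [h, Submodule.mem_comap, ← map_WP] at e1
    obtain ⟨y', hy', hyy⟩ := Submodule.mem_map.mp e1
    refine Submodule.mem_sup.mpr ⟨y', ⟨?_, hy'⟩, y - y', ?_, by abel⟩
    · change PhiMap u y' ∈ LinearMap.range φ
      rw [hyy]
      exact ⟨z, rfl⟩
    · rw [hC, LinearMap.mem_ker, map_sub, hyy, hz, sub_self]
  let bad : ℕ → Finset (Finset (Fin d)) := fun j => univ.filter fun P => P.card = j ∧
    ∃ P' : Finset (Fin d), P'.card = j ∧ P' ≠ P ∧ Y ⊓ WP P ≤ (Y ⊓ WP P') ⊔ C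
  have hbad : ∀ j, K ≤ j → j ≤ K + l → (bad j).card ≤ qq d := by
    intro j hj hj'
    have := hCore d K j C Y hj (by omega) (by omega) (fun c hc hc0 => by have := hCw c hc hc0; omega)
      (fun c hc hc0 => by have := hCw c hc hc0; omega) hgen
    rw [← Set.ncard_coe_finset]
    simpa [bad] using this
  -- the good pairs
  set G := (pairs d K l).filter fun p => p.1 ∉ bad K ∧ p.1 ∪ p.2 ∉ bad (K + l) with hG
  have hGinj : G.card ≤ (state φ u '' (pairs d K l : Set _)).ncard := by
    rw [← Set.ncard_coe_finset G]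
    refine Set.ncard_le_ncard_of_injOn (state φ u) ?_ ?_ (Set.Finite.image _ (Finset.finite_toSet _))
    · intro p hp
      exact ⟨p, (mem_filter.mp hp).1, rfl⟩
    · intro p hp q hq hpq
      rw [mem_coe, hG, mem_filter, mem_pairs] at hp hq
      obtain ⟨e1, e2⟩ := Prod.mk.inj hpq
      have f1 : q.1 = p.1 := by
        by_contra hne
        exact hp.2.1 (mem_filter.mpr ⟨mem_univ _, hp.1.1, q.1, hq.1.1, hne, hcoll _ _ e1⟩)
      have f2 : q.1 ∪ q.2 = p.1 ∪ p.2 := by
        by_contra hne
        refine hp.2.2 (mem_filter.mpr ⟨mem_univ _, ?_, q.1 ∪ q.2, ?_, hne, hcoll _ _ e2⟩)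
        · rw [card_union_of_disjoint hp.1.2.2, hp.1.1, hp.1.2.1]
        · rw [card_union_of_disjoint hq.1.2.2, hq.1.1, hq.1.2.1]
      have f3 : q.2 = p.2 := by
        have g1 : q.2 = (q.1 ∪ q.2) \ q.1 := by
          rw [union_sdiff_left, sdiff_eq_self_of_disjoint hq.1.2.2.symm]
        have g2 : p.2 = (p.1 ∪ p.2) \ p.1 := by
          rw [union_sdiff_left, sdiff_eq_self_of_disjoint hp.1.2.2.symm]
        rw [g1, f2, f1, ← g2]
      exact (Prod.ext f1 f3).symm
  have hsplit : (pairs d K l).card ≤ G.card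
      + (((pairs d K l).filter fun p => p.1 ∈ bad K).card
        + ((pairs d K l).filter fun p => p.1 ∪ p.2 ∈ bad (K + l)).card) := by
    refine le_trans (card_le_card ?_) ((card_union_le _ _).trans
      (Nat.add_le_add_left (card_union_le _ _) _))
    intro p hp
    by_cases c1 : p.1 ∈ bad K
    · exact mem_union_right _ (mem_union_left _ (mem_filter.mpr ⟨hp, c1⟩))
    · by_cases c2 : p.1 ∪ p.2 ∈ bad (K + l)
      · exact mem_union_right _ (mem_union_right _ (mem_filter.mpr ⟨hp, c2⟩))
      · exact mem_union_left _ (mem_filter.mpr ⟨hp, c1, c2⟩)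
  have hb1 : ((pairs d K l).filter fun p => p.1 ∈ bad K).card ≤ qq d * (d - K).choose l := by
    have e : ((pairs d K l).filter fun p => p.1 ∈ bad K).card
        = ∑ P ∈ bad K, (((pairs d K l).filter fun p => p.1 ∈ bad K).filter fun p => p.1 = P).card :=
      card_eq_sum_card_fiberwise fun p hp => (mem_filter.mp hp).2
    rw [e]
    calc ∑ P ∈ bad K, (((pairs d K l).filter fun p => p.1 ∈ bad K).filter fun p => p.1 = P).card
        ≤ ∑ _P ∈ bad K, (d - K).choose l := by
          refine sum_le_sum fun P hP => ?_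
          rw [← card_pairs_fst (l := l) (mem_filter.mp hP).2.1]
          exact card_le_card (filter_subset_filter _ (filter_subset _ _))
      _ = (bad K).card * (d - K).choose l := by rw [sum_const, smul_eq_mul]
      _ ≤ _ := Nat.mul_le_mul_right _ (hbad K le_rfl (by omega))
  have hb2 : ((pairs d K l).filter fun p => p.1 ∪ p.2 ∈ bad (K + l)).card
      ≤ qq d * (K + l).choose l := by
    have e : ((pairs d K l).filter fun p => p.1 ∪ p.2 ∈ bad (K + l)).card
        = ∑ P ∈ bad (K + l), (((pairs d K l).filter fun p => p.1 ∪ p.2 ∈ bad (K + l)).filter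
          fun p => p.1 ∪ p.2 = P).card :=
      card_eq_sum_card_fiberwise fun p hp => (mem_filter.mp hp).2
    rw [e]
    calc ∑ P ∈ bad (K + l), (((pairs d K l).filter fun p => p.1 ∪ p.2 ∈ bad (K + l)).filter
          fun p => p.1 ∪ p.2 = P).card
        ≤ ∑ _P ∈ bad (K + l), (K + l).choose l := by
          refine sum_le_sum fun P hP => ?_
          refine le_trans ?_ (card_pairs_union (l := l) (mem_filter.mp hP).2.1)
          exact card_le_card (filter_subset_filter _ (filter_subset _ _))
      _ = (bad (K + l)).card * (K + l).choose l := by rw [sum_const, smul_eq_mul]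
      _ ≤ _ := Nat.mul_le_mul_right _ (hbad (K + l) (by omega) le_rfl)
  rw [← card_pairs, mul_add]
  omega

end MP7c0edd
end

section
/-!
# EXC: the probability that a word is exceptional
-/
namespace MP7c0edd

open Finset Module Pool.Agent.Lib.MP_7c0edd_co.H21

/-- labellings with vanishing sum on a given non empty set -/
lemma card_sum_zero {n N m : ℕ} (A : Finset (Fin n)) (hA : A.Nonempty) :
    2 ^ (N + m) * (univ.filter (fun v : Fin n → EE N m => ∑ i ∈ A, v i = 0)).card
      ≤ Fintype.card (Fin n → EE N m) := by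
  classical
  obtain ⟨j, hj⟩ := hA
  have hE : Fintype.card (EE N m) = 2 ^ (N + m) := by
    rw [Fintype.card_prod, Fintype.card_fun, Fintype.card_fun, ZMod.card, Fintype.card_fin,
      Fintype.card_fin, pow_add]
  rw [← hE, ← card_univ, ← card_univ, ← card_product]
  have hsum : ∀ (v : Fin n → EE N m) (e : EE N m),
      ∑ i ∈ A, (v + (Pi.single j e : Fin n → EE N m)) i = ∑ i ∈ A, v i + e := by
    intro v e
    simp only [Pi.add_apply, sum_add_distrib]
    congr 1
    rw [sum_eq_single_of_mem j hj (fun i _ hij => Pi.single_eq_of_ne hij _), Pi.single_eq_same]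
  refine card_le_card_of_injOn (fun p => p.2 + (Pi.single j p.1 : Fin n → EE N m))
    (fun _ _ => by simp) ?_
  rintro ⟨e, v⟩ hp ⟨e', v'⟩ hp' h
  rw [mem_coe, mem_product, mem_filter] at hp hp'
  simp only at h hp hp'
  have h1 := hsum v e
  have h2 := hsum v' e'
  rw [h, h2, hp.2.2, hp'.2.2, zero_add, zero_add] at h1
  subst h1
  have h3 : v = v' := by simpa using h
  rw [h3]

/-- dependent labellings -/
lemma card_dep {n N m : ℕ} (U : Finset (Fin n)) :
    2 ^ (N + m) * (univ.filter (fun v : Fin n → EE N m =>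
      ∃ A ⊆ U, A.Nonempty ∧ ∑ i ∈ A, v i = 0)).card
      ≤ 2 ^ U.card * Fintype.card (Fin n → EE N m) := by
  classical
  have h1 : (univ.filter (fun v : Fin n → EE N m =>
      ∃ A ⊆ U, A.Nonempty ∧ ∑ i ∈ A, v i = 0)).card
      ≤ ∑ A ∈ U.powerset.filter (fun A => A.Nonempty),
        (univ.filter (fun v : Fin n → EE N m => ∑ i ∈ A, v i = 0)).card := by
    refine le_trans (card_le_card ?_) card_biUnion_le
    intro v hv
    rw [mem_filter] at hv
    obtain ⟨_, A, hAU, hA, h⟩ := hv
    rw [mem_biUnion]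
    exact ⟨A, mem_filter.mpr ⟨mem_powerset.mpr hAU, hA⟩, mem_filter.mpr ⟨mem_univ _, h⟩⟩
  refine (Nat.mul_le_mul_left _ h1).trans ?_
  rw [mul_sum]
  calc ∑ A ∈ U.powerset.filter (fun A => A.Nonempty), 2 ^ (N + m) *
        (univ.filter (fun v : Fin n → EE N m => ∑ i ∈ A, v i = 0)).card
      ≤ ∑ _A ∈ U.powerset.filter (fun A => A.Nonempty), Fintype.card (Fin n → EE N m) :=
        sum_le_sum (fun A hA => card_sum_zero A (mem_filter.mp hA).2)
    _ = (U.powerset.filter (fun A => A.Nonempty)).card * Fintype.card (Fin n → EE N m) := by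
        rw [sum_const, smul_eq_mul]
    _ ≤ 2 ^ U.card * Fintype.card (Fin n → EE N m) := by
        refine Nat.mul_le_mul_right _ ?_
        rw [← card_powerset]
        exact card_filter_le _ _

/-- labellings whose second components on `B` do not generate -/
lemma card_nongen {n N m : ℕ} (B : Finset (Fin n)) (q : ℕ) (hB : B.card = m + q) :
    2 ^ q * (univ.filter (fun v : Fin n → EE N m =>
      ∃ a : Fin m → ZMod 2, a ≠ 0 ∧ ∀ i ∈ B, a ⬝ᵥ (v i).2 = 0)).card
      ≤ Fintype.card (Fin n → EE N m) := by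
  classical
  have h1 := card_bad (k := m) B q hB
  set G := (univ.filter (fun u : Fin n → Fin m → ZMod 2 =>
      ∃ a, a ≠ 0 ∧ ∀ i ∈ B, a ⬝ᵥ u i = 0)) with hG
  have h2 : (univ.filter (fun v : Fin n → EE N m =>
      ∃ a : Fin m → ZMod 2, a ≠ 0 ∧ ∀ i ∈ B, a ⬝ᵥ (v i).2 = 0)).card
      ≤ Fintype.card (Fin n → Fin N → ZMod 2) * G.card := by
    rw [← card_univ (α := Fin n → Fin N → ZMod 2), ← card_product]
    refine card_le_card_of_injOn (fun v => (fun i => (v i).1, fun i => (v i).2)) ?_ ?_
    · intro v hv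
      rw [mem_coe, mem_filter] at hv
      rw [mem_coe, mem_product, hG, mem_filter]
      exact ⟨mem_univ _, mem_univ _, hv.2⟩
    · intro v _ v' _ h
      funext i
      have h1 := congrFun (congrArg Prod.fst h) i
      have h2 := congrFun (congrArg Prod.snd h) i
      exact Prod.ext h1 h2
  have h3 : Fintype.card (Fin n → EE N m)
      = Fintype.card (Fin n → Fin N → ZMod 2) * Fintype.card (Fin n → Fin m → ZMod 2) := by
    rw [← Fintype.card_prod]
    exact Fintype.card_congr
      { toFun := fun v => (fun i => (v i).1, fun i => (v i).2)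
        invFun := fun p i => (p.1 i, p.2 i)
        left_inv := fun _ => rfl
        right_inv := fun _ => rfl }
  rw [h3]
  calc 2 ^ q * (univ.filter (fun v : Fin n → EE N m =>
      ∃ a : Fin m → ZMod 2, a ≠ 0 ∧ ∀ i ∈ B, a ⬝ᵥ (v i).2 = 0)).card
      ≤ 2 ^ q * (Fintype.card (Fin n → Fin N → ZMod 2) * G.card) := Nat.mul_le_mul_left _ h2
    _ = Fintype.card (Fin n → Fin N → ZMod 2) * (2 ^ q * G.card) := by ring
    _ ≤ _ := Nat.mul_le_mul_left _ h1

/-- exceptional labellings are dependent or non generating -/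
lemma Exc.dep_or {n N m : ℕ} {v : Fin n → EE N m} {w : W n} (h : Exc v w) :
    (∃ A ⊆ ones w ∪ stars w, A.Nonempty ∧ ∑ i ∈ A, v i = 0) ∨
      ∃ a : Fin m → ZMod 2, a ≠ 0 ∧ ∀ i ∈ ones w, a ⬝ᵥ (v i).2 = 0 := by
  classical
  rcases h with h | h
  · left
    rw [linearIndepOn_finset_iff] at h
    push Not at h
    obtain ⟨f, hf, i, hi, hfi⟩ := h
    refine ⟨(ones w ∪ stars w).filter (fun i => f i ≠ 0), filter_subset _ _,
      ⟨i, mem_filter.mpr ⟨hi, hfi⟩⟩, ?_⟩
    rw [sum_filter]
    refine Eq.trans (sum_congr rfl (fun j _ => ?_)) hf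
    by_cases hj : f j = 0
    · simp [hj]
    · have key : ∀ x : ZMod 2, x ≠ 0 → x = 1 := by decide
      rw [if_pos hj, key _ hj, one_smul]
  · right
    obtain ⟨f, hf0, hf⟩ := Submodule.exists_le_ker_of_lt_top _ (lt_top_iff_ne_top.mpr h)
    have hfa : ∀ x : Fin m → ZMod 2,
        (fun j => f (fun j' => if j = j' then 1 else 0)) ⬝ᵥ x = f x := by
      intro x
      rw [LinearMap.pi_apply_eq_sum_univ f x]
      simp only [dotProduct, smul_eq_mul]
      exact sum_congr rfl (fun j _ => mul_comm _ _)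
    refine ⟨fun j => f (fun j' => if j = j' then 1 else 0), ?_, ?_⟩
    · intro h0
      refine hf0 (LinearMap.ext fun x => ?_)
      rw [← hfa x, h0]
      simp
    · intro i hi
      rw [hfa]
      have : (v i).2 ∈ LinearMap.ker f := hf (Submodule.subset_span ⟨i, hi, rfl⟩)
      exact LinearMap.mem_ker.mp this

theorem specExc : SpecExc := by
  classical
  intro n l N m b r w hw hNm
  rw [layer, mem_filter, mem_words] at hw
  set L : ℝ := (Fintype.card (Fin n → EE N m) : ℝ) with hL
  have hL0 : 0 ≤ L := by positivity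
  set D := univ.filter (fun v : Fin n → EE N m =>
      ∃ A ⊆ ones w ∪ stars w, A.Nonempty ∧ ∑ i ∈ A, v i = 0) with hD
  set G := univ.filter (fun v : Fin n → EE N m =>
      ∃ a : Fin m → ZMod 2, a ≠ 0 ∧ ∀ i ∈ ones w, a ⬝ᵥ (v i).2 = 0) with hG
  have h1 : {v : Fin n → EE N m | Exc v w}.ncard ≤ D.card + G.card := by
    have hsub : {v : Fin n → EE N m | Exc v w} ⊆ ((D ∪ G : Finset (Fin n → EE N m)) : Set _) := by
      intro v hv
      rw [mem_coe, mem_union, hD, hG, mem_filter, mem_filter]
      rcases Exc.dep_or hv with h | h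
      · exact Or.inl ⟨mem_univ _, h⟩
      · exact Or.inr ⟨mem_univ _, h⟩
    refine (Set.ncard_le_ncard hsub (Finset.finite_toSet _)).trans ?_
    rw [Set.ncard_coe_finset]
    exact card_union_le _ _
  have h1' : (({v : Fin n → EE N m | Exc v w}.ncard : ℕ) : ℝ) ≤ (D.card : ℝ) + G.card := by
    exact_mod_cast h1
  -- dependent
  have hU : (ones w ∪ stars w).card = r + l := by
    rw [card_union_of_disjoint, hw.1, hw.2]
    rw [disjoint_left]
    intro i hi hi'
    rw [mem_ones] at hi
    rw [mem_stars, hi] at hi'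
    exact absurd hi' (by simp)
  have h2 : (D.card : ℝ) ≤ (2 : ℝ) ^ l / 2 ^ b * L := by
    have h3 := card_dep (N := N) (m := m) (ones w ∪ stars w)
    rw [hU] at h3
    have h4 : (2 : ℝ) ^ (N + m) * D.card ≤ 2 ^ (r + l) * L := by
      rw [hL, hD]; exact_mod_cast h3
    rw [hNm, pow_add, pow_add] at h4
    have h5 : (2 : ℝ) ^ b * D.card ≤ 2 ^ l * L := by
      have : (2 : ℝ) ^ r * (2 ^ b * D.card) ≤ 2 ^ r * (2 ^ l * L) := by
        calc (2 : ℝ) ^ r * (2 ^ b * D.card) = 2 ^ r * 2 ^ b * D.card := by ring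
          _ ≤ 2 ^ r * 2 ^ l * L := h4
          _ = _ := by ring
      exact le_of_mul_le_mul_left this (by positivity)
    rw [div_mul_eq_mul_div, le_div_iff₀ (by positivity), mul_comm]
    exact h5
  -- non generating
  have h3 : (G.card : ℝ) ≤ (2 : ℝ) ^ b / 2 ^ N * L := by
    rcases le_or_gt b N with hbN | hbN
    · have hr : (ones w).card = m + (N - b) := by rw [hw.2]; omega
      have h4 := card_nongen (N := N) (ones w) (N - b) hr
      have h5 : (2 : ℝ) ^ (N - b) * G.card ≤ L := by
        rw [hL, hG]; exact_mod_cast h4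
      have h6 : (2 : ℝ) ^ N = 2 ^ b * 2 ^ (N - b) := by
        rw [← pow_add]; congr 1; omega
      rw [h6, div_mul_eq_mul_div, le_div_iff₀ (by positivity)]
      calc (G.card : ℝ) * (2 ^ b * 2 ^ (N - b)) = 2 ^ b * (2 ^ (N - b) * G.card) := by ring
        _ ≤ 2 ^ b * L := mul_le_mul_of_nonneg_left h5 (by positivity)
    · have h4 : (G.card : ℝ) ≤ L := by
        rw [hL]
        exact_mod_cast card_le_univ G
      have h5 : (1 : ℝ) ≤ 2 ^ b / 2 ^ N := by
        rw [one_le_div (by positivity)]
        exact pow_le_pow_right₀ (by norm_num) hbN.le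
      calc (G.card : ℝ) ≤ L := h4
        _ = 1 * L := (one_mul L).symm
        _ ≤ _ := mul_le_mul_of_nonneg_right h5 hL0
  calc (({v : Fin n → EE N m | Exc v w}.ncard : ℕ) : ℝ) ≤ (D.card : ℝ) + G.card := h1'
    _ ≤ (2 : ℝ) ^ l / 2 ^ b * L + (2 : ℝ) ^ b / 2 ^ N * L := add_le_add h2 h3
    _ = _ := by ring

end MP7c0edd
end

section
/-!
# SELECT: choice of a labelling and of a set of states by averaging
-/
namespace MP7c0edd

open Finset Module Pool.Agent.Lib.MP_7c0edd_co.H21

/-- colourings giving colour `0` to a point -/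
lemma card_color_zero {S : Type} [Fintype S] [DecidableEq S] (k : ℕ) (s : S) :
    ((univ.filter (fun g : S → Fin (k + 1) => g s = 0)).card : ℝ)
      = 1 / ((k + 1 : ℕ) : ℝ) * (((k + 1 : ℕ) : ℝ) ^ Fintype.card S) := by
  have h1 : (univ.filter (fun g : S → Fin (k + 1) => g s = 0))
      = Fintype.piFinset (fun t => if t = s then {0} else univ) := by
    ext g
    rw [mem_filter, Fintype.mem_piFinset]
    constructor
    · rintro ⟨_, h⟩ t
      by_cases ht : t = s
      · subst ht; simp [h]
      · simp [ht]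
    · intro h
      exact ⟨mem_univ _, by simpa using h s⟩
  rw [h1, Fintype.card_piFinset]
  have h2 : ∀ t : S, (((if t = s then ({0} : Finset (Fin (k + 1))) else univ).card : ℕ) : ℝ)
      = (if t = s then 1 / ((k + 1 : ℕ) : ℝ) else 1) * ((k + 1 : ℕ) : ℝ) := by
    intro t
    have hk : ((k + 1 : ℕ) : ℝ) ≠ 0 := by positivity
    by_cases ht : t = s
    · simp only [ht, if_true, card_singleton]
      rw [one_div, inv_mul_cancel₀ hk]; norm_num
    · simp [ht]
  rw [Nat.cast_prod]
  simp_rw [h2]
  rw [prod_mul_distrib, prod_const, card_univ, prod_ite_eq']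
  simp

/-- colourings avoiding colour `0` on a set -/
lemma card_color_avoid {S : Type} [Fintype S] [DecidableEq S] (k : ℕ) (X : Finset S) :
    ((univ.filter (fun g : S → Fin (k + 1) => ∀ s ∈ X, g s ≠ 0)).card : ℝ)
      = (1 - 1 / ((k + 1 : ℕ) : ℝ)) ^ X.card * (((k + 1 : ℕ) : ℝ) ^ Fintype.card S) := by
  have h1 : (univ.filter (fun g : S → Fin (k + 1) => ∀ s ∈ X, g s ≠ 0))
      = Fintype.piFinset (fun t => if t ∈ X then univ.erase 0 else univ) := by
    ext g
    rw [mem_filter, Fintype.mem_piFinset]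
    constructor
    · rintro ⟨_, h⟩ t
      by_cases ht : t ∈ X
      · simp [ht, h t ht]
      · simp [ht]
    · intro h
      refine ⟨mem_univ _, fun s hs => ?_⟩
      simpa [hs] using h s
  rw [h1, Fintype.card_piFinset]
  have h2 : ∀ t : S, (((if t ∈ X then (univ.erase 0 : Finset (Fin (k + 1))) else univ).card : ℕ) : ℝ)
      = (if t ∈ X then (1 - 1 / ((k + 1 : ℕ) : ℝ)) else 1) * ((k + 1 : ℕ) : ℝ) := by
    intro t
    have hk : ((k + 1 : ℕ) : ℝ) ≠ 0 := by positivity
    by_cases ht : t ∈ X
    · simp only [ht, if_true]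
      rw [card_erase_of_mem (mem_univ _), card_univ, Fintype.card_fin, Nat.add_sub_cancel, sub_mul,
        one_div, inv_mul_cancel₀ hk]
      push_cast; ring
    · simp [ht]
  rw [Nat.cast_prod]
  simp_rw [h2]
  rw [prod_mul_distrib, prod_const, card_univ]
  congr 1
  rw [prod_ite, prod_const_one, mul_one, prod_const]
  congr 2
  ext; simp

theorem specSelect : SpecSelect := by
  classical
  intro Λ Ω S Γ _ _ _ _ _ _ ex st X ε M k hk hex hX hlt
  have : Fintype S := Fintype.ofFinite S
  obtain ⟨k, rfl⟩ : ∃ k', k = k' + 1 := ⟨k - 1, by omega⟩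
  set κ : ℝ := ((k + 1 : ℕ) : ℝ) with hκ
  have hκ0 : 0 < κ := by rw [hκ]; positivity
  have hκ1 : 1 ≤ κ := by rw [hκ]; exact_mod_cast hk
  set P : ℝ := κ ^ Fintype.card S with hP
  have hP0 : 0 < P := by rw [hP]; positivity
  have hcardG : (Fintype.card (S → Fin (k + 1)) : ℝ) = P := by
    rw [Fintype.card_fun, Fintype.card_fin, hP, hκ]; push_cast; ring
  set δ : ℝ := ε + 1 / κ + Fintype.card Γ * (1 - 1 / κ) ^ M with hδ
  set L : ℝ := (Fintype.card Λ : ℝ) with hL
  set O : ℝ := (Fintype.card Ω : ℝ) with hO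
  have hL0 : 0 < L := by rw [hL]; exact_mod_cast Fintype.card_pos
  have hO0 : 0 < O := by rw [hO]; exact_mod_cast Fintype.card_pos
  -- the sum over `x` of the exceptional labellings
  have hex' : ∀ x, ((univ.filter (fun v => ex v x)).card : ℝ) ≤ ε * L := by
    intro x
    have := hex x
    have h1 : {v | ex v x} = ((univ.filter (fun v => ex v x) : Finset Λ) : Set Λ) := by
      ext v; simp
    rw [h1, Set.ncard_coe_finset] at this
    exact this
  have hX' : ∀ γ, ((univ.filter (fun g : S → Fin (k + 1) => ∀ s ∈ X γ, g s ≠ 0)).card : ℝ)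
      ≤ (1 - 1 / κ) ^ M * P := by
    intro γ
    have h1 := card_color_avoid k (X γ).toFinset
    have h2 : (univ.filter (fun g : S → Fin (k + 1) => ∀ s ∈ X γ, g s ≠ 0))
        = (univ.filter (fun g : S → Fin (k + 1) => ∀ s ∈ (X γ).toFinset, g s ≠ 0)) := by
      ext g; simp
    rw [h2, h1]
    refine mul_le_mul_of_nonneg_right ?_ hP0.le
    refine pow_le_pow_of_le_one ?_ ?_ ?_
    · rw [sub_nonneg, div_le_one (by positivity)]; exact hκ1
    · rw [sub_le_self_iff]; positivity
    · have := hX γ
      rwa [Set.ncard_eq_toFinset_card'] at this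
  let A : Λ → (S → Fin (k + 1)) → ℕ := fun v g =>
    (univ.filter (fun x => ex v x ∨ g (st v x) = 0)).card
  let A₁ : Λ → ℕ := fun v => (univ.filter (fun x => ex v x)).card
  let A₂ : Λ → (S → Fin (k + 1)) → ℕ := fun v g => (univ.filter (fun x => g (st v x) = 0)).card
  let B : (S → Fin (k + 1)) → ℕ := fun g => (univ.filter (fun γ => ∀ s ∈ X γ, g s ≠ 0)).card
  have hA : ∀ v g, (A v g : ℝ) ≤ (A₁ v : ℝ) + A₂ v g := by
    intro v g
    have : A v g ≤ A₁ v + A₂ v g := by
      simp only [A, A₁, A₂]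
      rw [filter_or]
      exact card_union_le _ _
    exact_mod_cast this
  have hA₁ : ∑ v, (A₁ v : ℝ) ≤ O * (ε * L) := by
    have h1 : ∑ v, A₁ v = ∑ x, (univ.filter (fun v => ex v x)).card := by
      have := sum_card_bipartiteAbove_eq_sum_card_bipartiteBelow (s := (univ : Finset Λ))
        (t := (univ : Finset Ω)) (fun v x => ex v x)
      simpa [A₁, bipartiteAbove, bipartiteBelow] using this
    have h2 : ∑ v, (A₁ v : ℝ) = ∑ x, ((univ.filter (fun v => ex v x)).card : ℝ) := by
      exact_mod_cast h1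
    rw [h2]
    calc ∑ x, ((univ.filter (fun v => ex v x)).card : ℝ) ≤ ∑ _x : Ω, ε * L :=
          sum_le_sum (fun x _ => hex' x)
      _ = O * (ε * L) := by rw [sum_const, card_univ, nsmul_eq_mul]
  have hA₂ : ∀ v, ∑ g, (A₂ v g : ℝ) = O * (1 / κ * P) := by
    intro v
    have h1 : ∑ g, A₂ v g = ∑ x, (univ.filter (fun g : S → Fin (k + 1) => g (st v x) = 0)).card := by
      have := sum_card_bipartiteAbove_eq_sum_card_bipartiteBelow
        (s := (univ : Finset (S → Fin (k + 1))))
        (t := (univ : Finset Ω)) (fun g x => g (st v x) = 0)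
      simpa [A₂, bipartiteAbove, bipartiteBelow] using this
    have h2 : ∑ g, (A₂ v g : ℝ)
        = ∑ x, ((univ.filter (fun g : S → Fin (k + 1) => g (st v x) = 0)).card : ℝ) := by
      exact_mod_cast h1
    rw [h2]
    simp_rw [card_color_zero]
    rw [sum_const, card_univ, nsmul_eq_mul]
  have hB : ∑ g, (B g : ℝ) ≤ Fintype.card Γ * ((1 - 1 / κ) ^ M * P) := by
    have h1 : ∑ g, B g
        = ∑ γ, (univ.filter (fun g : S → Fin (k + 1) => ∀ s ∈ X γ, g s ≠ 0)).card := by
      have := sum_card_bipartiteAbove_eq_sum_card_bipartiteBelow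
        (s := (univ : Finset (S → Fin (k + 1))))
        (t := (univ : Finset Γ)) (fun g γ => ∀ s ∈ X γ, g s ≠ 0)
      simpa [B, bipartiteAbove, bipartiteBelow] using this
    have h2 : ∑ g, (B g : ℝ)
        = ∑ γ, ((univ.filter (fun g : S → Fin (k + 1) => ∀ s ∈ X γ, g s ≠ 0)).card : ℝ) := by
      exact_mod_cast h1
    rw [h2]
    calc ∑ γ, ((univ.filter (fun g : S → Fin (k + 1) => ∀ s ∈ X γ, g s ≠ 0)).card : ℝ)
        ≤ ∑ _γ : Γ, (1 - 1 / κ) ^ M * P := sum_le_sum (fun γ _ => hX' γ)
      _ = _ := by rw [sum_const, card_univ, nsmul_eq_mul]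
  have hsum : ∑ p : Λ × (S → Fin (k + 1)), ((A p.1 p.2 : ℝ) + O * B p.2)
      ≤ ∑ _p : Λ × (S → Fin (k + 1)), δ * O := by
    rw [sum_const, card_univ, Fintype.card_prod, nsmul_eq_mul, Nat.cast_mul, hcardG,
      Fintype.sum_prod_type]
    calc ∑ v, ∑ g, ((A v g : ℝ) + O * B g)
        ≤ ∑ v, ∑ g, (((A₁ v : ℝ) + A₂ v g) + O * B g) := by
          refine sum_le_sum (fun v _ => sum_le_sum (fun g _ => ?_))
          linarith [hA v g]
      _ = ∑ v, (P * A₁ v + O * (1 / κ * P) + O * ∑ g, (B g : ℝ)) := by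
          refine sum_congr rfl (fun v _ => ?_)
          rw [sum_add_distrib, sum_add_distrib, hA₂, sum_const, card_univ, nsmul_eq_mul, hcardG,
            mul_sum]
      _ = P * ∑ v, (A₁ v : ℝ) + L * (O * (1 / κ * P)) + L * (O * ∑ g, (B g : ℝ)) := by
          rw [sum_add_distrib, sum_add_distrib, ← mul_sum, sum_const, sum_const, card_univ,
            nsmul_eq_mul, nsmul_eq_mul, ← hL]
      _ ≤ P * (O * (ε * L)) + L * (O * (1 / κ * P))
          + L * (O * (Fintype.card Γ * ((1 - 1 / κ) ^ M * P))) := by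
          have h1 := mul_le_mul_of_nonneg_left hA₁ hP0.le
          have h2 := mul_le_mul_of_nonneg_left (mul_le_mul_of_nonneg_left hB hO0.le) hL0.le
          linarith
      _ = L * P * (δ * O) := by rw [hδ]; ring
  obtain ⟨⟨v, g⟩, _, hvg⟩ := exists_le_of_sum_le univ_nonempty hsum
  simp only at hvg
  have hδ1 : δ * O < O := by
    calc δ * O < 1 * O := mul_lt_mul_of_pos_right hlt hO0
      _ = O := one_mul O
  have hB0 : B g = 0 := by
    by_contra hne
    have h1 : (1 : ℝ) ≤ B g := by exact_mod_cast Nat.one_le_iff_ne_zero.mpr hne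
    have h2 : O * 1 ≤ O * B g := mul_le_mul_of_nonneg_left h1 hO0.le
    have h3 : (0 : ℝ) ≤ A v g := by positivity
    linarith
  refine ⟨v, {s | g s = 0}, ?_, ?_⟩
  · intro γ
    by_contra hcon
    rw [Set.not_nonempty_iff_eq_empty] at hcon
    have h1 : γ ∈ univ.filter (fun γ => ∀ s ∈ X γ, g s ≠ 0) := by
      rw [mem_filter]
      refine ⟨mem_univ _, fun s hs h0 => ?_⟩
      have : s ∈ X γ ∩ {s | g s = 0} := ⟨hs, h0⟩
      rw [hcon] at this
      exact this
    have h2 : B g ≠ 0 := by
      simp only [B]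
      exact (card_pos.mpr ⟨γ, h1⟩).ne'
    exact h2 hB0
  · have h1 : {x | ex v x ∨ st v x ∈ {s | g s = 0}}
        = ((univ.filter (fun x => ex v x ∨ g (st v x) = 0) : Finset Ω) : Set Ω) := by
      ext x; simp
    rw [h1, Set.ncard_coe_finset]
    rw [hB0] at hvg
    simpa using hvg

end MP7c0edd
end

section
/-!
# LAYER: a covering family in one layer
-/
namespace MP7c0edd

open Finset Module Pool.Agent.Lib.MP_7c0edd_co.H21

lemma mem_layer {n l r : ℕ} {w : W n} : w ∈ layer n l r ↔ (stars w).card = l ∧ (ones w).card = r := by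
  rw [layer, mem_filter, mem_words]

/-- below a word with `d ≥ K + l` stars there is a word with `l` stars and `K` more ones -/
lemma exists_below_layer {n d K l : ℕ} (x : W n) (hx : (stars x).card = d) (h : K + l ≤ d) :
    ∃ w ∈ layer n l ((ones x).card + K), Below w x := by
  classical
  obtain ⟨F, hF, hFl⟩ := exists_subset_card_eq (show l ≤ (stars x).card by omega)
  obtain ⟨P, hP, hPK⟩ := exists_subset_card_eq
    (show K ≤ (stars x \ F).card by rw [card_sdiff_of_subset hF]; omega)
  have hPx : P ⊆ stars x := hP.trans sdiff_subset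
  have hPF : ∀ i ∈ P, i ∉ F := fun i hi => (mem_sdiff.mp (hP hi)).2
  refine ⟨fun i => if i ∈ F then none else if i ∈ P then some true else
    if i ∈ stars x then some false else x i, ?_, ?_⟩
  · rw [mem_layer]
    constructor
    · rw [← hFl]
      congr 1
      ext i
      rw [mem_stars]
      by_cases hiF : i ∈ F
      · simp [hiF]
      · by_cases hiP : i ∈ P
        · simp [hiF, hiP]
        · by_cases hix : i ∈ stars x
          · simp [hiF, hiP, hix]
          · simp only [hiF, hiP, hix, if_false, iff_false]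
            rwa [mem_stars] at hix
    · rw [← hPK, ← card_union_of_disjoint]
      · congr 1
        ext i
        rw [mem_ones, mem_union, mem_ones]
        by_cases hiF : i ∈ F
        · have h1 : i ∉ P := fun hi => hPF i hi hiF
          have h2 : x i = none := mem_stars.mp (hF hiF)
          simp [hiF, h1, h2]
        · by_cases hiP : i ∈ P
          · simp [hiF, hiP]
          · by_cases hix : i ∈ stars x
            · have h2 : x i = none := mem_stars.mp hix
              simp [hiF, hiP, hix, h2]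
            · simp [hiF, hiP, hix]
      · rw [disjoint_left]
        intro i hi hiP
        have h2 : x i = none := mem_stars.mp (hPx hiP)
        rw [mem_ones, h2] at hi
        exact absurd hi (by simp)
  · intro i
    by_cases hix : i ∈ stars x
    · exact Or.inl (mem_stars.mp hix)
    · right
      have h1 : i ∉ F := fun hi => hix (hF hi)
      have h2 : i ∉ P := fun hi => hix (hPx hi)
      simp [h1, h2, hix]

instance finite_sub (N : ℕ) : Finite (Submodule (ZMod 2) (Fin N → ZMod 2)) :=
  Finite.of_injective (fun p => (p : Set (Fin N → ZMod 2))) SetLike.coe_injective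

instance finite_lin (N Q : ℕ) : Finite ((Fin N → ZMod 2) →ₗ[ZMod 2] (Fin Q → ZMod 2)) :=
  Finite.of_injective (fun f => (f : (Fin N → ZMod 2) → (Fin Q → ZMod 2))) DFunLike.coe_injective

lemma card_lin (N Q : ℕ) : Nat.card ((Fin N → ZMod 2) →ₗ[ZMod 2] (Fin Q → ZMod 2)) = 2 ^ (Q * N) := by
  rw [Nat.card_congr (LinearMap.toMatrix' (R := ZMod 2) (m := Fin Q) (n := Fin N)).toEquiv]
  rw [Nat.card_eq_fintype_card]
  have h : Fintype.card (Matrix (Fin Q) (Fin N) (ZMod 2)) = Fintype.card (Fin Q → Fin N → ZMod 2) :=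
    Fintype.card_congr (Equiv.refl _)
  rw [h, Fintype.card_fun, Fintype.card_fun, ZMod.card, Fintype.card_fin, Fintype.card_fin,
    ← pow_mul, mul_comm]

theorem specLayer (hCover : SpecCover) : SpecLayer := by
  classical
  intro n d K l N b r k M hKl hNr hk hM hlt
  rcases (layer n l r).eq_empty_or_nonempty with hE | hne
  · refine ⟨∅, empty_subset _, ?_, ?_⟩
    · intro x hx hxr
      obtain ⟨w, hw, _⟩ := exists_below_layer x hx hKl
      rw [hxr, hE] at hw
      exact absurd hw (notMem_empty _)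
    · rw [hE]; simp
  · obtain ⟨m, hm⟩ : ∃ m, N + m = r + b := ⟨r + b - N, by omega⟩
    let Λ := Fin n → EE N m
    let Ω := {w : W n // w ∈ layer n l r}
    let Γ := {p : ((Fin N → ZMod 2) →ₗ[ZMod 2] (Fin (K + b) → ZMod 2)) ×
      (Fin d → (Fin (K + b) → ZMod 2)) // Cfg d K l N (K + b) p.1 p.2}
    have : Nonempty Ω := by
      obtain ⟨w, hw⟩ := hne
      exact ⟨⟨w, hw⟩⟩
    have : Fintype Γ := Fintype.ofFinite Γ
    have hΓ : Fintype.card Γ ≤ 2 ^ ((K + b) * (d + N)) := by
      rw [← Nat.card_eq_fintype_card]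
      refine (Nat.card_le_card_of_injective (fun γ : Γ => γ.1) Subtype.val_injective).trans ?_
      rw [Nat.card_prod, card_lin, Nat.card_eq_fintype_card, Fintype.card_fun, Fintype.card_fun,
        ZMod.card, Fintype.card_fin, Fintype.card_fin, ← pow_mul, ← pow_add]
      exact le_of_eq (by congr 1; ring)
    have hpow : (0 : ℝ) ≤ (1 - 1 / (k : ℝ)) ^ M := by
      refine pow_nonneg ?_ _
      have hk' : (1 : ℝ) ≤ k := by exact_mod_cast hk
      rw [sub_nonneg, div_le_one (by positivity)]
      exact hk'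
    have hδ : ((2 : ℝ) ^ l / 2 ^ b + 2 ^ b / 2 ^ N) + 1 / (k : ℝ)
        + Fintype.card Γ * (1 - 1 / (k : ℝ)) ^ M ≤ dens d K l N b k M := by
      rw [dens]
      have h1 : (Fintype.card Γ : ℝ) ≤ 2 ^ ((K + b) * (d + N)) := by exact_mod_cast hΓ
      have h2 := mul_le_mul_of_nonneg_right h1 hpow
      linarith
    obtain ⟨v, T, hT, hcard⟩ := specSelect Λ Ω (St N) Γ (fun v w => Exc v w.1)
      (fun v w => wstate v w.1) (fun γ => state γ.1.1 γ.1.2 '' (pairs d K l : Set _))
      ((2 : ℝ) ^ l / 2 ^ b + 2 ^ b / 2 ^ N) M k hk (fun x => specExc n l N m b r x.1 x.2 hm)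
      (fun γ => hM γ.1.1 γ.1.2 γ.2) (lt_of_le_of_lt hδ hlt)
    have hHits : Hits d K l N (K + b) T := by
      intro φ u hcfg
      obtain ⟨s, ⟨p, hp, hps⟩, hsT⟩ := hT ⟨(φ, u), hcfg⟩
      refine ⟨p, hp, ?_⟩
      rw [hps]
      exact hsT
    refine ⟨(layer n l r).filter (fun w => Exc v w ∨ wstate v w ∈ T), filter_subset _ _, ?_, ?_⟩
    · intro x hx hxr
      obtain ⟨w, hw, hwx, hwT⟩ := hCover n d K l N m b v T x hKl hx (by omega) hHits
      rw [hxr] at hw
      exact ⟨w, mem_filter.mpr ⟨hw, hwT⟩, hwx⟩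
    · have h1 : ((layer n l r).filter (fun w => Exc v w ∨ wstate v w ∈ T)).card
          = {x : Ω | Exc v x.1 ∨ wstate v x.1 ∈ T}.ncard := by
        rw [← Set.ncard_coe_finset]
        refine (Set.ncard_congr (fun (x : Ω) _ => x.1) ?_ ?_ ?_).symm
        · intro x hx
          rw [mem_coe, mem_filter]
          exact ⟨x.2, hx⟩
        · intro x y _ _ h
          exact Subtype.ext h
        · intro w hw
          rw [mem_coe, mem_filter] at hw
          exact ⟨⟨w, hw.1⟩, hw.2, rfl⟩
      rw [h1]
      have h2 : (Fintype.card Ω : ℝ) = (layer n l r).card := by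
        congr 1
        exact Fintype.card_coe _
      rw [h2] at hcard
      exact hcard.trans (mul_le_mul_of_nonneg_right hδ (by positivity))

end MP7c0edd
end

section
/-!
# NUM: the choice of the parameters
-/
namespace MP7c0edd

open Finset Module Pool.Agent.Lib.MP_7c0edd_co.H21

namespace NumM

theorem central (m : ℕ) (hm : 1 ≤ m) : 16 ^ m ≤ 4 * m * m.centralBinom ^ 2 := by
  induction m, hm using Nat.le_induction with
  | base => decide
  | succ m hm ih =>
    have h1 := Nat.succ_mul_centralBinom_succ m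
    have h2 : (m + 1) * 16 ^ (m + 1) ≤ 4 * (m + 1) ^ 2 * (m + 1).centralBinom ^ 2 := by
      calc (m + 1) * 16 ^ (m + 1) = 16 * (m + 1) * 16 ^ m := by ring
        _ ≤ 16 * (m + 1) * (4 * m * m.centralBinom ^ 2) := Nat.mul_le_mul_left _ ih
        _ = 16 * (4 * m * (m + 1)) * m.centralBinom ^ 2 := by ring
        _ ≤ 16 * (2 * m + 1) ^ 2 * m.centralBinom ^ 2 := by
          gcongr
          nlinarith
        _ = 4 * (2 * (2 * m + 1) * m.centralBinom) ^ 2 := by ring
        _ = 4 * ((m + 1) * (m + 1).centralBinom) ^ 2 := by rw [h1]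
        _ = _ := by ring
    have h3 : (m + 1) * 16 ^ (m + 1) ≤ (m + 1) * (4 * (m + 1) * (m + 1).centralBinom ^ 2) := by
      refine h2.trans (le_of_eq ?_)
      ring
    exact Nat.le_of_mul_le_mul_left h3 (by omega)

theorem central' (t : ℕ) (ht : 1 ≤ t) : 4 ^ t ≤ 4 * t * (t.choose (t / 2)) ^ 2 := by
  rcases Nat.even_or_odd' t with ⟨m, rfl | rfl⟩
  · have h1 := central m (by omega)
    rw [show 2 * m / 2 = m by omega, ← Nat.centralBinom_eq_two_mul_choose]
    calc 4 ^ (2 * m) = 16 ^ m := by rw [pow_mul]; norm_num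
      _ ≤ _ := h1
      _ ≤ _ := by gcongr; omega
  · have h1 := central (m + 1) (by omega)
    rw [show (2 * m + 1) / 2 = m by omega]
    have h2 : (m + 1).centralBinom = 2 * (2 * m + 1).choose m := by
      rw [Nat.centralBinom_eq_two_mul_choose, show 2 * (m + 1) = 2 * m + 1 + 1 by ring,
        Nat.choose_succ_succ, ← Nat.choose_symm_half]
      ring
    rw [h2] at h1
    have h3 : 4 * 4 ^ (2 * m + 1) = 16 ^ (m + 1) := by
      rw [← pow_succ', show 2 * m + 1 + 1 = 2 * (m + 1) by ring, pow_mul]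
      norm_num
    have h4 : 4 * 4 ^ (2 * m + 1) ≤ 4 * (4 * (2 * m + 1) * (2 * m + 1).choose m ^ 2) := by
      rw [h3]
      refine h1.trans ?_
      calc 4 * (m + 1) * (2 * (2 * m + 1).choose m) ^ 2
          = (16 * (m + 1)) * (2 * m + 1).choose m ^ 2 := by ring
        _ ≤ (16 * (2 * m + 1)) * (2 * m + 1).choose m ^ 2 := by gcongr; omega
        _ = _ := by ring
    exact Nat.le_of_mul_le_mul_left h4 (by omega)

theorem lin_le_pow (L : ℕ) (hL : 12 ≤ L) : (L + 1) * (16 * L + 13) + 4 ≤ 2 ^ L := by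
  induction L, hL using Nat.le_induction with
  | base => norm_num
  | succ L hL ih =>
    rw [pow_succ]
    nlinarith

theorem qq_le {t d : ℕ} (ht : 4096 ≤ t) (hd : d ≤ t ^ 2 + t) : 4 * qq d ≤ t.choose (t / 2) := by
  set L := Nat.log 2 (t + 1) with hLdef
  have hL : 12 ≤ L := by
    rw [hLdef]
    exact Nat.le_log_of_pow_le (by norm_num) (by norm_num; omega)
  have h1 : t + 1 < 2 ^ (L + 1) := Nat.lt_pow_succ_log_self (by norm_num) _
  have h2 : 2 ^ L ≤ t + 1 := Nat.pow_log_le_self 2 (by omega)
  have hd1 : d + 1 ≤ (t + 1) ^ 2 := by nlinarith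
  have h3 : Nat.log 2 (d + 1) ≤ 2 * L + 1 := by
    have h4 : d + 1 < 2 ^ (2 * L + 2) := by
      calc d + 1 ≤ (t + 1) ^ 2 := hd1
        _ < (2 ^ (L + 1)) ^ 2 := Nat.pow_lt_pow_left h1 (by norm_num)
        _ = _ := by rw [← pow_mul]; congr 1; ring
    have := Nat.log_lt_of_lt_pow (by omega) h4
    omega
  have h4 : qq d ≤ 2 * 2 ^ ((L + 1) * (16 * L + 12)) := by
    unfold qq
    refine Nat.mul_le_mul_left 2 ?_
    calc (d + 1) ^ (4 * Nat.log 2 (d + 1) + 2) ≤ (d + 1) ^ (8 * L + 6) :=
          Nat.pow_le_pow_right (by omega) (by omega)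
      _ ≤ ((t + 1) ^ 2) ^ (8 * L + 6) := Nat.pow_le_pow_left hd1 _
      _ ≤ ((2 ^ (L + 1)) ^ 2) ^ (8 * L + 6) :=
          Nat.pow_le_pow_left (Nat.pow_le_pow_left h1.le _) _
      _ = _ := by
        rw [show (L + 1) * (16 * L + 12) = (L + 1) * 2 * (8 * L + 6) by ring, pow_mul, pow_mul]
  have h5 : 4 * qq d * (t + 1) ≤ 2 ^ t := by
    calc 4 * qq d * (t + 1) ≤ 4 * (2 * 2 ^ ((L + 1) * (16 * L + 12))) * 2 ^ (L + 1) := by gcongr
      _ = 2 ^ (3 + (L + 1) + (L + 1) * (16 * L + 12)) := by
        rw [pow_add, pow_add]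
        ring
      _ ≤ 2 ^ t := by
        refine Nat.pow_le_pow_right (by norm_num) ?_
        have h6 := lin_le_pow L hL
        have h7 : 3 + (L + 1) + (L + 1) * (16 * L + 12) = (L + 1) * (16 * L + 13) + 3 := by ring
        omega
  have h6 := central' t (by omega)
  by_contra hcon
  push Not at hcon
  have h7 : (4 * qq d * (t + 1)) ^ 2 ≤ 4 ^ t := by
    calc (4 * qq d * (t + 1)) ^ 2 ≤ (2 ^ t) ^ 2 := Nat.pow_le_pow_left h5 2
      _ = 4 ^ t := by rw [← pow_mul, mul_comm, pow_mul]; norm_num
  have h8 : (4 * qq d * (t + 1)) ^ 2 ≤ ((t + 1) * t.choose (t / 2)) ^ 2 := by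
    refine (h7.trans h6).trans ?_
    calc 4 * t * t.choose (t / 2) ^ 2 ≤ (t + 1) ^ 2 * t.choose (t / 2) ^ 2 := by
          gcongr
          nlinarith
      _ = _ := by ring
  have h9 : 4 * qq d * (t + 1) ≤ (t + 1) * t.choose (t / 2) := by
    by_contra h
    push Not at h
    exact absurd h8 (not_le.2 (Nat.pow_lt_pow_left h (by norm_num)))
  nlinarith

end NumM

theorem specBase (hU : SpecUpper) : SpecBase := by
  refine ⟨259, 4096, fun t l ht hl => ?_⟩
  set d := l + t with hd
  set K := t / 2 with hK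
  have hqq : 4 * qq d ≤ t.choose K := NumM.qq_le ht (by rw [hd]; omega)
  set T := d.choose K * (d - K).choose l with hT
  have hT2 : T = d.choose (K + l) * (K + l).choose l := by
    have h1 := Nat.choose_mul (n := d) (k := K + l) (s := K) (by omega)
    rw [show K + l - K = l by omega] at h1
    rw [hT, ← h1, Nat.choose_symm_add]
  have hT1 : T = d.choose l * t.choose K := by
    have h1 := Nat.choose_mul (n := d) (k := K + l) (s := l) (by omega)
    rw [show K + l - l = K by omega, show d - l = t by omega] at h1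
    rw [hT2, h1]
  have hc1 : t.choose K ≤ d.choose K := Nat.choose_le_choose K (by omega)
  have hc2 : t.choose K ≤ d.choose (K + l) := by
    rw [← Nat.choose_symm (show K + l ≤ d by omega), ← Nat.choose_symm (show K ≤ t by omega),
      show d - (K + l) = t - K by omega]
    exact Nat.choose_le_choose _ (by omega)
  have hdl : 1 ≤ d.choose l := Nat.choose_pos (by omega)
  set M := T / 2 with hM
  have hMc : M + qq d * ((d - K).choose l + (K + l).choose l) ≤ T := by
    have h1 : 4 * qq d * (d - K).choose l ≤ T := Nat.mul_le_mul_right _ (hqq.trans hc1)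
    have h2 : 4 * qq d * (K + l).choose l ≤ T := by
      rw [hT2]
      exact Nat.mul_le_mul_right _ (hqq.trans hc2)
    have h3 : 2 * (qq d * ((d - K).choose l + (K + l).choose l)) ≤ T := by nlinarith
    omega
  have hCT : t.choose K ≤ T := by
    rw [hT1]
    exact Nat.le_mul_of_pos_left _ hdl
  have hqd : 2 * (d + 1) ^ 3 ≤ qq d := by
    unfold qq
    gcongr 2 * ?_
    refine Nat.pow_le_pow_right (by omega) ?_
    have : 1 ≤ Nat.log 2 (d + 1) := Nat.le_log_of_pow_le (by norm_num) (by omega)
    omega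
  have hd4 : 4096 ≤ d := by omega
  have h16 : 16 * d ^ 2 ≤ M := by
    have h1 : 8 * (d + 1) ^ 3 ≤ T := by
      calc 8 * (d + 1) ^ 3 = 4 * (2 * (d + 1) ^ 3) := by ring
        _ ≤ 4 * qq d := Nat.mul_le_mul_left _ hqd
        _ ≤ T := hqq.trans hCT
    have h2 : 32 * d ^ 2 ≤ 8 * (d + 1) ^ 3 := by nlinarith [sq_nonneg d]
    omega
  have hdpos : 0 < 16 * d ^ 2 := by positivity
  set k := M / (16 * d ^ 2) with hk
  have hk1 : 1 ≤ k := (Nat.one_le_div_iff hdpos).2 h16
  have hkM : 16 * d ^ 2 * k ≤ M := Nat.mul_div_le M (16 * d ^ 2)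
  have hkM' : M ≤ 32 * d ^ 2 * k := by
    have h1 : M < 16 * d ^ 2 * (k + 1) := Nat.lt_mul_div_succ M hdpos
    nlinarith
  have hMT : T ≤ 4 * M := by omega
  refine (hU d K l (4 * d) (2 * d) k M (by omega) (by omega) (by omega) hk1 hMc).trans ?_
  -- real estimates
  have hKKpos := KK_pos t l
  have hKKle : KK t l ≤ 2 ^ (2 * d) := by
    unfold KK
    have h1 : ((l + t).choose t : ℝ) ≤ 2 ^ d := by exact_mod_cast Nat.choose_le_two_pow (l + t) t
    calc (2 : ℝ) ^ t * ((l + t).choose t : ℝ) ≤ 2 ^ d * 2 ^ d := by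
          gcongr
          · norm_num
          · omega
      _ = _ := by rw [← pow_add]; congr 1; ring
  have hKKle' : (2 : ℝ) ^ l * KK t l ≤ 2 ^ (2 * d) := by
    unfold KK
    have h1 : ((l + t).choose t : ℝ) ≤ 2 ^ d := by exact_mod_cast Nat.choose_le_two_pow (l + t) t
    calc (2 : ℝ) ^ l * (2 ^ t * ((l + t).choose t : ℝ)) ≤ 2 ^ l * (2 ^ t * 2 ^ d) := by gcongr
      _ = _ := by rw [← pow_add, ← pow_add]; congr 1; omega
  have ha1 : (2 : ℝ) ^ l / 2 ^ (2 * d) ≤ 1 / KK t l := by
    rw [div_le_div_iff₀ (by positivity) hKKpos, one_mul]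
    exact hKKle'
  have ha2 : (2 : ℝ) ^ (2 * d) / 2 ^ (4 * d) ≤ 1 / KK t l := by
    rw [div_le_div_iff₀ (by positivity) hKKpos, one_mul]
    calc (2 : ℝ) ^ (2 * d) * KK t l ≤ 2 ^ (2 * d) * 2 ^ (2 * d) := by gcongr
      _ = _ := by rw [← pow_add]; congr 1; ring
  have hk0 : (0 : ℝ) < k := by exact_mod_cast hk1
  have hs0 : 0 ≤ Real.sqrt t := Real.sqrt_nonneg _
  have hd0 : (0 : ℝ) < d := by positivity
  have ha3 : 1 / (k : ℝ) ≤ 256 * (((d : ℝ)) ^ 2 * Real.sqrt t) / KK t l := by
    rw [div_le_div_iff₀ hk0 hKKpos, one_mul]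
    have h1 : (2 : ℝ) ^ t ≤ 2 * Real.sqrt t * (t.choose K : ℝ) := by
      have h2 : ((2 : ℝ) ^ t) ^ 2 ≤ (2 * Real.sqrt t * (t.choose K : ℝ)) ^ 2 := by
        have h3 := NumM.central' t (by omega)
        have h4 : ((4 : ℝ)) ^ t ≤ 4 * t * (t.choose K : ℝ) ^ 2 := by exact_mod_cast h3
        calc ((2 : ℝ) ^ t) ^ 2 = 4 ^ t := by rw [← pow_mul, mul_comm, pow_mul]; norm_num
          _ ≤ _ := h4
          _ = _ := by
            rw [mul_pow, mul_pow, Real.sq_sqrt (by positivity)]
            ring
      exact (sq_le_sq₀ (by positivity) (by positivity)).1 h2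
    have h5 : KK t l ≤ 2 * Real.sqrt t * T := by
      unfold KK
      have h6 : ((l + t).choose t : ℝ) = (d.choose l : ℝ) := by
        rw [hd, Nat.choose_symm_add]
      rw [h6, hT1]
      push_cast
      calc (2 : ℝ) ^ t * (d.choose l : ℝ) ≤ (2 * Real.sqrt t * (t.choose K : ℝ)) * (d.choose l : ℝ) := by
            gcongr
        _ = _ := by ring
    have h7 : (T : ℝ) ≤ 4 * M := by exact_mod_cast hMT
    have h8 : (M : ℝ) ≤ 32 * (d : ℝ) ^ 2 * k := by exact_mod_cast hkM'
    calc KK t l ≤ 2 * Real.sqrt t * T := h5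
      _ ≤ 2 * Real.sqrt t * (4 * (32 * (d : ℝ) ^ 2 * k)) := by
        gcongr
        linarith
      _ = _ := by ring
  have ha4 : (2 : ℝ) ^ ((K + 2 * d) * (d + 4 * d)) * (1 - 1 / (k : ℝ)) ^ M ≤ 1 / KK t l := by
    have h1 : (1 - 1 / (k : ℝ)) ^ M ≤ Real.exp (-(16 * (d : ℝ) ^ 2)) := by
      have h2 : 0 ≤ 1 - 1 / (k : ℝ) := by
        rw [sub_nonneg, div_le_one hk0]
        exact_mod_cast hk1
      have h3 : 1 - 1 / (k : ℝ) ≤ Real.exp (-(1 / (k : ℝ))) := Real.one_sub_le_exp_neg _
      calc (1 - 1 / (k : ℝ)) ^ M ≤ Real.exp (-(1 / (k : ℝ))) ^ M := pow_le_pow_left₀ h2 h3 M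
        _ = Real.exp (M * -(1 / (k : ℝ))) := by rw [← Real.exp_nat_mul]
        _ ≤ _ := by
          refine Real.exp_le_exp.2 ?_
          have h4 : 16 * (d : ℝ) ^ 2 * k ≤ M := by exact_mod_cast hkM
          have h5 : 16 * (d : ℝ) ^ 2 ≤ M * (1 / (k : ℝ)) := by
            rw [mul_one_div, le_div_iff₀ hk0]
            exact h4
          linarith
    have hlog : Real.log 2 ≤ 0.7 := by
      have := Real.log_two_lt_d9
      linarith
    have hlog0 : 0 ≤ Real.log 2 := Real.log_nonneg (by norm_num)
    have h2 : (2 : ℝ) ^ ((K + 2 * d) * (d + 4 * d)) ≤ Real.exp (9 * (d : ℝ) ^ 2) := by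
      have h3 : (2 : ℝ) ^ ((K + 2 * d) * (d + 4 * d)) =
          Real.exp (((K + 2 * d) * (d + 4 * d) : ℕ) * Real.log 2) := by
        rw [Real.exp_nat_mul, Real.exp_log (by norm_num)]
      rw [h3]
      refine Real.exp_le_exp.2 ?_
      have h4 : (((K + 2 * d) * (d + 4 * d) : ℕ) : ℝ) ≤ 12.5 * (d : ℝ) ^ 2 := by
        have h5 : 2 * ((K + 2 * d) * (d + 4 * d)) ≤ 25 * d ^ 2 := by
          have h6 : 2 * K ≤ d := by omega
          nlinarith
        have h6 : ((2 * ((K + 2 * d) * (d + 4 * d)) : ℕ) : ℝ) ≤ ((25 * d ^ 2 : ℕ) : ℝ) := by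
          exact_mod_cast h5
        push_cast at h6 ⊢
        linarith
      have h5 : (0 : ℝ) ≤ (d : ℝ) ^ 2 := by positivity
      calc (((K + 2 * d) * (d + 4 * d) : ℕ) : ℝ) * Real.log 2 ≤ 12.5 * (d : ℝ) ^ 2 * 0.7 := by
            gcongr
        _ ≤ _ := by nlinarith
    have h3 : KK t l ≤ Real.exp (2 * (d : ℝ) ^ 2) := by
      refine hKKle.trans ?_
      have h4 : (2 : ℝ) ^ (2 * d) = Real.exp ((2 * d : ℕ) * Real.log 2) := by
        rw [Real.exp_nat_mul, Real.exp_log (by norm_num)]
      rw [h4]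
      refine Real.exp_le_exp.2 ?_
      push_cast
      have h5 : (1 : ℝ) ≤ d := by exact_mod_cast (by omega : 1 ≤ d)
      have h6 : (d : ℝ) * Real.log 2 ≤ d * d :=
        mul_le_mul_of_nonneg_left (by linarith) hd0.le
      calc 2 * (d : ℝ) * Real.log 2 = 2 * (d * Real.log 2) := by ring
        _ ≤ 2 * (d * d) := by linarith
        _ = 2 * (d : ℝ) ^ 2 := by ring
    rw [le_div_iff₀ hKKpos]
    have h20 : 0 ≤ (1 - 1 / (k : ℝ)) ^ M := by
      refine pow_nonneg ?_ _
      rw [sub_nonneg, div_le_one hk0]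
      exact_mod_cast hk1
    have h21 := mul_le_mul h2 h1 h20 (Real.exp_pos _).le
    have h22 := mul_le_mul h21 h3 hKKpos.le (by positivity)
    calc (2 : ℝ) ^ ((K + 2 * d) * (d + 4 * d)) * (1 - 1 / (k : ℝ)) ^ M * KK t l
        ≤ Real.exp (9 * (d : ℝ) ^ 2) * Real.exp (-(16 * (d : ℝ) ^ 2)) *
            Real.exp (2 * (d : ℝ) ^ 2) := h22
      _ = Real.exp (-5 * (d : ℝ) ^ 2) := by
        rw [← Real.exp_add, ← Real.exp_add]
        congr 1
        ring
      _ ≤ 1 := by
        rw [Real.exp_le_one_iff]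
        nlinarith [sq_nonneg (d : ℝ)]
  have hone : (1 : ℝ) ≤ (d : ℝ) ^ 2 * Real.sqrt t := by
    have h1 : (1 : ℝ) ≤ d := by exact_mod_cast (by omega : 1 ≤ d)
    have h2 : (1 : ℝ) ≤ Real.sqrt t := by
      rw [Real.one_le_sqrt]
      exact_mod_cast (by omega : 1 ≤ t)
    calc (1 : ℝ) = 1 ^ 2 * 1 := by norm_num
      _ ≤ _ := by gcongr
  have hdc : ((l : ℝ) + t) = d := by rw [hd]; push_cast; rfl
  have hsum : dens d K l (4 * d) (2 * d) k M ≤
      1 / KK t l + 1 / KK t l + 256 * ((d : ℝ) ^ 2 * Real.sqrt t) / KK t l + 1 / KK t l :=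
    add_le_add (add_le_add (add_le_add ha1 ha2) ha3) ha4
  refine hsum.trans ?_
  rw [hdc]
  have hfin : 3 + 256 * ((d : ℝ) ^ 2 * Real.sqrt t) ≤ 259 * ((d : ℝ) ^ 2 * Real.sqrt t) := by
    linarith
  have heq : 1 / KK t l + 1 / KK t l + 256 * ((d : ℝ) ^ 2 * Real.sqrt t) / KK t l + 1 / KK t l
      = (3 + 256 * ((d : ℝ) ^ 2 * Real.sqrt t)) / KK t l := by ring
  rw [heq]
  exact div_le_div_of_nonneg_right hfin hKKpos.le

end MP7c0edd
end

section
/-!
# PLOTKIN: linear codes of relative distance more than `1/2` are small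
-/
namespace MP7c0edd

open Finset Module Pool.Agent.Lib.MP_7c0edd_co.H21

theorem specPlotkin : SpecPlotkin := by
  classical
  intro d C hC
  set Cf : Finset (Fin d → ZMod 2) := univ.filter (fun c => c ∈ C) with hCf
  have hcard : Cf.card = 2 ^ finrank (ZMod 2) C := by
    have h1 : Fintype.card C = Fintype.card (ZMod 2) ^ finrank (ZMod 2) C :=
      Module.card_eq_pow_finrank
    rw [ZMod.card] at h1
    rw [← h1, Fintype.card_subtype, hCf]
  have h0 : (0 : Fin d → ZMod 2) ∈ Cf := by rw [hCf, mem_filter]; exact ⟨mem_univ _, C.zero_mem⟩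
  -- each coordinate is non zero on at most half of the words
  have hhalf : ∀ i : Fin d, 2 * (Cf.filter (fun c => c i ≠ 0)).card ≤ Cf.card := by
    intro i
    rcases (Cf.filter (fun c => c i ≠ 0)).eq_empty_or_nonempty with hE | ⟨c₀, hc₀⟩
    · rw [hE]; simp
    · rw [mem_filter, hCf, mem_filter] at hc₀
      have h1 : (Cf.filter (fun c => c i ≠ 0)).card ≤ (Cf.filter (fun c => ¬ c i ≠ 0)).card := by
        refine card_le_card_of_injOn (fun c => c + c₀) ?_ (fun a _ b _ hab => by simpa using hab)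
        intro c hc
        rw [mem_coe, mem_filter, hCf, mem_filter] at hc ⊢
        refine ⟨⟨mem_univ _, C.add_mem hc.1.2 hc₀.1.2⟩, ?_⟩
        have key : ∀ x y : ZMod 2, x ≠ 0 → y ≠ 0 → ¬ x + y ≠ 0 := by decide
        exact key _ _ hc.2 hc₀.2
      have h2 := card_filter_add_card_filter_not (s := Cf) (fun c => c i ≠ 0)
      omega
  have hswap : ∑ c ∈ Cf, (supp c).card = ∑ i : Fin d, (Cf.filter (fun c => c i ≠ 0)).card := by
    have := sum_card_bipartiteAbove_eq_sum_card_bipartiteBelow (s := Cf) (t := (univ : Finset (Fin d)))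
      (fun (c : Fin d → ZMod 2) i => c i ≠ 0)
    simpa [supp, bipartiteAbove, bipartiteBelow] using this
  have hup : 2 * ∑ c ∈ Cf, (supp c).card ≤ d * Cf.card := by
    rw [hswap, mul_sum]
    calc ∑ i : Fin d, 2 * (Cf.filter (fun c => c i ≠ 0)).card ≤ ∑ _i : Fin d, Cf.card :=
          sum_le_sum (fun i _ => hhalf i)
      _ = d * Cf.card := by rw [sum_const, card_univ, Fintype.card_fin, smul_eq_mul]
  have hlow : (Cf.card - 1) * (d + 1) ≤ 2 * ∑ c ∈ Cf, (supp c).card := by
    rw [← add_sum_erase _ _ h0, mul_add 2, mul_sum]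
    calc (Cf.card - 1) * (d + 1) = ∑ _c ∈ Cf.erase 0, (d + 1) := by
          rw [sum_const, card_erase_of_mem h0, smul_eq_mul]
      _ ≤ ∑ c ∈ Cf.erase 0, 2 * (supp c).card := by
          refine sum_le_sum (fun c hc => ?_)
          rw [mem_erase, hCf, mem_filter] at hc
          exact hC c hc.2.2 hc.1
      _ ≤ _ := Nat.le_add_left _ _
  rw [← hcard]
  obtain ⟨q, hq⟩ : ∃ q, Cf.card = q + 1 := ⟨Cf.card - 1, by
    have := card_pos.mpr ⟨_, h0⟩; omega⟩
  have h3 := hlow.trans hup
  rw [hq] at h3 ⊢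
  simp only [Nat.add_sub_cancel] at h3
  nlinarith

end MP7c0edd
end

section
/-!
# UPPER: from LAYER, LIMIT and DISTINCT to the upper bound for the limiting density
-/
namespace MP7c0edd

open Finset Module Pool.Agent.Lib.MP_7c0edd_co.H21

lemma dens_nonneg (d K l N b k M : ℕ) (hk : 1 ≤ k) : 0 ≤ dens d K l N b k M := by
  unfold dens
  have hk' : (1 : ℝ) ≤ k := by exact_mod_cast hk
  have h1 : (0 : ℝ) ≤ 1 - 1 / (k : ℝ) := by
    rw [sub_nonneg, div_le_one (by linarith)]
    exact hk'
  positivity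

lemma cLim_le_one {d l : ℕ} (hl : l ≤ d) : cLim d l ≤ 1 := ciSup_le fun n => c_le_one hl n

theorem specUpper (hLayer : SpecLayer) (hLimit : SpecLimit) (hDistinct : SpecDistinct) :
    SpecUpper := by
  intro d K l N b k M hl h1 h2 hk hM
  rcases lt_or_ge (dens d K l N b k M) 1 with hd | hd
  · refine hLimit d K l N _ hl (by omega) (dens_nonneg _ _ _ _ _ _ _ hk) fun n r hr => ?_
    refine hLayer n d K l N b r k M (by omega) (by omega) hk (fun φ u hcfg => ?_) hd
    have := hDistinct d K l N (K + b) φ u h1 h2 hcfg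
    omega
  · exact (cLim_le_one hl.le).trans hd

end MP7c0edd
end

section
/-!
# Assembly
-/
namespace MP7c0edd

open Finset Module Pool.Agent.Lib.MP_7c0edd_co.H21 Filter Topology

theorem upper : SpecUpper :=
  specUpper (specLayer specCover) specLimit (specDistinct (specCore specPlotkin))

theorem final : SpecFinal := Pool.Agent.Lib.MP_7c0edd_co.Poly.specFinal (specBase upper)

/-- the limiting edge density of a largest `Q_d`-free subgraph is `1 - c_d^(1)` -/
theorem tendsto_gam {d : ℕ} (hd : 2 ≤ d) :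
    Tendsto (fun n => gam n d) atTop (𝓝 (1 - cLim d 1)) := by
  have h := (tendsto_c (d := d) (l := 1) (by omega)).const_sub 1
  refine h.congr' ?_
  filter_upwards [eventually_ge_atTop d] with n hn
  rw [specEdge n d hd hn]

end MP7c0edd
end

section
/-!
# PLOTKIN and CORE with slack `s`
-/
namespace MP7c0edd

open Finset Module Pool.Agent.Lib.MP_7c0edd_co.H21

/-- Plotkin's bound for words supported in `T` -/
theorem plotkinT (d : ℕ) (T : Finset (Fin d)) (C : Submodule (ZMod 2) (Fin d → ZMod 2))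
    (hT : C ≤ WP T) (hC : ∀ c ∈ C, c ≠ 0 → T.card + 1 ≤ 2 * (supp c).card) :
    2 ^ finrank (ZMod 2) C ≤ T.card + 1 := by
  classical
  set Cf : Finset (Fin d → ZMod 2) := univ.filter (fun c => c ∈ C) with hCf
  have hcard : Cf.card = 2 ^ finrank (ZMod 2) C := by
    have h1 : Fintype.card C = Fintype.card (ZMod 2) ^ finrank (ZMod 2) C :=
      Module.card_eq_pow_finrank
    rw [ZMod.card] at h1
    rw [← h1, Fintype.card_subtype, hCf]
  have h0 : (0 : Fin d → ZMod 2) ∈ Cf := by rw [hCf, mem_filter]; exact ⟨mem_univ _, C.zero_mem⟩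
  have hhalf : ∀ i : Fin d, 2 * (Cf.filter (fun c => c i ≠ 0)).card ≤ Cf.card := by
    intro i
    rcases (Cf.filter (fun c => c i ≠ 0)).eq_empty_or_nonempty with hE | ⟨c₀, hc₀⟩
    · rw [hE]; simp
    · rw [mem_filter, hCf, mem_filter] at hc₀
      have h1 : (Cf.filter (fun c => c i ≠ 0)).card ≤ (Cf.filter (fun c => ¬ c i ≠ 0)).card := by
        refine card_le_card_of_injOn (fun c => c + c₀) ?_ (fun a _ b _ hab => by simpa using hab)
        intro c hc
        rw [mem_coe, mem_filter, hCf, mem_filter] at hc ⊢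
        refine ⟨⟨mem_univ _, C.add_mem hc.1.2 hc₀.1.2⟩, ?_⟩
        have key : ∀ x y : ZMod 2, x ≠ 0 → y ≠ 0 → ¬ x + y ≠ 0 := by decide
        exact key _ _ hc.2 hc₀.2
      have h2 := card_filter_add_card_filter_not (s := Cf) (fun c => c i ≠ 0)
      omega
  have hswap : ∑ c ∈ Cf, (supp c).card = ∑ i ∈ T, (Cf.filter (fun c => c i ≠ 0)).card := by
    have := sum_card_bipartiteAbove_eq_sum_card_bipartiteBelow (s := Cf) (t := T)
      (fun (c : Fin d → ZMod 2) i => c i ≠ 0)
    have h2 : ∀ c ∈ Cf, supp c = bipartiteAbove (fun (c : Fin d → ZMod 2) i => c i ≠ 0) T c := by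
      intro c hc
      ext i
      rw [mem_supp, mem_bipartiteAbove]
      refine ⟨fun h => ⟨?_, h⟩, fun h => h.2⟩
      by_contra hi
      exact h (hT (mem_filter.mp hc).2 i hi)
    rw [sum_congr rfl fun c hc => by rw [h2 c hc]]
    simpa [bipartiteBelow] using this
  have hup : 2 * ∑ c ∈ Cf, (supp c).card ≤ T.card * Cf.card := by
    rw [hswap, mul_sum]
    calc ∑ i ∈ T, 2 * (Cf.filter (fun c => c i ≠ 0)).card ≤ ∑ _i ∈ T, Cf.card :=
          sum_le_sum (fun i _ => hhalf i)
      _ = T.card * Cf.card := by rw [sum_const, smul_eq_mul]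
  have hlow : (Cf.card - 1) * (T.card + 1) ≤ 2 * ∑ c ∈ Cf, (supp c).card := by
    rw [← add_sum_erase _ _ h0, mul_add 2, mul_sum]
    calc (Cf.card - 1) * (T.card + 1) = ∑ _c ∈ Cf.erase 0, (T.card + 1) := by
          rw [sum_const, card_erase_of_mem h0, smul_eq_mul]
      _ ≤ ∑ c ∈ Cf.erase 0, 2 * (supp c).card := by
          refine sum_le_sum (fun c hc => ?_)
          rw [mem_erase, hCf, mem_filter] at hc
          exact hC c hc.2.2 hc.1
      _ ≤ _ := Nat.le_add_left _ _
  rw [← hcard]
  obtain ⟨q, hq⟩ : ∃ q, Cf.card = q + 1 := ⟨Cf.card - 1, by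
    have := card_pos.mpr ⟨_, h0⟩; omega⟩
  have h3 := hlow.trans hup
  rw [hq] at h3 ⊢
  simp only [Nat.add_sub_cancel] at h3
  nlinarith

theorem specPlotkin2 : SpecPlotkin2 := by
  classical
  intro d s C hC
  rcases Nat.lt_or_ge d s with hs | hs
  · have h1 : finrank (ZMod 2) C ≤ d := by
      have := Submodule.finrank_le C
      rwa [finrank_fintype_fun_eq_card, Fintype.card_fin] at this
    calc 2 ^ finrank (ZMod 2) C ≤ 2 ^ s := Nat.pow_le_pow_right (by norm_num) (by omega)
      _ = 2 ^ s * 1 := (mul_one _).symm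
      _ ≤ _ := Nat.mul_le_mul_left _ (by omega)
  · obtain ⟨T, _, hT⟩ := exists_subset_card_eq (s := (univ : Finset (Fin d))) (n := d - s)
      (by rw [card_univ, Fintype.card_fin]; omega)
    have h1 := plotkinT d T (C ⊓ WP T) inf_le_right (fun c hc hc0 => by
      have := hC c hc.1 hc0
      omega)
    have h2 := Submodule.finrank_sup_add_finrank_inf_eq C (WP T)
    have h3 : finrank (ZMod 2) (C ⊔ WP T : Submodule _ _) ≤ d := by
      have := Submodule.finrank_le (C ⊔ WP T)
      rwa [finrank_fintype_fun_eq_card, Fintype.card_fin] at this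
    rw [finrank_WP, hT] at h2
    have h4 : finrank (ZMod 2) C ≤ finrank (ZMod 2) (C ⊓ WP T : Submodule _ _) + s := by omega
    calc 2 ^ finrank (ZMod 2) C ≤ 2 ^ (finrank (ZMod 2) (C ⊓ WP T : Submodule _ _) + s) :=
          Nat.pow_le_pow_right (by norm_num) h4
      _ = 2 ^ s * 2 ^ finrank (ZMod 2) (C ⊓ WP T : Submodule _ _) := by rw [pow_add, mul_comm]
      _ ≤ _ := Nat.mul_le_mul_left _ (h1.trans (by omega))

theorem specCore2 : SpecCore2 := by
  classical
  have hPl := specPlotkin2
  intro d K j s C Y hKj hjd hK hCj hC2 hgen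
  set lam := Nat.log 2 (d + 1) with hlam
  let Dl := Module.Dual (ZMod 2) (Fin d → ZMod 2)
  let Ann : Submodule (ZMod 2) Dl := Y.dualAnnihilator
  let ev : Dl →ₗ[ZMod 2] (Fin d → ZMod 2) :=
    { toFun := fun k i => k (Pi.single i 1)
      map_add' := fun a b => rfl
      map_smul' := fun a b => rfl }
  have hev_apply : ∀ (k : Dl) i, ev k i = k (Pi.single i 1) := fun k i => rfl
  have hev : Function.Injective ev := by
    intro k k' h
    refine LinearMap.pi_ext' fun i => ?_
    ext
    have := congrFun h i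
    simpa [hev_apply] using this
  let Z : Dl → Finset (Fin d) := fun k => univ.filter fun i => k (Pi.single i 1) = 0
  have hmemZ : ∀ k i, i ∈ Z k ↔ k (Pi.single i 1) = 0 := fun k i => by simp [Z]
  have hZ : ∀ k ∈ Ann, k ≠ 0 → (Z k).card < K := by
    intro k hk hk0
    by_contra hcon
    push Not at hcon
    obtain ⟨P, hP, hPc⟩ := exists_subset_card_eq hcon
    apply hk0
    have h1 : Y ⊔ WP P ≤ LinearMap.ker k := by
      refine sup_le ?_ ?_
      · intro y hy
        rw [LinearMap.mem_ker]
        exact (Submodule.mem_dualAnnihilator k).mp hk y hy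
      · refine WP_eq_span P _ fun i hi => ?_
        rw [LinearMap.mem_ker]
        exact (hmemZ k i).mp (hP hi)
    rw [hgen P hPc, top_le_iff] at h1
    exact LinearMap.ker_eq_top.mp h1
  have hsuppev : ∀ k, (supp (ev k)).card + (Z k).card = d := by
    intro k
    have : supp (ev k) = (Z k)ᶜ := by
      ext i
      rw [mem_supp, mem_compl, hmemZ, hev_apply]
    rw [this, card_compl, Fintype.card_fin]
    have := card_le_univ (Z k)
    rw [Fintype.card_fin] at this
    omega
  have hAnn : 2 ^ finrank (ZMod 2) Ann ≤ 2 ^ s * (d + 1) := by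
    have h1 := hPl d s (Ann.map ev) (by
      intro c hc hc0
      obtain ⟨k, hk, rfl⟩ := Submodule.mem_map.mp hc
      have hk0 : k ≠ 0 := by
        rintro rfl
        exact hc0 (map_zero _)
      have := hZ k hk hk0
      have := hsuppev k
      omega)
    rwa [← (Submodule.equivMapOfInjective ev hev Ann).finrank_eq] at h1
  have hCard : 2 ^ finrank (ZMod 2) C ≤ 2 ^ s * (d + 1) := hPl d s C hC2
  have hfin : finrank (ZMod 2) Y + finrank (ZMod 2) Ann = d := by
    have := Subspace.finrank_add_finrank_dualAnnihilator_eq (K := ZMod 2) Y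
    rw [finrank_fintype_fun_eq_card, Fintype.card_fin] at this
    exact this
  have hlog : ∀ x : ℕ, 2 ^ x ≤ 2 ^ s * (d + 1) → x ≤ lam + s := by
    intro x hx
    by_contra hcon
    push Not at hcon
    have h1 : d + 1 < 2 ^ (lam + 1) := Nat.lt_pow_succ_log_self (by norm_num) _
    have h2 : 2 ^ s * (d + 1) < 2 ^ s * 2 ^ (lam + 1) :=
      Nat.mul_lt_mul_of_pos_left h1 (by positivity)
    rw [← pow_add] at h2
    have h3 : 2 ^ (s + (lam + 1)) ≤ 2 ^ x := Nat.pow_le_pow_right (by norm_num) (by omega)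
    omega
  have hh := hlog _ hAnn
  have hk' := hlog _ hCard
  have : Finite Dl := Finite.of_injective (fun k => ev k) hev
  have : Fintype Ann := Fintype.ofFinite _
  -- the two covering families
  let S1 : Finset (Finset (Fin d)) :=
    ((univ : Finset Ann) ×ˢ (univ : Finset (Fin d))).image fun q => insert q.2 (Z q.1)
  let S2 : Finset (Finset (Fin d)) :=
    ((univ : Finset C) ×ˢ
      ((univ : Finset (Finset (Fin d))).filter fun E => E.card ≤ 4 * (lam + s))).image
      fun q => symmDiff q.2 (supp q.1.1)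
  have hS1 : S1.card ≤ (2 ^ s * (d + 1)) * (d + 1) := by
    refine card_image_le.trans ?_
    rw [card_product, card_univ, card_univ, Fintype.card_fin, Module.card_eq_pow_finrank (K := ZMod 2),
      ZMod.card]
    exact Nat.mul_le_mul hAnn (by omega)
  have hS2 : S2.card ≤ (2 ^ s * (d + 1)) * (d + 1) ^ (4 * (lam + s)) := by
    refine card_image_le.trans ?_
    rw [card_product, card_univ, Module.card_eq_pow_finrank (K := ZMod 2), ZMod.card]
    exact Nat.mul_le_mul hCard card_small
  have hsub : {P : Finset (Fin d) | P.card = j ∧ ∃ P' : Finset (Fin d), P'.card = j ∧ P' ≠ P ∧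
    Y ⊓ WP P ≤ (Y ⊓ WP P') ⊔ C} ⊆ ((S1 ∪ S2 : Finset (Finset (Fin d))) : Set (Finset (Fin d))) := by
    rintro P ⟨hPj, P', hP'j, hne, hle⟩
    rw [mem_coe, mem_union]
    by_cases hcase : Y ⊓ WP P ≤ WP P'
    · -- Case 1
      left
      obtain ⟨i, hi, hi'⟩ : ∃ i ∈ P, i ∉ P' := by
        by_contra hcon
        push Not at hcon
        exact hne (eq_of_subset_of_card_le hcon (by omega)).symm
      have hnot : (Pi.single i 1 : Fin d → ZMod 2) ∉ Y ⊔ WP (P.erase i) := by
        intro hmem
        obtain ⟨y, hy, z, hz, hyz⟩ := Submodule.mem_sup.mp hmem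
        have hyP : y ∈ WP P := by
          have : y = Pi.single i 1 - z := by rw [← hyz]; abel
          rw [this]
          refine (WP P).sub_mem (single_mem_WP hi) ?_
          intro m hm
          exact hz m fun h => hm (mem_of_mem_erase h)
        have h1 : y i = 0 := hcase ⟨hy, hyP⟩ i hi'
        have h2 : z i = 0 := hz i (by simp)
        have h3 := congrFun hyz i
        rw [Pi.add_apply, h1, h2, Pi.single_eq_same, add_zero] at h3
        exact zero_ne_one h3
      obtain ⟨k, hk0, hkle⟩ := Submodule.exists_le_ker_of_notMem hnot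
      have hkAnn : k ∈ Ann := by
        refine (Submodule.mem_dualAnnihilator k).mpr fun y hy => ?_
        exact LinearMap.mem_ker.mp (hkle (Submodule.mem_sup_left hy))
      have hkne : k ≠ 0 := by
        rintro rfl
        exact hk0 rfl
      have hsubZ : P.erase i ⊆ Z k := by
        intro m hm
        rw [hmemZ]
        exact LinearMap.mem_ker.mp (hkle (Submodule.mem_sup_right (single_mem_WP hm)))
      have hcard := hZ k hkAnn hkne
      have heq : P.erase i = Z k := by
        refine eq_of_subset_of_card_le hsubZ ?_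
        rw [card_erase_of_mem hi]
        omega
      refine mem_image.mpr ⟨(⟨k, hkAnn⟩, i), mem_product.mpr ⟨mem_univ _, mem_univ _⟩, ?_⟩
      change insert i (Z k) = P
      rw [← heq, insert_erase hi]
    · -- Case 2
      right
      rw [SetLike.not_le_iff_exists] at hcase
      obtain ⟨y, hy, hyP'⟩ := hcase
      obtain ⟨y', hy', c, hc, hyc⟩ := Submodule.mem_sup.mp (hle hy)
      have hc0 : c ≠ 0 := by
        rintro rfl
        apply hyP'
        rw [← hyc, add_zero]
        exact hy'.2
      have hcs : supp c ⊆ P ∪ P' := by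
        intro i hi
        rw [mem_supp] at hi
        by_contra hcon
        rw [mem_union, not_or] at hcon
        apply hi
        have h1 := mem_WP.mp hy.2 i hcon.1
        have h2 := mem_WP.mp hy'.2 i hcon.2
        have h3 := congrFun hyc i
        rw [Pi.add_apply, h1, h2, zero_add] at h3
        exact h3
      have hcj := hCj c hc hc0
      -- dimension count
      set A := Y ⊓ WP P with hA
      set B := Y ⊓ WP P' with hB
      have e1 := Submodule.finrank_sup_add_finrank_inf_eq A B
      have e2 : finrank (ZMod 2) (A ⊔ B : Submodule _ _) ≤ finrank (ZMod 2) (B ⊔ C : Submodule _ _) :=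
        Submodule.finrank_mono (sup_le hle le_sup_left)
      have e3 := Submodule.finrank_sup_add_finrank_inf_eq B C
      have e4 := Submodule.finrank_sup_add_finrank_inf_eq Y (WP P)
      rw [← hA, finrank_WP, hPj] at e4
      have e5 : finrank (ZMod 2) (Y ⊔ WP P : Submodule _ _) ≤ d := by
        have := Submodule.finrank_le (Y ⊔ WP P)
        rwa [finrank_fintype_fun_eq_card, Fintype.card_fin] at this
      have e6 : finrank (ZMod 2) (A ⊓ B : Submodule _ _) ≤ (P ∩ P').card := by
        rw [← finrank_WP]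
        refine Submodule.finrank_mono ?_
        intro z hz i hi
        rw [mem_inter, not_and_or] at hi
        rcases hi with hi | hi
        · exact hz.1.2 i hi
        · exact hz.2.2 i hi
      have e7 : (P \ P').card + (P ∩ P').card = j := by
        rw [card_sdiff_add_card_inter, hPj]
      have e8 : (P' \ P).card + (P ∩ P').card = j := by
        rw [inter_comm, card_sdiff_add_card_inter, hP'j]
      have e9 : (P ∪ P').card = j + (P' \ P).card := by
        rw [← hPj, ← card_union_of_disjoint disjoint_sdiff, union_sdiff_self_eq_union]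
      have f1 : (supp c \ P).card ≤ (P' \ P).card := by
        refine card_le_card fun i hi => ?_
        rw [mem_sdiff] at hi ⊢
        rcases mem_union.mp (hcs hi.1) with h | h
        · exact absurd h hi.2
        · exact ⟨h, hi.2⟩
      have f2 : (P \ supp c).card + (supp c).card ≤ (P ∪ P').card := by
        rw [← card_union_of_disjoint sdiff_disjoint]
        refine card_le_card (union_subset (sdiff_subset.trans subset_union_left) hcs)
      have f3 : (symmDiff P (supp c)).card ≤ 4 * (lam + s) := by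
        rw [symmDiff_def, sup_eq_union, card_union_of_disjoint disjoint_sdiff_sdiff]
        omega
      refine mem_image.mpr ⟨(⟨c, hc⟩, symmDiff P (supp c)), mem_product.mpr ⟨mem_univ _, ?_⟩, ?_⟩
      · exact mem_filter.mpr ⟨mem_univ _, f3⟩
      · change symmDiff (symmDiff P (supp c)) (supp c) = P
        rw [symmDiff_symmDiff_cancel_right]
  refine (Set.ncard_le_ncard hsub (Finset.finite_toSet _)).trans ?_
  rw [Set.ncard_coe_finset]
  refine (card_union_le _ _).trans ((Nat.add_le_add hS1 hS2).trans ?_)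
  unfold qs
  rw [← hlam]
  have g1 : (2 ^ s * (d + 1)) * (d + 1) ≤ 2 ^ s * (d + 1) ^ (4 * (lam + s) + 2) := by
    rw [mul_assoc, ← pow_two]
    exact Nat.mul_le_mul_left _ (Nat.pow_le_pow_right (by omega) (by omega))
  have g2 : (2 ^ s * (d + 1)) * (d + 1) ^ (4 * (lam + s)) ≤
      2 ^ s * (d + 1) ^ (4 * (lam + s) + 2) := by
    rw [mul_assoc, ← pow_succ']
    exact Nat.mul_le_mul_left _ (Nat.pow_le_pow_right (by omega) (by omega))
  calc _ ≤ _ := Nat.add_le_add g1 g2
    _ = _ := by rw [pow_succ]; ring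

end MP7c0edd
end

section
/-!
# DISTINCT with slack `s`
-/
namespace MP7c0edd

open Finset Module Pool.Agent.Lib.MP_7c0edd_co.H21

theorem specDistinct2 : SpecDistinct2 := by
  classical
  intro d K l N Q s φ u h1 h2 h3 hcfg
  set C : Submodule (ZMod 2) (Fin d → ZMod 2) := LinearMap.ker (PhiMap u) with hC
  set Y : Submodule (ZMod 2) (Fin d → ZMod 2) := (LinearMap.range φ).comap (PhiMap u) with hY
  have hCw : ∀ c ∈ C, c ≠ 0 → K + l + 1 ≤ (supp c).card := by
    intro c hc hc0
    by_contra hcon
    obtain ⟨P, hP, hPc⟩ := exists_superset_card_eq (s := supp c) (n := K + l) (by omega)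
      (by rw [Fintype.card_fin]; omega)
    exact hc0 (ind_zero (hcfg.ind P hPc) (LinearMap.mem_ker.mp hc) hP)
  have hgen : ∀ P : Finset (Fin d), P.card = K → Y ⊔ WP P = ⊤ := by
    intro P hP
    rw [eq_top_iff]
    intro c _
    have hmem : PhiMap u c ∈ LinearMap.range φ ⊔ sp u P := by
      rw [hcfg.gen P hP]; trivial
    obtain ⟨a, ha, b, hb, hab⟩ := Submodule.mem_sup.mp hmem
    rw [← map_WP] at hb
    obtain ⟨w, hw, rfl⟩ := Submodule.mem_map.mp hb
    refine Submodule.mem_sup.mpr ⟨c - w, ?_, w, hw, by abel⟩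
    rw [hY, Submodule.mem_comap, map_sub, ← hab, add_sub_cancel_right]
    exact ha
  have hcoll : ∀ P P' : Finset (Fin d), Submodule.comap φ (sp u P) = Submodule.comap φ (sp u P') →
      Y ⊓ WP P ≤ (Y ⊓ WP P') ⊔ C := by
    intro P P' h y hy
    obtain ⟨z, hz⟩ : PhiMap u y ∈ LinearMap.range φ := hy.1
    have e1 : z ∈ Submodule.comap φ (sp u P) := by
      rw [Submodule.mem_comap, hz, ← map_WP]
      exact Submodule.mem_map_of_mem hy.2
    rw [h, Submodule.mem_comap, ← map_WP] at e1
    obtain ⟨y', hy', hyy⟩ := Submodule.mem_map.mp e1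
    refine Submodule.mem_sup.mpr ⟨y', ⟨?_, hy'⟩, y - y', ?_, by abel⟩
    · change PhiMap u y' ∈ LinearMap.range φ
      rw [hyy]
      exact ⟨z, rfl⟩
    · rw [hC, LinearMap.mem_ker, map_sub, hyy, hz, sub_self]
  let bad : ℕ → Finset (Finset (Fin d)) := fun j => univ.filter fun P => P.card = j ∧
    ∃ P' : Finset (Fin d), P'.card = j ∧ P' ≠ P ∧ Y ⊓ WP P ≤ (Y ⊓ WP P') ⊔ C
  have hbad : ∀ j, K ≤ j → j ≤ K + l → (bad j).card ≤ qs d s := by
    intro j hj hj'
    have := specCore2 d K j s C Y hj (by omega) (by omega)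
      (fun c hc hc0 => by have := hCw c hc hc0; omega)
      (fun c hc hc0 => by have := hCw c hc hc0; omega) hgen
    rw [← Set.ncard_coe_finset]
    simpa [bad] using this
  -- the good pairs
  set G := (pairs d K l).filter fun p => p.1 ∉ bad K ∧ p.1 ∪ p.2 ∉ bad (K + l) with hG
  have hGinj : G.card ≤ (state φ u '' (pairs d K l : Set _)).ncard := by
    rw [← Set.ncard_coe_finset G]
    refine Set.ncard_le_ncard_of_injOn (state φ u) ?_ ?_ (Set.Finite.image _ (Finset.finite_toSet _))
    · intro p hp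
      exact ⟨p, (mem_filter.mp hp).1, rfl⟩
    · intro p hp q hq hpq
      rw [mem_coe, hG, mem_filter, mem_pairs] at hp hq
      obtain ⟨e1, e2⟩ := Prod.mk.inj hpq
      have f1 : q.1 = p.1 := by
        by_contra hne
        exact hp.2.1 (mem_filter.mpr ⟨mem_univ _, hp.1.1, q.1, hq.1.1, hne, hcoll _ _ e1⟩)
      have f2 : q.1 ∪ q.2 = p.1 ∪ p.2 := by
        by_contra hne
        refine hp.2.2 (mem_filter.mpr ⟨mem_univ _, ?_, q.1 ∪ q.2, ?_, hne, hcoll _ _ e2⟩)
        · rw [card_union_of_disjoint hp.1.2.2, hp.1.1, hp.1.2.1]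
        · rw [card_union_of_disjoint hq.1.2.2, hq.1.1, hq.1.2.1]
      have f3 : q.2 = p.2 := by
        have g1 : q.2 = (q.1 ∪ q.2) \ q.1 := by
          rw [union_sdiff_left, sdiff_eq_self_of_disjoint hq.1.2.2.symm]
        have g2 : p.2 = (p.1 ∪ p.2) \ p.1 := by
          rw [union_sdiff_left, sdiff_eq_self_of_disjoint hp.1.2.2.symm]
        rw [g1, f2, f1, ← g2]
      exact (Prod.ext f1 f3).symm
  have hsplit : (pairs d K l).card ≤ G.card
      + (((pairs d K l).filter fun p => p.1 ∈ bad K).card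
        + ((pairs d K l).filter fun p => p.1 ∪ p.2 ∈ bad (K + l)).card) := by
    refine le_trans (card_le_card ?_) ((card_union_le _ _).trans
      (Nat.add_le_add_left (card_union_le _ _) _))
    intro p hp
    by_cases c1 : p.1 ∈ bad K
    · exact mem_union_right _ (mem_union_left _ (mem_filter.mpr ⟨hp, c1⟩))
    · by_cases c2 : p.1 ∪ p.2 ∈ bad (K + l)
      · exact mem_union_right _ (mem_union_right _ (mem_filter.mpr ⟨hp, c2⟩))
      · exact mem_union_left _ (mem_filter.mpr ⟨hp, c1, c2⟩)
  have hb1 : ((pairs d K l).filter fun p => p.1 ∈ bad K).card ≤ qs d s * (d - K).choose l := by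
    have e : ((pairs d K l).filter fun p => p.1 ∈ bad K).card
        = ∑ P ∈ bad K, (((pairs d K l).filter fun p => p.1 ∈ bad K).filter fun p => p.1 = P).card :=
      card_eq_sum_card_fiberwise fun p hp => (mem_filter.mp hp).2
    rw [e]
    calc ∑ P ∈ bad K, (((pairs d K l).filter fun p => p.1 ∈ bad K).filter fun p => p.1 = P).card
        ≤ ∑ _P ∈ bad K, (d - K).choose l := by
          refine sum_le_sum fun P hP => ?_
          rw [← card_pairs_fst (l := l) (mem_filter.mp hP).2.1]
          exact card_le_card (filter_subset_filter _ (filter_subset _ _))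
      _ = (bad K).card * (d - K).choose l := by rw [sum_const, smul_eq_mul]
      _ ≤ _ := Nat.mul_le_mul_right _ (hbad K le_rfl (by omega))
  have hb2 : ((pairs d K l).filter fun p => p.1 ∪ p.2 ∈ bad (K + l)).card
      ≤ qs d s * (K + l).choose l := by
    have e : ((pairs d K l).filter fun p => p.1 ∪ p.2 ∈ bad (K + l)).card
        = ∑ P ∈ bad (K + l), (((pairs d K l).filter fun p => p.1 ∪ p.2 ∈ bad (K + l)).filter
          fun p => p.1 ∪ p.2 = P).card :=
      card_eq_sum_card_fiberwise fun p hp => (mem_filter.mp hp).2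
    rw [e]
    calc ∑ P ∈ bad (K + l), (((pairs d K l).filter fun p => p.1 ∪ p.2 ∈ bad (K + l)).filter
          fun p => p.1 ∪ p.2 = P).card
        ≤ ∑ _P ∈ bad (K + l), (K + l).choose l := by
          refine sum_le_sum fun P hP => ?_
          refine le_trans ?_ (card_pairs_union (l := l) (mem_filter.mp hP).2.1)
          exact card_le_card (filter_subset_filter _ (filter_subset _ _))
      _ = (bad (K + l)).card * (K + l).choose l := by rw [sum_const, smul_eq_mul]
      _ ≤ _ := Nat.mul_le_mul_right _ (hbad (K + l) (by omega) le_rfl)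
  rw [← card_pairs, mul_add]
  omega

end MP7c0edd
end

section
/-!
# LAYER with a window of admissible `K`
-/
namespace MP7c0edd

open Finset Module Pool.Agent.Lib.MP_7c0edd_co.H21

theorem specLayer2 : SpecLayer2 := by
  classical
  intro n d K₀ s l N b r k M hKl hNr hk hM hlt
  have hCover := specCover
  rcases (layer n l r).eq_empty_or_nonempty with hE | hne
  · refine ⟨∅, empty_subset _, ?_, ?_⟩
    · intro K hK hK' x hx hxr
      obtain ⟨w, hw, _⟩ := exists_below_layer (K := K) (l := l) x hx (by omega)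
      rw [hxr, hE] at hw
      exact absurd hw (notMem_empty _)
    · rw [hE]; simp
  · obtain ⟨m, hm⟩ : ∃ m, N + m = r + b := ⟨r + b - N, by omega⟩
    let Λ := Fin n → EE N m
    let Ω := {w : W n // w ∈ layer n l r}
    let Γ' : Fin s → Type := fun i =>
      {p : ((Fin N → ZMod 2) →ₗ[ZMod 2] (Fin (K₀ + i + b) → ZMod 2)) ×
        (Fin d → (Fin (K₀ + i + b) → ZMod 2)) // Cfg d (K₀ + i) l N (K₀ + i + b) p.1 p.2}
    have hfin : ∀ i, Fintype (Γ' i) := fun i => Fintype.ofFinite _
    have : Nonempty Ω := by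
      obtain ⟨w, hw⟩ := hne
      exact ⟨⟨w, hw⟩⟩
    have hΓ' : ∀ i : Fin s, Fintype.card (Γ' i) ≤ 2 ^ ((K₀ + s + b) * (d + N)) := by
      intro i
      rw [← Nat.card_eq_fintype_card]
      refine (Nat.card_le_card_of_injective (fun γ : Γ' i => γ.1) Subtype.val_injective).trans ?_
      rw [Nat.card_prod, card_lin, Nat.card_eq_fintype_card, Fintype.card_fun, Fintype.card_fun,
        ZMod.card, Fintype.card_fin, Fintype.card_fin, ← pow_mul, ← pow_add]
      refine Nat.pow_le_pow_right (by norm_num) ?_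
      have hi := i.2
      calc (K₀ + i + b) * N + (K₀ + i + b) * d = (K₀ + i + b) * (d + N) := by ring
        _ ≤ _ := Nat.mul_le_mul_right _ (by omega)
    have hΓ : Fintype.card (Σ i, Γ' i) ≤ s * 2 ^ ((K₀ + s + b) * (d + N)) := by
      rw [Fintype.card_sigma]
      refine (sum_le_sum fun i _ => hΓ' i).trans ?_
      rw [sum_const, card_univ, Fintype.card_fin, smul_eq_mul]
    have hpow : (0 : ℝ) ≤ (1 - 1 / (k : ℝ)) ^ M := by
      refine pow_nonneg ?_ _
      have hk' : (1 : ℝ) ≤ k := by exact_mod_cast hk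
      rw [sub_nonneg, div_le_one (by positivity)]
      exact hk'
    have hδ : ((2 : ℝ) ^ l / 2 ^ b + 2 ^ b / 2 ^ N) + 1 / (k : ℝ)
        + Fintype.card (Σ i, Γ' i) * (1 - 1 / (k : ℝ)) ^ M ≤ dens2 d K₀ s l N b k M := by
      rw [dens2]
      have h1 : (Fintype.card (Σ i, Γ' i) : ℝ) ≤ s * 2 ^ ((K₀ + s + b) * (d + N)) := by
        exact_mod_cast hΓ
      have h2 := mul_le_mul_of_nonneg_right h1 hpow
      linarith
    obtain ⟨v, T, hT, hcard⟩ := specSelect Λ Ω (St N) (Σ i, Γ' i) (fun v w => Exc v w.1)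
      (fun v w => wstate v w.1)
      (fun γ => state γ.2.1.1 γ.2.1.2 '' (pairs d (K₀ + γ.1) l : Set _))
      ((2 : ℝ) ^ l / 2 ^ b + 2 ^ b / 2 ^ N) M k hk (fun x => specExc n l N m b r x.1 x.2 hm)
      (fun γ => hM (K₀ + γ.1) (by omega) (by have := γ.1.2; omega) γ.2.1.1 γ.2.1.2 γ.2.2)
      (lt_of_le_of_lt hδ hlt)
    have hHits : ∀ K, K₀ ≤ K → K < K₀ + s → Hits d K l N (K + b) T := by
      intro K hK hK' φ u hcfg
      obtain ⟨i, rfl⟩ : ∃ i : Fin s, K = K₀ + i := ⟨⟨K - K₀, by omega⟩, by simp; omega⟩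
      obtain ⟨s', ⟨p, hp, hps⟩, hsT⟩ := hT ⟨i, ⟨(φ, u), hcfg⟩⟩
      refine ⟨p, hp, ?_⟩
      rw [hps]
      exact hsT
    refine ⟨(layer n l r).filter (fun w => Exc v w ∨ wstate v w ∈ T), filter_subset _ _, ?_, ?_⟩
    · intro K hK hK' x hx hxr
      obtain ⟨w, hw, hwx, hwT⟩ := hCover n d K l N m b v T x (by omega) hx (by omega)
        (hHits K hK hK')
      rw [hxr] at hw
      exact ⟨w, mem_filter.mpr ⟨hw, hwT⟩, hwx⟩
    · have h1 : ((layer n l r).filter (fun w => Exc v w ∨ wstate v w ∈ T)).card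
          = {x : Ω | Exc v x.1 ∨ wstate v x.1 ∈ T}.ncard := by
        rw [← Set.ncard_coe_finset]
        refine (Set.ncard_congr (fun (x : Ω) _ => x.1) ?_ ?_ ?_).symm
        · intro x hx
          rw [mem_coe, mem_filter]
          exact ⟨x.2, hx⟩
        · intro x y _ _ h
          exact Subtype.ext h
        · intro w hw
          rw [mem_coe, mem_filter] at hw
          exact ⟨⟨w, hw.1⟩, hw.2, rfl⟩
      rw [h1]
      have h2 : (Fintype.card Ω : ℝ) = (layer n l r).card := by
        congr 1
        exact Fintype.card_coe _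
      rw [h2] at hcard
      exact hcard.trans (mul_le_mul_of_nonneg_right hδ (by positivity))

end MP7c0edd
end
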