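import Pool.Agent.Lib.MP_7c0edd_co.H26.Spec2
import Pool.Agent.Lib.MP_7c0edd_co.H26.Layer2

section
/-!
# LIMIT with one residue class of layers
-/
namespace MP7c0edd

open Finset Module Pool.Agent.Lib.MP_7c0edd_co.H21

/-- a residue class with few words -/
theorem exists_residue (n l s : ℕ) (hs : 1 ≤ s) : ∃ ρ < s,
    s * ∑ r ∈ (range (n + 1)).filter (fun r => r % s = ρ), (layer n l r).card
      ≤ (words n l).card := by
  classical
  have h1 : (words n l).card = ∑ r ∈ range (n + 1), (layer n l r).card := by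
    refine card_eq_sum_card_fiberwise (f := fun w => (ones w).card) fun w _ => ?_
    rw [mem_coe, mem_range]
    have := LimitM.card_add_le w
    change (ones w).card < n + 1
    omega
  have h2 : ∑ r ∈ range (n + 1), (layer n l r).card
      = ∑ ρ ∈ range s, ∑ r ∈ (range (n + 1)).filter (fun r => r % s = ρ), (layer n l r).card := by
    rw [sum_fiberwise_of_maps_to]
    intro r _
    exact mem_range.mpr (Nat.mod_lt _ hs)
  by_contra hcon
  push Not at hcon
  have h3 : ∑ _ρ ∈ range s, (words n l).card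
      < ∑ ρ ∈ range s, s * ∑ r ∈ (range (n + 1)).filter (fun r => r % s = ρ), (layer n l r).card :=
    sum_lt_sum_of_nonempty ⟨0, mem_range.mpr hs⟩ fun ρ hρ => hcon ρ (mem_range.mp hρ)
  rw [sum_const, card_range, smul_eq_mul, ← mul_sum, ← h2, ← h1] at h3
  exact lt_irrefl _ h3

theorem specLimit2 : SpecLimit2 := by
  classical
  intro d K₀ s l r₀ δ hl hs hK hδ h
  have hs' : (0 : ℝ) < s := by exact_mod_cast hs
  have h1 := tendsto_c (d := d) (l := l) hl.le
  have h2 : Filter.Tendsto (fun n : ℕ => δ / s + r₀ * 2 ^ l * ((n : ℝ) ^ r₀ / 2 ^ n))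
      Filter.atTop (nhds (δ / s)) := by
    have h3 : Filter.Tendsto (fun n : ℕ => (n : ℝ) ^ r₀ / 2 ^ n) Filter.atTop (nhds 0) :=
      tendsto_pow_const_div_const_pow_of_one_lt r₀ (by norm_num)
    have h4 := (h3.const_mul ((r₀ : ℝ) * 2 ^ l)).const_add (δ / s)
    simpa using h4
  refine le_of_tendsto_of_tendsto h1 h2 ?_
  filter_upwards [Filter.eventually_ge_atTop (l + 1)] with n hn
  choose! S hSs hSc hSn using fun r (hr : r₀ ≤ r) => h n r hr
  obtain ⟨ρ, hρ, hρs⟩ := exists_residue n l s hs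
  set R : Finset ℕ := ((range (n + 1)).filter fun r => r % s = ρ).filter fun r => r₀ ≤ r with hR
  set T : Finset (W n) := R.biUnion S ∪
    (words n l).filter fun w => (ones w).card < r₀ with hT
  have hcov : WCov d l T := by
    constructor
    · intro w hw
      rw [hT, mem_union, mem_biUnion] at hw
      rcases hw with ⟨r, hr, hw⟩ | hw
      · exact (LimitM.mem_layer.1 (hSs r (mem_filter.1 hr).2 hw)).1
      · exact mem_words.1 (mem_filter.1 hw).1
    · intro x hx
      -- the admissible `K`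
      obtain ⟨K, hK1, hK2, hK3⟩ : ∃ K, K₀ ≤ K ∧ K < K₀ + s ∧ ((ones x).card + K) % s = ρ := by
        set q := ((ones x).card + K₀) % s with hq
        have hqs : q < s := Nat.mod_lt _ hs
        refine ⟨K₀ + (if q ≤ ρ then ρ - q else ρ + s - q), by omega, by split_ifs <;> omega, ?_⟩
        rw [← add_assoc, Nat.add_mod, ← hq]
        split_ifs with hc
        · rw [Nat.mod_eq_of_lt (show ρ - q < s by omega), show q + (ρ - q) = ρ by omega,
            Nat.mod_eq_of_lt hρ]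
        · rw [Nat.mod_eq_of_lt (show ρ + s - q < s by omega), show q + (ρ + s - q) = ρ + s by omega,
            Nat.add_mod_right, Nat.mod_eq_of_lt hρ]
      by_cases hr : r₀ ≤ (ones x).card + K
      · obtain ⟨w, hw, hwx⟩ := hSc _ hr K hK1 hK2 x hx rfl
        refine ⟨w, ?_, hwx⟩
        rw [hT, mem_union, mem_biUnion]
        left
        refine ⟨_, ?_, hw⟩
        rw [hR, mem_filter, mem_filter, mem_range]
        have := LimitM.card_add_le x
        exact ⟨⟨by omega, hK3⟩, hr⟩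
      · obtain ⟨w, hw, hw2, hwx⟩ := LimitM.exists_below x (l := l) (by omega)
        refine ⟨w, ?_, hwx⟩
        rw [hT, mem_union, mem_filter, mem_words]
        right
        exact ⟨hw, by omega⟩
  have h5 := f_le_card hcov
  have h6 := card_small_ones n l r₀ (by omega)
  have h7 : (T.card : ℝ) ≤ δ / s * (words n l).card + n.choose l * (r₀ * (n : ℝ) ^ r₀) := by
    have h8 : T.card ≤ (∑ r ∈ R, (S r).card) + n.choose l * (r₀ * n ^ r₀) :=
      (card_union_le _ _).trans (Nat.add_le_add card_biUnion_le h6)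
    have h9 : ∑ r ∈ R, ((S r).card : ℝ) ≤ δ / s * (words n l).card := by
      calc ∑ r ∈ R, ((S r).card : ℝ)
          ≤ ∑ r ∈ R, δ * (layer n l r).card :=
            sum_le_sum fun r hr => hSn r (mem_filter.1 hr).2
        _ = δ * ((∑ r ∈ R, (layer n l r).card : ℕ) : ℝ) := by
            push_cast
            rw [mul_sum]
        _ ≤ δ * ((∑ r ∈ (range (n + 1)).filter (fun r => r % s = ρ), (layer n l r).card : ℕ) : ℝ) := by
            refine mul_le_mul_of_nonneg_left ?_ hδ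
            exact_mod_cast sum_le_sum_of_subset (filter_subset _ _)
        _ ≤ _ := by
            rw [div_mul_eq_mul_div, le_div_iff₀ hs', mul_assoc]
            refine mul_le_mul_of_nonneg_left ?_ hδ
            rw [mul_comm]
            exact_mod_cast hρs
    calc (T.card : ℝ) ≤ ((∑ r ∈ R, (S r).card) + n.choose l * (r₀ * n ^ r₀) : ℕ) := by
          exact_mod_cast h8
      _ = (∑ r ∈ R, ((S r).card : ℝ)) + n.choose l * (r₀ * (n : ℝ) ^ r₀) := by push_cast; rfl
      _ ≤ _ := by gcongr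
  rw [card_words] at h7
  push_cast at h7
  have hp : (0 : ℝ) < n.choose l := by exact_mod_cast Nat.choose_pos (by omega)
  have hpow : (2 : ℝ) ^ n = 2 ^ l * 2 ^ (n - l) := by rw [← pow_add]; congr 1; omega
  have h5' : (f n d l : ℝ) ≤ T.card := by exact_mod_cast h5
  unfold c
  rw [div_le_iff₀ (by positivity)]
  refine (h5'.trans h7).trans (le_of_eq ?_)
  rw [hpow]
  field_simp

end MP7c0edd
end

section
/-!
# UPPER and NUM for version 2
-/
namespace MP7c0edd

open Finset Module Pool.Agent.Lib.MP_7c0edd_co.H21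

lemma dens2_nonneg (d K₀ s l N b k M : ℕ) (hk : 1 ≤ k) : 0 ≤ dens2 d K₀ s l N b k M := by
  unfold dens2
  have hk' : (1 : ℝ) ≤ k := by exact_mod_cast hk
  have h1 : (0 : ℝ) ≤ 1 - 1 / (k : ℝ) := by
    rw [sub_nonneg, div_le_one (by linarith)]
    exact hk'
  positivity

theorem specUpper2 : SpecUpper2 := by
  intro d K₀ s l N b k M hl hs hK h2 h3 hk hM hd
  refine specLimit2 d K₀ s l N _ hl hs hK (dens2_nonneg _ _ _ _ _ _ _ _ hk) fun n r hr => ?_
  exact specLayer2 n d K₀ s l N b r k M hK (by omega) hk (fun K hK1 hK2 φ u hcfg => by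
    have h4 := specDistinct2 d K l N (K + b) s φ u (by omega) (by omega) (by omega) hcfg
    have h5 := hM K hK1 hK2
    omega) hd

namespace NumM

/-- binomial coefficients near the middle -/
theorem near_middle (t : ℕ) (ht : 1 ≤ t) (I : ℕ) (hI : I ≤ t / 2) :
    (1 - 2 * (I : ℝ) * (I + 1) / t) * (t.choose (t / 2) : ℝ) ≤ (t.choose (t / 2 - I) : ℝ) := by
  have ht0 : (0 : ℝ) < t := by exact_mod_cast ht
  induction I with
  | zero => simp
  | succ I ih =>
    have ih := ih (by omega)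
    set h := t / 2 with hh
    obtain ⟨j, hj⟩ : ∃ j, h - I = j + 1 := ⟨h - (I + 1), by omega⟩
    have e1 : h - (I + 1) = j := by omega
    rw [e1]
    rw [hj] at ih
    have h1 := Nat.choose_succ_right_eq t j
    have h1' : (t.choose (j + 1) : ℝ) * ((j : ℝ) + 1) = t.choose j * ((t - j : ℕ) : ℝ) := by
      exact_mod_cast h1
    have hC0 : (0 : ℝ) ≤ t.choose (j + 1) := by positivity
    have hC1 : (0 : ℝ) ≤ t.choose j := by positivity
    have hCh : (0 : ℝ) ≤ t.choose h := by positivity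
    -- the ratio
    have h2 : (t.choose (j + 1) : ℝ) * (1 - 4 * ((I : ℝ) + 1) / t) ≤ t.choose j := by
      have hpos : (0 : ℝ) < ((t - j : ℕ) : ℝ) := by
        have : 0 < t - j := by omega
        exact_mod_cast this
      have h3 : (1 - 4 * ((I : ℝ) + 1) / t) * ((t - j : ℕ) : ℝ) ≤ (j : ℝ) + 1 := by
        have h4 : ((t - j : ℕ) : ℝ) = (t : ℝ) - j := by
          rw [Nat.cast_sub (by omega)]
        rw [h4]
        have h5 : (t : ℝ) ≤ 2 * j + 2 * I + 3 := by
          have : t ≤ 2 * j + 2 * I + 3 := by omega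
          exact_mod_cast this
        have h6 : (t : ℝ) ≤ 2 * ((t : ℝ) - j) := by
          have : 2 * j ≤ t := by omega
          have : (2 : ℝ) * j ≤ t := by exact_mod_cast this
          linarith
        have h7 : 4 * ((I : ℝ) + 1) / t * ((t : ℝ) - j) ≥ 2 * ((I : ℝ) + 1) := by
          rw [ge_iff_le, div_mul_eq_mul_div, le_div_iff₀ ht0]
          have hI0 : (0 : ℝ) ≤ (I : ℝ) + 1 := by positivity
          nlinarith
        have h8 : (1 - 4 * ((I : ℝ) + 1) / t) * ((t : ℝ) - j)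
            = ((t : ℝ) - j) - 4 * ((I : ℝ) + 1) / t * ((t : ℝ) - j) := by ring
        rw [h8]
        linarith
      refine le_of_mul_le_mul_right ?_ hpos
      calc (t.choose (j + 1) : ℝ) * (1 - 4 * ((I : ℝ) + 1) / t) * ((t - j : ℕ) : ℝ)
          = (t.choose (j + 1) : ℝ) * ((1 - 4 * ((I : ℝ) + 1) / t) * ((t - j : ℕ) : ℝ)) := by ring
        _ ≤ (t.choose (j + 1) : ℝ) * ((j : ℝ) + 1) := mul_le_mul_of_nonneg_left h3 hC0
        _ = _ := h1'
    push_cast
    set a : ℝ := 2 * (I : ℝ) * (I + 1) / t with ha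
    set b : ℝ := 4 * ((I : ℝ) + 1) / t with hb
    have hab : 2 * ((I : ℝ) + 1) * ((I : ℝ) + 1 + 1) / t = a + b := by
      rw [ha, hb]; field_simp; ring
    rw [hab]
    have ha0 : 0 ≤ a := by rw [ha]; positivity
    have hb0 : 0 ≤ b := by rw [hb]; positivity
    by_cases hneg : 1 - (a + b) ≤ 0
    · exact (mul_nonpos_of_nonpos_of_nonneg hneg hCh).trans hC1
    · push Not at hneg
      have hb1 : 0 ≤ 1 - b := by linarith
      calc (1 - (a + b)) * (t.choose h : ℝ) ≤ ((1 - a) * (1 - b)) * (t.choose h : ℝ) := by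
            refine mul_le_mul_of_nonneg_right ?_ hCh
            nlinarith [mul_nonneg ha0 hb0]
        _ = ((1 - a) * (t.choose h : ℝ)) * (1 - b) := by ring
        _ ≤ (t.choose (j + 1) : ℝ) * (1 - b) := mul_le_mul_of_nonneg_right ih hb1
        _ ≤ _ := h2

theorem window (t s K : ℕ) (ht : 1 ≤ t) (hs : (s + 2) * (s + 4) ≤ t) (h1 : t ≤ 2 * K + s + 1)
    (h2 : 2 * K ≤ t + s) : t.choose (t / 2) ≤ 2 * t.choose K := by
  have key : ∀ I : ℕ, I ≤ t / 2 → 2 * I ≤ s + 2 → t.choose (t / 2) ≤ 2 * t.choose (t / 2 - I) := by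
    intro I hI hIs
    have h3 := near_middle t ht I hI
    have ht0 : (0 : ℝ) < t := by exact_mod_cast ht
    have h4 : 2 * (I : ℝ) * (I + 1) / t ≤ 1 / 2 := by
      rw [div_le_iff₀ ht0]
      have h5 : 4 * I * (I + 1) ≤ t := by nlinarith
      have h6 : (4 : ℝ) * I * (I + 1) ≤ t := by exact_mod_cast h5
      linarith
    have hC : (0 : ℝ) ≤ t.choose (t / 2) := by positivity
    have h7 : (t.choose (t / 2) : ℝ) ≤ 2 * t.choose (t / 2 - I) := by nlinarith
    exact_mod_cast h7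
  rcases Nat.lt_or_ge (t / 2) K with hK | hK
  · rcases Nat.lt_or_ge t K with hKt | hKt
    · -- impossible
      exfalso
      nlinarith
    rw [← Nat.choose_symm hKt]
    have := key (t / 2 - (t - K)) (by omega) (by omega)
    rwa [show t / 2 - (t / 2 - (t - K)) = t - K by omega] at this
  · have := key (t / 2 - K) (by omega) (by omega)
    rwa [show t / 2 - (t / 2 - K) = K by omega] at this

theorem pow_big (q : ℕ) (hq : 8 ≤ q) :
    6 + 2 * q + 2 ^ q + (4 * q + 4) * (16 * q + 18) + 8 * (q + 1) * 2 ^ q ≤ 4 ^ q := by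
  induction q, hq using Nat.le_induction with
  | base => norm_num
  | succ q hq ih =>
    have h1 : (4 : ℕ) ^ (q + 1) = 4 * 4 ^ q := by rw [pow_succ]; ring
    have h2 : (2 : ℕ) ^ (q + 1) = 2 * 2 ^ q := by rw [pow_succ]; ring
    have h3 : 1 ≤ 2 ^ q := Nat.one_le_two_pow
    rw [h1, h2]
    nlinarith

theorem qs_le {t d q s : ℕ} (hq : 8 ≤ q) (hs : s = 2 ^ (q - 1)) (ht1 : 4 ^ q ≤ t)
    (ht2 : t < 4 ^ (q + 1)) (hd : d ≤ t ^ 2 + t) : 8 * qs d s ≤ t.choose (t / 2) := by
  have h1 : t + 1 ≤ 2 ^ (2 * q + 2) := by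
    have : (4 : ℕ) ^ (q + 1) = 2 ^ (2 * q + 2) := by
      rw [show (4 : ℕ) = 2 ^ 2 by norm_num, ← pow_mul]; congr 1
    omega
  have hd1 : d + 1 ≤ (t + 1) ^ 2 := by nlinarith
  have hd2 : d + 1 ≤ 2 ^ (4 * q + 4) := by
    calc d + 1 ≤ (t + 1) ^ 2 := hd1
      _ ≤ (2 ^ (2 * q + 2)) ^ 2 := Nat.pow_le_pow_left h1 2
      _ = _ := by rw [← pow_mul]; congr 1; ring
  have h3 : Nat.log 2 (d + 1) ≤ 4 * q + 4 := by
    have h4 : 2 ^ Nat.log 2 (d + 1) ≤ 2 ^ (4 * q + 4) :=
      (Nat.pow_log_le_self 2 (by omega)).trans hd2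
    exact (Nat.pow_le_pow_iff_right (by norm_num)).mp h4
  have h4 : qs d s ≤ 2 ^ (s + 1 + (4 * q + 4) * (16 * q + 18 + 4 * s)) := by
    unfold qs
    rw [pow_add 2 (s + 1)]
    refine Nat.mul_le_mul_left _ ?_
    calc (d + 1) ^ (4 * (Nat.log 2 (d + 1) + s) + 2) ≤ (d + 1) ^ (16 * q + 18 + 4 * s) :=
          Nat.pow_le_pow_right (by omega) (by omega)
      _ ≤ (2 ^ (4 * q + 4)) ^ (16 * q + 18 + 4 * s) := Nat.pow_le_pow_left hd2 _
      _ = _ := by rw [← pow_mul]
  have h2s : 2 * s = 2 ^ q := by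
    rw [hs, ← pow_succ']; congr 1; omega
  have h5 : 8 * qs d s * (t + 1) ≤ 2 ^ t := by
    calc 8 * qs d s * (t + 1)
        ≤ 8 * 2 ^ (s + 1 + (4 * q + 4) * (16 * q + 18 + 4 * s)) * 2 ^ (2 * q + 2) := by gcongr
      _ = 2 ^ (3 + (s + 1 + (4 * q + 4) * (16 * q + 18 + 4 * s)) + (2 * q + 2)) := by
        rw [pow_add 2 (3 + (s + 1 + (4 * q + 4) * (16 * q + 18 + 4 * s))), pow_add 2 3,
          show (2 : ℕ) ^ 3 = 8 by norm_num]
      _ ≤ 2 ^ t := by
        refine Nat.pow_le_pow_right (by norm_num) ?_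
        have h6 := pow_big q hq
        have h7 : (4 * q + 4) * (16 * q + 18 + 4 * s)
            = (4 * q + 4) * (16 * q + 18) + 8 * (q + 1) * (2 * s) := by ring
        rw [h7, h2s]
        omega
  have h6 := central' t (by
    have : 0 < 4 ^ q := by positivity
    omega)
  by_contra hcon
  push Not at hcon
  have h7 : (8 * qs d s * (t + 1)) ^ 2 ≤ 4 ^ t := by
    calc (8 * qs d s * (t + 1)) ^ 2 ≤ (2 ^ t) ^ 2 := Nat.pow_le_pow_left h5 2
      _ = 4 ^ t := by rw [← pow_mul, mul_comm, pow_mul]; norm_num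
  have h8 : (8 * qs d s * (t + 1)) ^ 2 ≤ ((t + 1) * t.choose (t / 2)) ^ 2 := by
    refine (h7.trans h6).trans ?_
    calc 4 * t * t.choose (t / 2) ^ 2 ≤ (t + 1) ^ 2 * t.choose (t / 2) ^ 2 := by
          gcongr
          nlinarith
      _ = _ := by ring
  have h9 : 8 * qs d s * (t + 1) ≤ (t + 1) * t.choose (t / 2) := by
    by_contra h
    push Not at h
    exact absurd h8 (not_le.2 (Nat.pow_lt_pow_left h (by norm_num)))
  nlinarith

end NumM

theorem specBase2 : SpecBase2 := by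
  refine ⟨2051, 4 ^ 8, fun t l ht hl => ?_⟩
  set d := l + t with hd
  -- the window
  obtain ⟨q, hq8, hqt, hqt'⟩ : ∃ q, 8 ≤ q ∧ 4 ^ q ≤ t ∧ t < 4 ^ (q + 1) :=
    ⟨Nat.log 4 t, Nat.le_log_of_pow_le (by norm_num) ht,
      Nat.pow_log_le_self 4 (by have : 0 < 4 ^ 8 := by norm_num
                                omega), Nat.lt_pow_succ_log_self (by norm_num) _⟩
  set s := 2 ^ (q - 1) with hs
  have h2s : 2 * s = 2 ^ q := by
    rw [hs, ← pow_succ']; congr 1; omega
  have h4s : 4 * s ^ 2 = 4 ^ q := by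
    have : (2 * s) ^ 2 = 4 ^ q := by
      rw [h2s, ← pow_mul, mul_comm, pow_mul]; norm_num
    rw [← this]; ring
  have hs128 : 128 ≤ s := by
    rw [hs]
    calc 128 = 2 ^ 7 := by norm_num
      _ ≤ _ := Nat.pow_le_pow_right (by norm_num) (by omega)
  have hst : 4 * s ^ 2 ≤ t := by rw [h4s]; exact hqt
  have hts : t < 16 * s ^ 2 := by
    have : (4 : ℕ) ^ (q + 1) = 4 * 4 ^ q := by rw [pow_succ]; ring
    omega
  have hss : (s + 2) * (s + 4) ≤ t := by nlinarith
  have hst' : s ≤ t := by nlinarith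
  set h := t / 2 with hh
  set K₀ := (t - s) / 2 with hK₀
  have hqs : 8 * qs d s ≤ t.choose h := NumM.qs_le hq8 hs hqt hqt' (by rw [hd]; omega)
  set B := d.choose l * t.choose h with hB
  set M := B / 4 with hM
  have hdl : 1 ≤ d.choose l := Nat.choose_pos (by omega)
  have hMc : ∀ K, K₀ ≤ K → K < K₀ + s →
      M + qs d s * ((d - K).choose l + (K + l).choose l) ≤ d.choose K * (d - K).choose l := by
    intro K hK1 hK2
    have hKt : K ≤ t := by omega
    have hw := NumM.window t s K (by omega) hss (by omega) (by omega)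
    rw [← hh] at hw
    have hqq : 4 * qs d s ≤ t.choose K := by omega
    set T := d.choose K * (d - K).choose l with hT
    have hT2 : T = d.choose (K + l) * (K + l).choose l := by
      have h1 := Nat.choose_mul (n := d) (k := K + l) (s := K) (by omega)
      rw [show K + l - K = l by omega] at h1
      rw [hT, ← h1, Nat.choose_symm_add]
    have hT1 : T = d.choose l * t.choose K := by
      have h1 := Nat.choose_mul (n := d) (k := K + l) (s := l) (by omega)
      rw [show K + l - l = K by omega, show d - l = t by omega] at h1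
      rw [hT2, h1]
    have hc1 : t.choose K ≤ d.choose K := Nat.choose_le_choose K (by omega)
    have hc2 : t.choose K ≤ d.choose (K + l) := by
      rw [← Nat.choose_symm (show K + l ≤ d by omega), ← Nat.choose_symm hKt,
        show d - (K + l) = t - K by omega]
      exact Nat.choose_le_choose _ (by omega)
    have h1 : 4 * qs d s * (d - K).choose l ≤ T := Nat.mul_le_mul_right _ (hqq.trans hc1)
    have h2 : 4 * qs d s * (K + l).choose l ≤ T := by
      rw [hT2]
      exact Nat.mul_le_mul_right _ (hqq.trans hc2)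
    have h3 : 2 * (qs d s * ((d - K).choose l + (K + l).choose l)) ≤ T := by nlinarith
    have h4 : B ≤ 2 * T := by
      rw [hT1, hB]
      calc d.choose l * t.choose h ≤ d.choose l * (2 * t.choose K) := Nat.mul_le_mul_left _ hw
        _ = _ := by ring
    omega
  have hCB : t.choose h ≤ B := Nat.le_mul_of_pos_left _ hdl
  have hqd : 2 * (d + 1) ^ 3 ≤ qs d s := by
    unfold qs
    refine Nat.mul_le_mul ?_ ?_
    · calc 2 = 2 ^ 1 := by norm_num
        _ ≤ _ := Nat.pow_le_pow_right (by norm_num) (by omega)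
    · exact Nat.pow_le_pow_right (by omega) (by omega)
  have hd4 : 4096 ≤ d := by
    have : 4096 ≤ 4 ^ 8 := by norm_num
    omega
  have h32 : 2 * (16 * d ^ 2) ≤ M := by
    have h1 : 16 * (d + 1) ^ 3 ≤ B := by
      calc 16 * (d + 1) ^ 3 = 8 * (2 * (d + 1) ^ 3) := by ring
        _ ≤ 8 * qs d s := Nat.mul_le_mul_left _ hqd
        _ ≤ B := hqs.trans hCB
    have h2 : 256 * d ^ 2 ≤ 16 * (d + 1) ^ 3 := by nlinarith [sq_nonneg d]
    omega
  have hdpos : 0 < 16 * d ^ 2 := by positivity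
  set k := M / (16 * d ^ 2) with hk
  have hk2 : 2 ≤ k := (Nat.le_div_iff_mul_le hdpos).2 h32
  have hk1 : 1 ≤ k := by omega
  have hkM : 16 * d ^ 2 * k ≤ M := Nat.mul_div_le M (16 * d ^ 2)
  have hkM' : M ≤ 32 * d ^ 2 * k := by
    have h1 : M < 16 * d ^ 2 * (k + 1) := Nat.lt_mul_div_succ M hdpos
    nlinarith
  have hMB : B ≤ 8 * M := by omega
  -- real estimates
  have hKKpos := KK_pos t l
  have hKKle : KK t l ≤ 2 ^ (2 * d) := by
    unfold KK
    have h1 : ((l + t).choose t : ℝ) ≤ 2 ^ d := by exact_mod_cast Nat.choose_le_two_pow (l + t) t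
    calc (2 : ℝ) ^ t * ((l + t).choose t : ℝ) ≤ 2 ^ d * 2 ^ d := by
          gcongr
          · norm_num
          · omega
      _ = _ := by rw [← pow_add]; congr 1; ring
  have hKKle' : (2 : ℝ) ^ l * KK t l ≤ 2 ^ (2 * d) := by
    unfold KK
    have h1 : ((l + t).choose t : ℝ) ≤ 2 ^ d := by exact_mod_cast Nat.choose_le_two_pow (l + t) t
    calc (2 : ℝ) ^ l * (2 ^ t * ((l + t).choose t : ℝ)) ≤ 2 ^ l * (2 ^ t * 2 ^ d) := by gcongr
      _ = _ := by rw [← pow_add, ← pow_add]; congr 1; omega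
  have hKK64 : 64 ≤ KK t l := by
    unfold KK
    have h1 : (1 : ℝ) ≤ ((l + t).choose t : ℝ) := by
      exact_mod_cast Nat.choose_pos (show t ≤ l + t by omega)
    have h2 : (64 : ℝ) ≤ 2 ^ t := by
      calc (64 : ℝ) = 2 ^ 6 := by norm_num
        _ ≤ 2 ^ t := pow_le_pow_right₀ (by norm_num) (by nlinarith)
    nlinarith
  have ha1 : (2 : ℝ) ^ l / 2 ^ (2 * d) ≤ 1 / KK t l := by
    rw [div_le_div_iff₀ (by positivity) hKKpos, one_mul]
    exact hKKle'
  have ha2 : (2 : ℝ) ^ (2 * d) / 2 ^ (4 * d) ≤ 1 / KK t l := by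
    rw [div_le_div_iff₀ (by positivity) hKKpos, one_mul]
    calc (2 : ℝ) ^ (2 * d) * KK t l ≤ 2 ^ (2 * d) * 2 ^ (2 * d) := by gcongr
      _ = _ := by rw [← pow_add]; congr 1; ring
  have hk0 : (0 : ℝ) < k := by exact_mod_cast hk1
  have hd0 : (0 : ℝ) < d := by positivity
  have hs0 : (0 : ℝ) < s := by
    have : 0 < s := by omega
    exact_mod_cast this
  have ha3 : 1 / (k : ℝ) ≤ 2048 * ((d : ℝ) ^ 2 * s) / KK t l := by
    rw [div_le_div_iff₀ hk0 hKKpos, one_mul]
    have h1 : (2 : ℝ) ^ t ≤ 8 * s * (t.choose h : ℝ) := by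
      have h2 : ((2 : ℝ) ^ t) ^ 2 ≤ (8 * s * (t.choose h : ℝ)) ^ 2 := by
        have h3 := NumM.central' t (by omega)
        have h4 : ((4 : ℝ)) ^ t ≤ 4 * t * (t.choose h : ℝ) ^ 2 := by exact_mod_cast h3
        have h5 : (t : ℝ) ≤ 16 * (s : ℝ) ^ 2 := by exact_mod_cast hts.le
        calc ((2 : ℝ) ^ t) ^ 2 = 4 ^ t := by rw [← pow_mul, mul_comm, pow_mul]; norm_num
          _ ≤ _ := h4
          _ ≤ 4 * (16 * (s : ℝ) ^ 2) * (t.choose h : ℝ) ^ 2 := by gcongr
          _ = _ := by ring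
      exact (sq_le_sq₀ (by positivity) (by positivity)).1 h2
    have h5 : KK t l ≤ 8 * s * B := by
      unfold KK
      have h6 : ((l + t).choose t : ℝ) = (d.choose l : ℝ) := by
        rw [hd, Nat.choose_symm_add]
      rw [h6, hB]
      push_cast
      calc (2 : ℝ) ^ t * (d.choose l : ℝ) ≤ (8 * s * (t.choose h : ℝ)) * (d.choose l : ℝ) := by
            gcongr
        _ = _ := by ring
    have h7 : (B : ℝ) ≤ 8 * M := by exact_mod_cast hMB
    have h8 : (M : ℝ) ≤ 32 * (d : ℝ) ^ 2 * k := by exact_mod_cast hkM'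
    calc KK t l ≤ 8 * s * B := h5
      _ ≤ 8 * s * (8 * (32 * (d : ℝ) ^ 2 * k)) := by
        gcongr
        linarith
      _ = _ := by ring
  have ha4 : (s : ℝ) * (2 : ℝ) ^ ((K₀ + s + 2 * d) * (d + 4 * d)) * (1 - 1 / (k : ℝ)) ^ M
      ≤ 1 / KK t l := by
    have h1 : (1 - 1 / (k : ℝ)) ^ M ≤ Real.exp (-(16 * (d : ℝ) ^ 2)) := by
      have h2 : 0 ≤ 1 - 1 / (k : ℝ) := by
        rw [sub_nonneg, div_le_one hk0]
        exact_mod_cast hk1
      have h3 : 1 - 1 / (k : ℝ) ≤ Real.exp (-(1 / (k : ℝ))) := Real.one_sub_le_exp_neg _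
      calc (1 - 1 / (k : ℝ)) ^ M ≤ Real.exp (-(1 / (k : ℝ))) ^ M := pow_le_pow_left₀ h2 h3 M
        _ = Real.exp (M * -(1 / (k : ℝ))) := by rw [← Real.exp_nat_mul]
        _ ≤ _ := by
          refine Real.exp_le_exp.2 ?_
          have h4 : 16 * (d : ℝ) ^ 2 * k ≤ M := by exact_mod_cast hkM
          have h5 : 16 * (d : ℝ) ^ 2 ≤ M * (1 / (k : ℝ)) := by
            rw [mul_one_div, le_div_iff₀ hk0]
            exact h4
          linarith
    have hlog : Real.log 2 ≤ 0.7 := by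
      have := Real.log_two_lt_d9
      linarith
    have hlog0 : 0 ≤ Real.log 2 := Real.log_nonneg (by norm_num)
    have h2 : (2 : ℝ) ^ ((K₀ + s + 2 * d) * (d + 4 * d)) ≤ Real.exp (11 * (d : ℝ) ^ 2) := by
      have h3 : (2 : ℝ) ^ ((K₀ + s + 2 * d) * (d + 4 * d)) =
          Real.exp (((K₀ + s + 2 * d) * (d + 4 * d) : ℕ) * Real.log 2) := by
        rw [Real.exp_nat_mul, Real.exp_log (by norm_num)]
      rw [h3]
      refine Real.exp_le_exp.2 ?_
      have h4 : (((K₀ + s + 2 * d) * (d + 4 * d) : ℕ) : ℝ) ≤ 15 * (d : ℝ) ^ 2 := by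
        have h5 : (K₀ + s + 2 * d) * (d + 4 * d) ≤ 15 * d ^ 2 := by
          have h6 : K₀ + s ≤ d := by omega
          nlinarith
        exact_mod_cast h5
      have h5 : (0 : ℝ) ≤ (d : ℝ) ^ 2 := by positivity
      calc (((K₀ + s + 2 * d) * (d + 4 * d) : ℕ) : ℝ) * Real.log 2 ≤ 15 * (d : ℝ) ^ 2 * 0.7 := by
            gcongr
        _ ≤ _ := by nlinarith
    have h3 : KK t l ≤ Real.exp (2 * (d : ℝ) ^ 2) := by
      refine hKKle.trans ?_
      have h4 : (2 : ℝ) ^ (2 * d) = Real.exp ((2 * d : ℕ) * Real.log 2) := by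
        rw [Real.exp_nat_mul, Real.exp_log (by norm_num)]
      rw [h4]
      refine Real.exp_le_exp.2 ?_
      push_cast
      have h5 : (1 : ℝ) ≤ d := by exact_mod_cast (by omega : 1 ≤ d)
      have h6 : (d : ℝ) * Real.log 2 ≤ d * d :=
        mul_le_mul_of_nonneg_left (by linarith) hd0.le
      calc 2 * (d : ℝ) * Real.log 2 = 2 * (d * Real.log 2) := by ring
        _ ≤ 2 * (d * d) := by linarith
        _ = 2 * (d : ℝ) ^ 2 := by ring
    have h4 : (s : ℝ) ≤ Real.exp ((d : ℝ) ^ 2) := by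
      have h5 : (s : ℝ) ≤ d := by
        have : s ≤ d := by omega
        exact_mod_cast this
      have h6 := Real.add_one_le_exp ((d : ℝ) ^ 2)
      have h7 : (d : ℝ) ≤ (d : ℝ) ^ 2 := by
        have h8 : (1 : ℝ) ≤ d := by exact_mod_cast (by omega : 1 ≤ d)
        nlinarith
      linarith
    rw [le_div_iff₀ hKKpos]
    have h20 : 0 ≤ (1 - 1 / (k : ℝ)) ^ M := by
      refine pow_nonneg ?_ _
      rw [sub_nonneg, div_le_one hk0]
      exact_mod_cast hk1
    have h19 := mul_le_mul h4 h2 (by positivity) (Real.exp_pos _).le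
    have h21 := mul_le_mul h19 h1 h20 (by positivity)
    have h22 := mul_le_mul h21 h3 hKKpos.le (by positivity)
    calc (s : ℝ) * (2 : ℝ) ^ ((K₀ + s + 2 * d) * (d + 4 * d)) * (1 - 1 / (k : ℝ)) ^ M * KK t l
        ≤ Real.exp ((d : ℝ) ^ 2) * Real.exp (11 * (d : ℝ) ^ 2) * Real.exp (-(16 * (d : ℝ) ^ 2)) *
            Real.exp (2 * (d : ℝ) ^ 2) := h22
      _ = Real.exp (-2 * (d : ℝ) ^ 2) := by
        rw [← Real.exp_add, ← Real.exp_add, ← Real.exp_add]
        congr 1
        ring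
      _ ≤ 1 := by
        rw [Real.exp_le_one_iff]
        nlinarith [sq_nonneg (d : ℝ)]
  have hlt : dens2 d K₀ s l (4 * d) (2 * d) k M < 1 := by
    have h1 : 1 / KK t l ≤ 1 / 64 := one_div_le_one_div_of_le (by norm_num) hKK64
    have h2 : 1 / (k : ℝ) ≤ 1 / 2 := by
      refine one_div_le_one_div_of_le (by norm_num) ?_
      exact_mod_cast hk2
    unfold dens2
    linarith
  refine (specUpper2 d K₀ s l (4 * d) (2 * d) k M (by omega) (by omega) (by omega) (by omega)
    (by omega) hk1 hMc hlt).trans ?_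
  have hdc : ((l : ℝ) + t) = d := by rw [hd]; push_cast; rfl
  rw [hdc, div_le_iff₀ hs0]
  have hone : (1 : ℝ) ≤ (d : ℝ) ^ 2 * s := by
    have h1 : (1 : ℝ) ≤ d := by exact_mod_cast (by omega : 1 ≤ d)
    have h2 : (1 : ℝ) ≤ s := by exact_mod_cast (by omega : 1 ≤ s)
    calc (1 : ℝ) = 1 ^ 2 * 1 := by norm_num
      _ ≤ _ := by gcongr
  have hsum : dens2 d K₀ s l (4 * d) (2 * d) k M ≤
      1 / KK t l + 1 / KK t l + 2048 * ((d : ℝ) ^ 2 * s) / KK t l + 1 / KK t l :=
    add_le_add (add_le_add (add_le_add ha1 ha2) ha3) ha4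
  refine hsum.trans ?_
  have heq : 1 / KK t l + 1 / KK t l + 2048 * ((d : ℝ) ^ 2 * s) / KK t l + 1 / KK t l
      = (3 + 2048 * ((d : ℝ) ^ 2 * s)) / KK t l := by ring
  have heq2 : 2051 * (d : ℝ) ^ 2 / KK t l * s = (2051 * ((d : ℝ) ^ 2 * s)) / KK t l := by ring
  rw [heq, heq2]
  refine div_le_div_of_nonneg_right ?_ hKKpos.le
  linarith

end MP7c0edd
end

section
/-!
# FINAL for version 2
-/
namespace MP7c0edd

open Finset Module Pool.Agent.Lib.MP_7c0edd_co.H21 Pool.Agent.Lib.MP_7c0edd_co.Poly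

theorem specBase_of : SpecBase := specBase upper

/-- the bound with `d²` -/
theorem bound_sq : ∃ C : ℝ, 0 ≤ C ∧ ∀ l t : ℕ, 1 ≤ t →
    cLim (l + t) l ≤ C * ((l : ℝ) + t) ^ 2 / KK t l ∧
    cLim (l + t) l ≤ C * (t : ℝ) ^ 4 / KK t l := by
  obtain ⟨C₁, hC₁, h₁⟩ := two_bounds specBase_of
  obtain ⟨C₀, t₀, h₀⟩ := specBase2
  choose D hD hDt using small_t
  set C₂ := ∑ t ∈ range t₀, D t with hC₂
  have hC₂0 : 0 ≤ C₂ := sum_nonneg fun t _ => hD t
  refine ⟨C₁ + 4 * |C₀| + C₂, by positivity, fun l t ht => ?_⟩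
  have ht' : (1 : ℝ) ≤ t := by exact_mod_cast ht
  have hK := KK_pos t l
  have hl0 : (0 : ℝ) ≤ l := by positivity
  have hlogt : Real.log ((t : ℝ) + 1) ≤ t := by
    have := Real.log_le_sub_one_of_pos (show (0 : ℝ) < (t : ℝ) + 1 by linarith)
    linarith
  have e1 : (1 : ℝ) ≤ (t : ℝ) ^ 2 := one_le_pow₀ ht'
  have e2 : (t : ℝ) ^ 2 ≤ ((l : ℝ) + t) ^ 2 := by
    have : (t : ℝ) ≤ (l : ℝ) + t := by linarith
    gcongr
  have e3 : (t : ℝ) ^ 2 ≤ (t : ℝ) ^ 4 := pow_le_pow_right₀ ht' (by norm_num)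
  have hA : 0 ≤ |C₀| := abs_nonneg _
  rcases Nat.lt_or_ge (t ^ 2) l with hl | hl
  · have h2 := (h₁ l t ht).1 hl.le
    have h3 : C₁ * (t * Real.log ((t : ℝ) + 1)) ≤ C₁ * (t : ℝ) ^ 2 := by
      refine mul_le_mul_of_nonneg_left ?_ hC₁
      rw [pow_two]
      gcongr
    have h4 : ∀ Z : ℝ, (t : ℝ) ^ 2 ≤ Z →
        cLim (l + t) l ≤ (C₁ + 4 * |C₀| + C₂) * Z / KK t l := by
      intro Z hZ
      refine h2.trans (div_le_div_of_nonneg_right ?_ hK.le)
      have h5 : C₁ * (t : ℝ) ^ 2 ≤ C₁ * Z := mul_le_mul_of_nonneg_left hZ hC₁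
      have h6 : 0 ≤ (4 * |C₀| + C₂) * Z := mul_nonneg (by positivity) (by linarith)
      linarith
    exact ⟨h4 _ e2, h4 _ e3⟩
  · rcases Nat.lt_or_ge t t₀ with hlt | hge
    · have h1 : cLim (l + t) l ≤ C₂ / KK t l := by
        refine (hDt t l ht).trans (div_le_div_of_nonneg_right ?_ hK.le)
        exact single_le_sum (f := D) (fun t _ => hD t) (mem_range.mpr hlt)
      have h4 : ∀ Z : ℝ, (1 : ℝ) ≤ Z →
          cLim (l + t) l ≤ (C₁ + 4 * |C₀| + C₂) * Z / KK t l := by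
        intro Z hZ
        refine h1.trans (div_le_div_of_nonneg_right ?_ hK.le)
        have h5 : C₂ ≤ C₂ * Z := le_mul_of_one_le_right hC₂0 hZ
        have h6 : 0 ≤ (C₁ + 4 * |C₀|) * Z := mul_nonneg (by positivity) (by linarith)
        linarith
      exact ⟨h4 _ (e1.trans e2), h4 _ (e1.trans e3)⟩
    · have h1 := h₀ t l hge hl
      have e4 : ((l : ℝ) + t) ^ 2 ≤ 4 * (t : ℝ) ^ 4 := by
        have h5 : (l : ℝ) ≤ (t : ℝ) ^ 2 := by exact_mod_cast hl
        have h6 : (l : ℝ) + t ≤ 2 * (t : ℝ) ^ 2 := by nlinarith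
        calc ((l : ℝ) + t) ^ 2 ≤ (2 * (t : ℝ) ^ 2) ^ 2 := by gcongr
          _ = _ := by ring
      have h2 : cLim (l + t) l ≤ |C₀| * ((l : ℝ) + t) ^ 2 / KK t l := by
        refine h1.trans (div_le_div_of_nonneg_right ?_ hK.le)
        exact mul_le_mul_of_nonneg_right (le_abs_self _) (by positivity)
      constructor
      · refine h2.trans (div_le_div_of_nonneg_right ?_ hK.le)
        have h6 : 0 ≤ (C₁ + 3 * |C₀| + C₂) * ((l : ℝ) + t) ^ 2 := by positivity
        linarith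
      · refine h2.trans (div_le_div_of_nonneg_right ?_ hK.le)
        have h6 : |C₀| * ((l : ℝ) + t) ^ 2 ≤ |C₀| * (4 * (t : ℝ) ^ 4) :=
          mul_le_mul_of_nonneg_left e4 hA
        have h7 : 0 ≤ (C₁ + C₂) * (t : ℝ) ^ 4 := by positivity
        linarith

theorem specFinal2 : SpecFinal2 := by
  obtain ⟨C, hC, hb⟩ := bound_sq
  have e0 : ∀ d l : ℕ, l < d → ∃ t, 1 ≤ t ∧ d = l + t ∧ ((d : ℝ) - l) = t ∧
      (2 : ℝ) ^ (d - l) * (d.choose l : ℝ) = KK t l := by
    intro d l hl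
    refine ⟨d - l, by omega, by omega, ?_, ?_⟩
    · rw [Nat.cast_sub hl.le]
    · have h1 := numSub_add l (d - l)
      rw [Nat.add_sub_cancel' hl.le] at h1
      rw [← h1]
      rfl
  refine ⟨⟨C, fun d l hl => ?_⟩, final.2.1, ⟨C, fun d l hl => ?_⟩⟩
  · obtain ⟨t, ht, rfl, h2, h3⟩ := e0 d l hl
    rw [h3]
    have := (hb l t ht).1
    push_cast
    exact this
  · obtain ⟨t, ht, hd, h2, h3⟩ := e0 d l hl
    rw [h3, h2, hd]
    exact (hb l t ht).2

end MP7c0edd
end
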