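import Mathlib
import Pool.Agent.Lib.MP_7c0edd_co.helper21.Final

/-!
# Turan densities of subcubes, sharp up to a polynomial factor: definitions

`W n` (words over `{0,1,*}`), `stars`, `ones`, `Below`, `words`, `cLim`, `Good`, `Gadget`, `KK` are
those of `helper21` (namespace `Pool.Agent.Lib.MP_7c0edd_co.H21`).
-/

namespace MP7c0edd

open Finset Module Pool.Agent.Lib.MP_7c0edd_co.H21

/-- the support of a vector -/
def supp {d : ℕ} (c : Fin d → ZMod 2) : Finset (Fin d) := univ.filter fun i => c i ≠ 0

/-- the coordinate subspace of the vectors supported in `P` -/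
def WP {d : ℕ} (P : Finset (Fin d)) : Submodule (ZMod 2) (Fin d → ZMod 2) where
  carrier := {c | ∀ i, i ∉ P → c i = 0}
  add_mem' := by intro a b ha hb i hi; simp [ha i hi, hb i hi]
  zero_mem' := by intro i _; rfl
  smul_mem' := by intro t a ha i hi; simp [ha i hi]

/-- a quasi-polynomial error term -/
def qq (d : ℕ) : ℕ := 2 * (d + 1) ^ (4 * Nat.log 2 (d + 1) + 2)

/-- the span of the vectors `u i`, `i ∈ P` -/
abbrev sp {ι V : Type*} [AddCommGroup V] [Module (ZMod 2) V] (u : ι → V) (P : Finset ι) :
    Submodule (ZMod 2) V := Submodule.span (ZMod 2) (u '' (P : Set ι))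

/-- Configurations: `u` labels `d` points by vectors of `F^Q`, any `K + l` of them independent, and
`φ : F^N → F^Q` is such that its range and any `K` of the labels generate `F^Q`. -/
structure Cfg (d K l N Q : ℕ) (φ : (Fin N → ZMod 2) →ₗ[ZMod 2] (Fin Q → ZMod 2))
    (u : Fin d → (Fin Q → ZMod 2)) : Prop where
  ind : ∀ P : Finset (Fin d), P.card = K + l → LinearIndepOn (ZMod 2) u (P : Set (Fin d))
  gen : ∀ P : Finset (Fin d), P.card = K → LinearMap.range φ ⊔ sp u P = ⊤

/-- pairs of subspaces of `F^N` -/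
abbrev St (N : ℕ) := Submodule (ZMod 2) (Fin N → ZMod 2) × Submodule (ZMod 2) (Fin N → ZMod 2)

/-- the pairs `(P, F)` of disjoint sets of sizes `K` and `l` -/
def pairs (d K l : ℕ) : Finset (Finset (Fin d) × Finset (Fin d)) :=
  ((powersetCard K univ) ×ˢ (powersetCard l univ)).filter fun p => Disjoint p.1 p.2

/-- the state of a pair `(P, F)` in a configuration -/
def state {d N Q : ℕ} (φ : (Fin N → ZMod 2) →ₗ[ZMod 2] (Fin Q → ZMod 2))
    (u : Fin d → (Fin Q → ZMod 2)) (p : Finset (Fin d) × Finset (Fin d)) : St N :=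
  (Submodule.comap φ (sp u p.1), Submodule.comap φ (sp u (p.1 ∪ p.2)))

/-- `T` meets the set of states of each configuration -/
def Hits (d K l N Q : ℕ) (T : Set (St N)) : Prop :=
  ∀ φ u, Cfg d K l N Q φ u → ∃ p ∈ pairs d K l, state φ u p ∈ T

/-- `F^N × F^m` -/
abbrev EE (N m : ℕ) := (Fin N → ZMod 2) × (Fin m → ZMod 2)

/-- exceptional words for the labelling `v`: the labels of the ones and stars are dependent, or
the second components of the labels of the ones do not generate `F^m` -/
def Exc {n N m : ℕ} (v : Fin n → EE N m) (w : W n) : Prop :=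
  ¬ LinearIndepOn (ZMod 2) v ((ones w ∪ stars w : Finset (Fin n)) : Set (Fin n)) ∨
    sp (fun i => (v i).2) (ones w) ≠ ⊤

/-- the state of a word for the labelling `v` -/
def wstate {n N m : ℕ} (v : Fin n → EE N m) (w : W n) : St N :=
  (Submodule.comap (LinearMap.inl (ZMod 2) (Fin N → ZMod 2) (Fin m → ZMod 2)) (sp v (ones w)),
   Submodule.comap (LinearMap.inl (ZMod 2) (Fin N → ZMod 2) (Fin m → ZMod 2))
    (sp v (ones w ∪ stars w)))

/-- the words with `l` stars and `r` ones -/
def layer (n l r : ℕ) : Finset (W n) := (words n l).filter fun w => (ones w).card = r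

end MP7c0edd
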